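import Pool.Agent.FLN.StN

/-!
# Random homomorphisms of groups of genus 1 (oriented) and 2 (non-oriented) to `PSL_n(q)`

MP_5b5212_al: the groups `x_j ^ m_j = 1`, `x_1 ⋯ x_d [a, b] = 1` and `x_1 ⋯ x_d a ^ 2 b ^ 2 = 1`, all `σ > 0`.
`S_X` is the statement of module `X`; the module proves `theorem t_X : M_X` (or `t_X : S_X` if there is
no `M_X`) in `Pool/Agent/FLW/X.lean`, namespace `FLW`, importing this file. Almost every module is an
adaptation of the module of the same name in `Pool/Agent/FLN` or `Pool/Agent/FL0` (the files of these two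
directories may be imported, also their proved theorems). `d = m.length`, `σ = sig m`, `q = Nat.card F`. Both groups are
treated at the same time: `o = true` is the oriented, `o = false` the non-oriented case.
-/

namespace FLW

open RSF FL0 Polynomial Pool.Agent.Lib_helper13

noncomputable section

/-! ## Definitions -/

/-- the word `[a, b]`, resp. `a ^ 2 b ^ 2` -/
def wd {G : Type} [Group G] (o : Bool) (a b : G) : G :=
  if o then a * b * a⁻¹ * b⁻¹ else a ^ 2 * b ^ 2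

/-- the number of the tuples `(t, a, b)` in `G` with `t_j ^ m_j = 1`, `∏ t_j * wd o a b = 1` and `E` -/
def TN (o : Bool) (G : Type) [Group G] (m : List ℕ) (E : (Fin m.length → G) → G → G → Prop) : ℕ :=
  Nat.card {p : (Fin m.length → G) × G × G // (∀ j, p.1 j ^ m.get j = 1) ∧ E p.1 p.2.1 p.2.2 ∧
    (List.ofFn p.1).prod * wd o p.2.1 p.2.2 = 1}

/-- the sign -/
def sg (F : Type) [Field F] (o : Bool) : F := if o then 1 else -1

section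

variable {F A B V : Type} [Field F] [AddCommGroup A] [Module F A] [AddCommGroup B] [Module F B]
  [AddCommGroup V] [Module F V] {d : ℕ}

/-- For invertible `a`, `b` and `z ≠ 0`: `Wl o z X a b = 0` iff `X * wd o a b = z`. -/
def Wl (o : Bool) (z : F) (X a b : V →ₗ[F] V) : V →ₗ[F] V :=
  if o then X * a * b - z • (b * a) else X * a ^ 2 * b ^ 2 - z • 1

/-- `a`, `b` are invertible, `(x j) ^ m_j = 1`, `x_1 ⋯ x_d wd o a b = z` -/
def Tu (o : Bool) (z : F) (m : List ℕ) (x : Fin m.length → (V →ₗ[F] V)) (a b : V →ₗ[F] V) : Prop :=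
  (∀ j, x j ^ m.get j = 1) ∧ IsUnit a ∧ IsUnit b ∧ Wl o z (List.ofFn x).prod a b = 0

/-- the linear maps that commute with the `α j` and `β j` and commute (`o = true`), resp. anticommute
(`o = false`) with `u`, `v` and with `p`, `r` -/
def Hs (o : Bool) (α : Fin d → (A →ₗ[F] A)) (u p : A →ₗ[F] A) (β : Fin d → (B →ₗ[F] B))
    (v r : B →ₗ[F] B) : Type :=
  {f : A →ₗ[F] B // (∀ j, f ∘ₗ α j = β j ∘ₗ f) ∧ f ∘ₗ u = sg F o • (v ∘ₗ f) ∧
    f ∘ₗ p = sg F o • (r ∘ₗ f)}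

/-- `W` is invariant -/
def In2 (x : Fin d → (V →ₗ[F] V)) (a b : V →ₗ[F] V) (W : Submodule F V) : Prop :=
  Inv x W ∧ W ≤ W.comap a ∧ W ≤ W.comap b

/-- only `0` and `V` are invariant, `V ≠ 0` -/
def Si2 (x : Fin d → (V →ₗ[F] V)) (a b : V →ₗ[F] V) : Prop :=
  Nontrivial V ∧ ∀ W : Submodule F V, In2 x a b W → W = ⊥ ∨ W = ⊤

/-- the upper right block of `Wl` for block triangular endomorphisms of `A × B`, linear in `(c, e, f)` -/
def u2 (o : Bool) (z : F) (a : Fin d → (A →ₗ[F] A)) (u p : A →ₗ[F] A) (b : Fin d → (B →ₗ[F] B))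
    (v r : B →ₗ[F] B) (c : Fin d → (B →ₗ[F] A)) (e f : B →ₗ[F] A) : B →ₗ[F] A :=
  LinearMap.fst F A B ∘ₗ
    Wl o z (List.ofFn fun j => bk (a j) (c j) (b j)).prod (bk u e v) (bk p f r) ∘ₗ
    LinearMap.inr F A B

end

/-! ## 1. Counting -/

/-- **COM**. For the normal subgroup `H` of index `k` and the restriction `∑ m_ψ ψ` of `X` to `H`:
`∑_{a,b ∈ H} ψ [a, b] = |H|² / ψ(1)` for irreducible `ψ` (`∑_a ρ(a b a⁻¹)` is the scalar `|H| ψ(b) / ψ(1)`), so the sum is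
`|H|² ∑ m_ψ / ψ(1)`. If `m_ψ ≠ 0` there is an `H`-submodule `W` of dimension `ψ(1)` in the module `V` of `X`; the sum of the `g W`,
`g ∈ G / H`, is invariant, so `X(1) ≤ k ψ(1)`. And `∑ m_ψ ≤ ∑ m_ψ² = (1/|H|) ∑_{h ∈ H} |X h|² ≤ |G| / |H| = k`. So the sum is
at most `|H|² k² / X(1)`. (If `V` is written as a direct sum of irreducible `H`-submodules `W_i`: their number is at most `k`,
because all have dimension at least `X(1) / k`, and the sum is `|H|² ∑ 1 / dim W_i`. The characters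
`m_ψ`, `S_MN` and `class_fn_expand` are not needed then.) -/
def S_COM : Prop :=
  ∀ (G : Type) [Group G] [Fintype G] (X : G → ℂ) (H : Subgroup G), H.Normal → IsIrr X →
    ‖∑ᶠ p : H × H, X (wd true (p.1 : G) p.2)‖ * ‖X 1‖ ≤ (Nat.card G : ℝ) ^ 2

/-- **CON**. `∑_{a ∈ H} ρ(a²)` commutes with all `ρ g` (`H` is normal), so it is the scalar `∑_{a ∈ H} X (a²) / X 1`, and the sum in
question is `(∑_{a ∈ H} X (a²))² / X 1`; `FLN.S_FSI`, last claim. -/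
def S_CON : Prop :=
  ∀ (G : Type) [Group G] [Fintype G] (X : G → ℂ) (H : Subgroup G), H.Normal → IsIrr X →
    ‖∑ᶠ p : H × H, X (wd false (p.1 : G) p.2)‖ * ‖X 1‖ ≤ (Nat.card G : ℝ) ^ 2

def M_CON : Prop := FLN.S_FSI → S_CON

/-- **FRO** (compare `FLN/FRO.lean`). By `FLC.S_FRB`, summed over `a`, `b`: for `H = SL_n` or `GL_n`, `w = wd o a b`,
`N |GL_n| = ∏ |cl| ∑_X ∏ (X (y j) / X 1) X 1 ∑_{a, b ∈ H} X (w z⁻¹)`. Linear `X = ld l` (`FLC.S_LIN`): for `SL_n` the term is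
`|SL_n|²`, sum `(q-1) |SL_n|² = |GL_n| |SL_n|`; for `GL_n` it has absolute value at most `|GL_n|²`, sum at most `(q-1) |GL_n|²`. Other
`X`: `|∑ X (w z⁻¹)| = |∑ X w| ≤ |GL_n|² / X(1)` (`z` acts by a scalar of absolute value `1`; `S_COM`, `S_CON`), and by `FLC.S_FL` with
`ε = σ / (2 d)`, `∏ |X (y j)| X(1)^(- d) ≤ q^(∑ δ / 2) X(1)^(-σ/2)`, `FLC.S_ZET`: the sum is at most
`|GL_n|² q^(∑ δ / 2) (q-1) q^(-c' n)`. Take `c = c' / 2`, `n ≥ 4 / c'` (`(q-1)² ≤ q^(c' n / 2)`). -/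
def S_FRO : Prop :=
  ∀ m : List ℕ, (∀ k ∈ m, 2 ≤ k) → 0 < sig m → ∃ (c : ℝ) (r : ℕ), 0 < c ∧ ∀ n, r ≤ n →
    ∀ (F : Type) [Field F] [Finite F], (∀ k ∈ m, k ∣ Nat.card F - 1) → ∀ z : F, z ≠ 0 →
    ∀ (o : Bool) (y : Fin m.length → GL (Fin n) F), (∀ j, y j ^ m.get j = 1) →
      (∏ j, (y j).1.det = z ^ n →
        |(Nat.card {t : (Fin m.length → GL (Fin n) F) × SL n F × SL n F //
            (∀ j, IsConj (y j) (t.1 j)) ∧
            (List.ofFn fun j => (t.1 j).1).prod * (wd o t.2.1 t.2.2).1 =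
              Matrix.scalar (Fin n) z} : ℝ) -
          (∏ j, (Nat.card {t : GL (Fin n) F // IsConj (y j) t} : ℝ)) * Nat.card (SL n F)| ≤
        (∏ j, (Nat.card {t : GL (Fin n) F // IsConj (y j) t} : ℝ)) * Nat.card (SL n F) *
          (Nat.card F : ℝ) ^ ((∑ j, del (m.get j) (y j).1) / 2 - c * n)) ∧
      (Nat.card {t : (Fin m.length → GL (Fin n) F) × GL (Fin n) F × GL (Fin n) F //
          (∀ j, IsConj (y j) (t.1 j)) ∧
          (List.ofFn fun j => (t.1 j).1).prod * (wd o t.2.1 t.2.2).1 =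
            Matrix.scalar (Fin n) z} : ℝ) ≤
        (∏ j, (Nat.card {t : GL (Fin n) F // IsConj (y j) t} : ℝ)) * Nat.card (GL (Fin n) F) *
          (Nat.card F * (1 + (Nat.card F : ℝ) ^ ((∑ j, del (m.get j) (y j).1) / 2 - c * n)))

def M_FRO : Prop :=
  FLC.S_MN → FLC.S_FRB → FLC.S_FL → FLC.S_ZET → FLC.S_LIN → S_COM → S_CON → S_FRO

/-- **UPB** (copy `FLN/UPB.lean`). Upper bound for given multiplicities, all dimensions `l`. For `l ≥ r` by `S_FRO`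
(second): at most `2 q q^(l²) q^(∑ δ_j / 2) ∏ |C_j|` (`∑ δ_j ≥ 0`). For `l < r`: at most `∏ |C_j| |GL_l|² ≤ ∏ |C_j| q^(2 l²)`.
`|C_j| ≤ 4^(m_j) q^(l² - sq)` (`S_CLS`). Exponent `d l² - |β|² + l² + (|β|² - (d - σ) l²)/2`; for `l < r` use
`|β|² ≥ (d - σ) l²`. -/
def S_UPB : Prop :=
  ∀ m : List ℕ, (∀ k ∈ m, 2 ≤ k) → 0 < sig m → ∃ C : ℝ, 0 ≤ C ∧
    ∀ (F V : Type) [Field F] [Finite F] [AddCommGroup V] [Module F V] [FiniteDimensional F V],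
    (∀ k ∈ m, k ∣ Nat.card F - 1) → ∀ z : F, z ≠ 0 → ∀ (o : Bool) (β : Fin m.length → F → ℕ),
      (Nat.card {t : (Fin m.length → (V →ₗ[F] V)) × (V →ₗ[F] V) × (V →ₗ[F] V) //
        Tu o z m t.1 t.2.1 t.2.2 ∧ ∀ j ζ, ev (t.1 j) ζ = β j ζ} : ℝ) ≤
      (Nat.card F : ℝ) ^ (C + ((m.length + sig m) / 2 + 1) * (Module.finrank F V : ℝ) ^ 2 -
        (∑ j, ∑ᶠ ζ : F, (β j ζ : ℝ) ^ 2) / 2)

def M_UPB : Prop := S_PI → S_FRO → S_EVS → S_CLS → S_UPB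

/-! ## 2. Block triangular matrices -/

/-- **ZAN** (compare `FLN/ZAN.lean`). Let `I` be the set (a subspace) of the `u2 ⋯ c e f`, all `c_j` of the form
`a_j h - h b_j`, `e`, `f` arbitrary. The functionals that kill `I` are `X ↦ tr (T X)`, `|B →ₗ A| / |I|` in number; an
injective linear map `T ↦ T'` to `Hs` is: `P = ∏ a_j`, `R = ∏ b_j`.
`o = true`: `P u p = z p u`, `R v r = z r v`; `T' = r v T`. The block is `P (u f + e r) + ur(c) v r - z (p e + f v)`. From `c`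
(`ZAN_aux.claim` for `v r T`): `T' a_j = b_j T'`, so `T' P = R T'`. From `e`: `r T P = z T p`; from `f`: `T P u = z v T`. Insert
`T = v⁻¹ r⁻¹ T'`: `T P = v⁻¹ r⁻¹ R T'`, `R = z r v r⁻¹ v⁻¹`: the first gives `r T' = T' p`, the second `T' u = v T'`.
`o = false`: `P u² p² = z`, `R v² r² = z`; `T' = T`. The block is `P (u² (p f + f r) + (u e + e v) r²) + ur(c) v² r²`. From `c`
(claim for `v² r² T`): `T a_j = b_j T`. From `f`: `T P u² p = - r T P u²`, `P u² = z p⁻²`: `T p = - r T`. From `e`: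
`r² T P u = - v r² T P`, and `r² T P = T p² P = z T u⁻²` (`P = z p⁻² u⁻²`, `r² T = T p²`): `T u = - v T`. -/
def S_ZAN : Prop :=
  ∀ (F A B : Type) [Field F] [Finite F] [AddCommGroup A] [Module F A] [FiniteDimensional F A]
    [AddCommGroup B] [Module F B] [FiniteDimensional F B] (d : ℕ) (z : F), z ≠ 0 → ∀ (o : Bool)
    (a : Fin d → (A →ₗ[F] A)) (u p : A →ₗ[F] A) (b : Fin d → (B →ₗ[F] B)) (v r : B →ₗ[F] B),
    IsUnit u → IsUnit p → IsUnit v → IsUnit r →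
    Wl o z (List.ofFn a).prod u p = 0 → Wl o z (List.ofFn b).prod v r = 0 →
      Nat.card F ^ (Module.finrank F A * Module.finrank F B) ≤
        Nat.card {y : B →ₗ[F] A // ∃ (h : Fin d → (B →ₗ[F] A)) (e f : B →ₗ[F] A),
          u2 o z a u p b v r (fun j => a j ∘ₗ h j - h j ∘ₗ b j) e f = y} *
        Nat.card (Hs o a u p b v r)

/-- **ZON** (copy `FLN/ZON.lean`; two free blocks `e`, `f`). -/
def S_ZON : Prop :=
  ∀ (F A B : Type) [Field F] [Finite F] [AddCommGroup A] [Module F A] [FiniteDimensional F A]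
    [AddCommGroup B] [Module F B] [FiniteDimensional F B] (m : List ℕ), (∀ k ∈ m, 2 ≤ k) →
    (∀ k ∈ m, k ∣ Nat.card F - 1) → ∀ z : F, z ≠ 0 → ∀ (o : Bool)
    (a : Fin m.length → (A →ₗ[F] A)) (u p : A →ₗ[F] A) (b : Fin m.length → (B →ₗ[F] B))
      (v r : B →ₗ[F] B), (∀ j, a j ^ m.get j = 1) → (∀ j, b j ^ m.get j = 1) →
      IsUnit u → IsUnit p → IsUnit v → IsUnit r →
      Nat.card {c : (Fin m.length → (B →ₗ[F] A)) × (B →ₗ[F] A) × (B →ₗ[F] A) //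
          (∀ j, bk (a j) (c.1 j) (b j) ^ m.get j = 1) ∧
          Wl o z (List.ofFn fun j => bk (a j) (c.1 j) (b j)).prod (bk u c.2.1 v)
            (bk p c.2.2 r) = 0} *
        Nat.card F ^ (Module.finrank F A * Module.finrank F B + pr a b) ≤
      Nat.card F ^ ((m.length + 2) * (Module.finrank F A * Module.finrank F B)) *
        Nat.card (Hs o a u p b v r)

def M_ZON : Prop := S_ZRG → S_ZCM → S_ZAN → S_ZON

/-- **FIB** (copy `FLN/FIB.lean`). -/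
def S_FIB : Prop :=
  ∀ (F V : Type) [Field F] [Finite F] [AddCommGroup V] [Module F V] [FiniteDimensional F V]
    (m : List ℕ), (∀ k ∈ m, 2 ≤ k) → (∀ k ∈ m, k ∣ Nat.card F - 1) → ∀ z : F, z ≠ 0 →
    ∀ (o : Bool) (W : Submodule F V) (a : Fin m.length → (W →ₗ[F] W)) (u p : W →ₗ[F] W)
      (b : Fin m.length → ((V ⧸ W) →ₗ[F] (V ⧸ W))) (v r : (V ⧸ W) →ₗ[F] (V ⧸ W)),
    (∀ j, a j ^ m.get j = 1) → (∀ j, b j ^ m.get j = 1) →
    IsUnit u → IsUnit p → IsUnit v → IsUnit r →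
      Nat.card {x : (Fin m.length → (V →ₗ[F] V)) × (V →ₗ[F] V) × (V →ₗ[F] V) //
          Tu o z m x.1 x.2.1 x.2.2 ∧ ∃ h : In2 x.1 x.2.1 x.2.2 W,
            sb x.1 W h.1 = a ∧ x.2.1.restrict h.2.1 = u ∧ x.2.2.restrict h.2.2 = p ∧
            qt x.1 W h.1 = b ∧ W.mapQ W x.2.1 h.2.1 = v ∧ W.mapQ W x.2.2 h.2.2 = r} *
        Nat.card F ^ (Module.finrank F W * Module.finrank F (V ⧸ W) + pr a b) ≤
      Nat.card F ^ ((m.length + 2) * (Module.finrank F W * Module.finrank F (V ⧸ W))) *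
        Nat.card (Hs o a u p b v r)

def M_FIB : Prop := S_ZON → S_FIB

/-! ## 3. Modules -/

/-- **SMP**. From `FLN.t_SMP` (`FLN/SMP.lean`) for the `d + 1` endomorphisms `(α, u)`, `(β, sg o • v)` and for `p`, `- sg o • r`
(`Fin.snoc`), or as there. -/
def S_SMP : Prop :=
  ∀ (F A B : Type) [Field F] [Finite F] [AddCommGroup A] [Module F A] [FiniteDimensional F A]
    [AddCommGroup B] [Module F B] [FiniteDimensional F B] (d : ℕ) (o : Bool)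
    (α : Fin d → (A →ₗ[F] A)) (u p : A →ₗ[F] A) (β : Fin d → (B →ₗ[F] B)) (v r : B →ₗ[F] B),
    Si2 α u p →
    Nat.card (Hs o α u p β v r) ≤ Nat.card F ^ Module.finrank F B ∧
    ((∃ j ζ, 0 < ev (α j) ζ ∧ ev (α j) ζ < Module.finrank F A) →
      Nat.card (Hs o α u p β v r) ^ 2 ≤ Nat.card F ^ Module.finrank F B)

/-- **HNF** (copy `FLN/HNF.lean`; kernel and range of `f` with `f a = ± a f`, `f b = ± b f` are invariant. Or: `o = true`: `FL0.t_HNF`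
for the `d + 2` endomorphisms `(x, a, b)`; `o = false`: `FLN.t_HNF` for `(x, a b)` and `a`: `f` commutes with `a b` and
anticommutes with `a`; invariance under `b = a⁻¹ (a b)`.) -/
def S_HNF : Prop :=
  ∀ (F V : Type) [Field F] [Finite F] [AddCommGroup V] [Module F V] [FiniteDimensional F V]
    (d : ℕ) (o : Bool) (x : Fin d → (V →ₗ[F] V)) (a b : V →ₗ[F] V) (j : Fin d) (k : ℕ), 1 ≤ k →
    k ∣ Nat.card F - 1 → x j ^ k = 1 → IsUnit a → IsUnit b → ∀ (ζ : F) (W₁ : Submodule F V)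
    (h₁ : In2 x a b W₁),
    ev (x j) ζ * Module.finrank F W₁ < ev (sb x W₁ h₁.1 j) ζ * Module.finrank F V →
      ∃ (W : Submodule F V) (h : In2 x a b W), W ≠ ⊥ ∧ W ≠ ⊤ ∧
        ∀ f : Hs o (sb x W h.1) (a.restrict h.2.1) (b.restrict h.2.2) (qt x W h.1)
          (W.mapQ W a h.2.1) (W.mapQ W b h.2.2), f.1 = 0

def M_HNF : Prop := S_DIA → S_HNF

/-- **DEC** (copy `FLN/DEC.lean`, `σ - 1` becomes `σ`). Let `W` be a nonzero invariant subspace of minimal dimension `k`; it is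
simple, `k < n`, `l = n - k`, `a = sb x W`. If `n ev(a_j) ζ > k ev(x_j) ζ` for some `j`, `ζ`: `S_HNF`, `|Hs| = 1`. Otherwise
`n ev(a_j) ζ = k ev(x_j) ζ` for all `j`, `ζ` (both sides have the sum `n k`, `S_DIA`), so `sq x_j = (n/k)^2 sq a_j`. (1) `k ≥ 2 / σ`:
`|Hs| ≤ q^l ≤ q^(σ k l / 2)` (`S_SMP`). (2) `k < 2 / σ` and some `m_j` does not divide `k`: `sq a_j - k^2 / m_j ≥ 1 / m_j`
(`FL0.S_STR`), `sq x_j - n^2 / m_j ≥ n^2 / (k^2 m_j) ≥ c₀ n^2`, `c₀ = min (1/2) (σ^2 / (4 m.sum))`. (3) All `m_j` divide `k`: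
`k σ = k d - ∑ k / m_j` is a positive integer, `d ≥ 1` (`σ > 0`). If some `a_j` is a scalar `ζ` then `ev(x_j) ζ = n`,
`sq x_j - n^2 / m_j = n^2 (1 - 1/m_j) ≥ n^2 / 2`. Otherwise `a_0` has an eigenspace `≠ 0`, `≠ W`: `|Hs| ≤ q^(l/2) ≤ q^(σ k l / 2)`
(`S_SMP`, second). -/
def S_DEC : Prop :=
  ∀ m : List ℕ, (∀ k ∈ m, 2 ≤ k) → 0 < sig m → ∃ c₀ : ℝ, 0 < c₀ ∧
    ∀ (F V : Type) [Field F] [Finite F] [AddCommGroup V] [Module F V] [FiniteDimensional F V],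
    (∀ k ∈ m, k ∣ Nat.card F - 1) → ∀ (o : Bool) (x : Fin m.length → (V →ₗ[F] V))
    (a b : V →ₗ[F] V), (∀ j, x j ^ m.get j = 1) → IsUnit a → IsUnit b →
    (∃ W : Submodule F V, In2 x a b W ∧ W ≠ ⊥ ∧ W ≠ ⊤) →
      (∃ j, c₀ * (Module.finrank F V : ℝ) ^ 2 ≤
        (sq (x j) : ℝ) - (Module.finrank F V : ℝ) ^ 2 / m.get j) ∨
      ∃ (W : Submodule F V) (h : In2 x a b W), W ≠ ⊥ ∧ W ≠ ⊤ ∧
        (Nat.card (Hs o (sb x W h.1) (a.restrict h.2.1) (b.restrict h.2.2) (qt x W h.1)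
          (W.mapQ W a h.2.1) (W.mapQ W b h.2.2)) : ℝ) ≤
          (Nat.card F : ℝ) ^ (sig m / 2 * Module.finrank F W * Module.finrank F (V ⧸ W))

def M_DEC : Prop := S_DIA → S_SMP → S_HNF → FL0.S_STR → S_DEC

/-! ## 4. The count of the reducible tuples -/

/-- **PAR** (copy `FLN/PAR.lean`). At most `q^(C + κ k^2 - |β|^2/2)` and `q^(C + κ l^2 - |β'|^2/2)` possible triples on `W`, `V / W`
(`S_UPB`, `κ = (d + σ)/2 + 1`; restrictions of invertible maps to invariant subspaces and the induced maps of `V / W` are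
invertible), and for each of them at most `q^((d+1) k l - <β,β'>) H` possible `x` (`S_FIB`).
`κ (k^2 + l^2) = κ n^2 - (d + σ + 2) k l`, `|β + β'|^2 ≥ (d - σ) n^2`, `κ n^2 - (d - σ) n^2 / 2 = (1 + σ) n^2`. -/
def S_PAR : Prop :=
  ∀ m : List ℕ, (∀ k ∈ m, 2 ≤ k) → 0 < sig m → ∃ C : ℝ, 0 ≤ C ∧
    ∀ (F V : Type) [Field F] [Finite F] [AddCommGroup V] [Module F V] [FiniteDimensional F V],
    (∀ k ∈ m, k ∣ Nat.card F - 1) → ∀ z : F, z ≠ 0 → ∀ (o : Bool) (W : Submodule F V) (H : ℝ),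
      0 ≤ H →
      (Nat.card {x : (Fin m.length → (V →ₗ[F] V)) × (V →ₗ[F] V) × (V →ₗ[F] V) //
          Tu o z m x.1 x.2.1 x.2.2 ∧ ∃ h : In2 x.1 x.2.1 x.2.2 W,
            (Nat.card (Hs o (sb x.1 W h.1) (x.2.1.restrict h.2.1) (x.2.2.restrict h.2.2)
              (qt x.1 W h.1) (W.mapQ W x.2.1 h.2.1) (W.mapQ W x.2.2 h.2.2)) : ℝ) ≤ H} : ℝ) ≤
      ((Module.finrank F V : ℝ) + 1) ^ (2 * m.sum) *
        (Nat.card F : ℝ) ^ (C + (1 + sig m) * (Module.finrank F V : ℝ) ^ 2 -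
          (1 + sig m) * (Module.finrank F W * Module.finrank F (V ⧸ W))) * H

def M_PAR : Prop := S_DIA → S_EVS → S_UPB → S_FIB → S_PAR

/-- **RED** (copy `FLN/RED.lean`). First alternative of `S_DEC`: at most `(n+1)^(m.sum)` multiplicity functions with
`|β|^2 ≥ (d - σ) n^2 + c₀ n^2`, `S_UPB`: `q^(C + (1 + σ) n^2 - c₀ n^2 / 2)` each. Second: for every `k`, `1 ≤ k ≤ n - 1`, at most
`4 q^(k l)` subspaces (`S_SUB`) and `S_PAR` with `H = q^(σ k l / 2)`: exponent `C + (1 + σ) n^2 - σ k l / 2`, `k l ≥ n - 1`. -/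
def S_RED : Prop :=
  ∀ m : List ℕ, (∀ k ∈ m, 2 ≤ k) → 0 < sig m → ∃ (C : ℝ) (r : ℕ), 0 ≤ C ∧ ∀ n, r ≤ n →
    ∀ (F : Type) [Field F] [Finite F], (∀ k ∈ m, k ∣ Nat.card F - 1) → ∀ z : F, z ≠ 0 →
    ∀ o : Bool,
      (Nat.card {t : (Fin m.length → GL (Fin n) F) × GL (Fin n) F × GL (Fin n) F //
        (∀ j, t.1 j ^ m.get j = 1) ∧
        (List.ofFn fun j => (t.1 j).1).prod * (wd o t.2.1 t.2.2).1 = Matrix.scalar (Fin n) z ∧
        ∃ W : Submodule F (Fin n → F), W ≠ ⊥ ∧ W ≠ ⊤ ∧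
          (∀ j, ∀ w ∈ W, (t.1 j).1.mulVec w ∈ W) ∧ (∀ w ∈ W, t.2.1.1.mulVec w ∈ W) ∧
          ∀ w ∈ W, t.2.2.1.mulVec w ∈ W} : ℝ) ≤
      ((n : ℝ) + 1) ^ C * (Nat.card F : ℝ) ^
        ((1 + sig m) * (n : ℝ) ^ 2 + C - sig m / 2 * n)

def M_RED : Prop := S_SUB → S_EVS → S_UPB → S_DEC → S_PAR → S_RED

/-! ## 5. Homomorphisms and lifts -/

/-- **HO** (`RSF.S_H2`, `RSF/H2.lean`: `RSF.t_H2`). -/
def S_HO : Prop :=
  ∀ (G : Type) [Group G] (m : List ℕ) (E : (Fin m.length → G) → G → G → Prop),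
    Nat.card {ρ : OGroup 1 m →* G // E (fun j => ρ (ox 1 m j)) (ρ (oa m)) (ρ (ob m))} =
      TN true G m E ∧
    Nat.card {ρ : NGroup 2 m →* G // E (fun j => ρ (nx 2 m j)) (ρ (na m 0)) (ρ (na m 1))} =
      TN false G m E

/-- **LFH** (as `FLN/LFH.lean`; the fibres of `SL_n^(d+2) → PSL_n^(d+2)` have `g^(d+2)` elements). -/
def S_LFH : Prop :=
  ∀ (n : ℕ) (F : Type) [Field F] [Finite F] (m : List ℕ) (o : Bool)
    (E : (Fin m.length → PS n F) → PS n F → PS n F → Prop),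
    Nat.card {A : (Fin m.length → SL n F) × SL n F × SL n F //
        (∀ j, A.1 j ^ m.get j ∈ Subgroup.center (SL n F)) ∧
        E (fun j => mk (A.1 j)) (mk A.2.1) (mk A.2.2) ∧
        (List.ofFn A.1).prod * wd o A.2.1 A.2.2 ∈ Subgroup.center (SL n F)} =
      Nat.card (Subgroup.center (SL n F)) ^ (m.length + 2) * TN o (PS n F) m E

/-- **SMC** (copy `FLN/SMC.lean`; `A j = c_j y j`, `∏ y j * wd o B B' = s / ∏ c_j = z`; `S_FRO` first part). -/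
def S_SMC : Prop :=
  ∀ m : List ℕ, (∀ k ∈ m, 2 ≤ k) → 0 < sig m → ∃ (c : ℝ) (r : ℕ), 0 < c ∧ 1 ≤ r ∧ ∀ n, r ≤ n →
    ∀ (F : Type) [Field F] [Finite F], (∀ k ∈ m, k ∣ Nat.card F - 1) → (∀ k ∈ m, Ord n F k) →
    ∀ (o : Bool), ∀ s ∈ Subgroup.center (SL n F),
      |(Nat.card {A : (Fin m.length → SL n F) × SL n F × SL n F //
          (∀ j, A.1 j ^ m.get j ∈ Subgroup.center (SL n F)) ∧
          (List.ofFn A.1).prod * wd o A.2.1 A.2.2 = s} : ℝ) -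
          (∏ j, (Nat.card (CA n F (m.get j)) : ℝ)) * Nat.card (SL n F)| ≤
        (∏ j, ∑ᶠ A : CA n F (m.get j), (Nat.card F : ℝ) ^ (del (m.get j) A.1.1 / 2)) *
          Nat.card (SL n F) * (Nat.card F : ℝ) ^ (-c * (n : ℝ))

def M_SMC : Prop := S_FRO → S_ROT → S_EVS → S_SMC

/-- **CNT** (copy `FLN/CNT.lean`). `∑_(s ∈ Z)` of the numbers of `S_SMC` is `g^(d+2)` times `TN` (`S_LFH`), `|CA n F k| = g jn k`
(`FL0.S_LFH`), `|SL_n| = g |PSL_n|`. -/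
def S_CNT : Prop :=
  ∀ m : List ℕ, (∀ k ∈ m, 2 ≤ k) → 0 < sig m → ∃ (c : ℝ) (r : ℕ), 0 < c ∧ 1 ≤ r ∧ ∀ n, r ≤ n →
    ∀ (F : Type) [Field F] [Finite F], (∀ k ∈ m, k ∣ Nat.card F - 1) → (∀ k ∈ m, Ord n F k) →
    ∀ o : Bool,
      |(TN o (PS n F) m (fun _ _ _ => True) : ℝ) / (Nat.card (PS n F) * JJ (PS n F) m) - 1| ≤
        (Nat.card F : ℝ) ^ (-c * (n : ℝ))

def M_CNT : Prop := FL0.S_LFH → S_LFH → S_SMC → S_ABS → S_POL → S_CNT

/-- **LOW** (copy `FLN/LOW.lean`): `(1/2) |PSL_n| ∏ jn ≥ (1/2) |PSL_n|^(d+1) q^(∑ (- n^2/m_j - 4 m_j^2))`. -/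
def S_LOW : Prop :=
  ∀ m : List ℕ, (∀ k ∈ m, 2 ≤ k) → 0 < sig m → ∃ (C : ℝ) (r : ℕ), 0 ≤ C ∧ ∀ n, r ≤ n →
    ∀ (F : Type) [Field F] [Finite F], (∀ k ∈ m, k ∣ Nat.card F - 1) → (∀ k ∈ m, Ord n F k) →
    ∀ o : Bool,
      (Nat.card F : ℝ) ^ ((1 + sig m) * (n : ℝ) ^ 2 - C) ≤ TN o (PS n F) m (fun _ _ _ => True)

def M_LOW : Prop := S_PI → S_PJ → S_CNT → S_LOW

/-- **FII** (copy `FLN/FII.lean`). For given `(λ_j)` (at most `g^d` possibilities) and `s` the tuples `(y j, B, B')` are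
counted by `S_RED` (`B, B' ∈ SL_n ⊆ GL_n`). -/
def S_FII : Prop :=
  ∀ m : List ℕ, (∀ k ∈ m, 2 ≤ k) → 0 < sig m → ∃ (c : ℝ) (r : ℕ), 0 < c ∧ ∀ n, r ≤ n →
    ∀ (F : Type) [Field F] [Finite F], (∀ k ∈ m, k ∣ Nat.card F - 1) → (∀ k ∈ m, Ord n F k) →
      prob (OGroup 1 m) (PS n F) (fun ρ => ¬ Irr ρ.range) ≤ (Nat.card F : ℝ) ^ (-c * (n : ℝ)) ∧
      prob (NGroup 2 m) (PS n F) (fun ρ => ¬ Irr ρ.range) ≤ (Nat.card F : ℝ) ^ (-c * (n : ℝ))

def M_FII : Prop := S_RED → S_HO → S_LFH → S_ROT → S_LOW → S_POL → S_FII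

/-- **FIII** (copy `FLN/FIII.lean`). For one conjugate `M'` at most `|M|^(d+1)` tuples (`x_1, …, x_(d-1)`, `a`, `b` in `M'`; `x_d` is
determined; `d ≥ 1`). In total at most `|S| |G| |M|^d ≤ |S| |G|^(d+1) q^(-θ d n^2)`, `|G| ≤ q^(n^2)`, and
`d + 1 - θ d < 1 + σ`. -/
def S_FIII : Prop :=
  ∀ m : List ℕ, (∀ k ∈ m, 2 ≤ k) → 0 < sig m → ∀ θ : ℝ, (m.length - sig m) < θ * m.length →
    ∃ (η : ℝ) (r : ℕ), 0 < η ∧ ∀ n, r ≤ n →
    ∀ (F : Type) [Field F] [Finite F], (∀ k ∈ m, k ∣ Nat.card F - 1) → (∀ k ∈ m, Ord n F k) →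
    ∀ S : Set (Subgroup (PS n F)), (S.ncard : ℝ) ≤ (Nat.card F : ℝ) ^ (η * (n : ℝ) ^ 2) →
      (∀ M ∈ S, (Nat.card F : ℝ) ^ (θ * (n : ℝ) ^ 2) ≤ M.index) →
      prob (OGroup 1 m) (PS n F) (fun ρ => ∃ M ∈ S, InConj ρ.range M) ≤
        (Nat.card F : ℝ) ^ (-(n : ℝ)) ∧
      prob (NGroup 2 m) (PS n F) (fun ρ => ∃ M ∈ S, InConj ρ.range M) ≤
        (Nat.card F : ℝ) ^ (-(n : ℝ))

def M_FIII : Prop := S_HO → S_LOW → S_FIII

end

end FLW
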