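import Mathlib
import Pool.Agent.FLW.StW

set_option autoImplicit false

namespace FLW

open RSF FL0 Polynomial Pool.Agent.Lib_helper13 Representation

/-- the sum of the character values at all commutators -/
theorem com_sum {H : Type} [Group H] [Fintype H] {W : Type*} [AddCommGroup W] [Module ℂ W]
    [FiniteDimensional ℂ W] (σ : Representation ℂ H W) (hσ : σ.IsIrreducible) :
    (∑ b : H, ∑ a : H, σ.character (a * b * a⁻¹ * b⁻¹)) * (Module.finrank ℂ W : ℂ) =
      (Nat.card H : ℂ) ^ 2 := by
  have key : ∀ b : H, (∑ a : H, σ.character (a * b * a⁻¹ * b⁻¹)) * (Module.finrank ℂ W : ℂ) =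
      (Nat.card H : ℂ) * (σ.character b * σ.character b⁻¹) := by
    intro b
    obtain ⟨c, hc⟩ := exists_scalar σ hσ (∑ a : H, σ (a * b * a⁻¹)) (by
      intro g x
      rw [LinearMap.sum_apply, LinearMap.sum_apply, map_sum,
        ← Equiv.sum_comp (Equiv.mulLeft g)]
      refine Finset.sum_congr rfl fun a _ => ?_
      rw [← Module.End.mul_apply, ← Module.End.mul_apply, ← map_mul, ← map_mul]
      congr 2
      simp only [Equiv.coe_mulLeft]
      group)
    have h1 := congrArg (LinearMap.trace ℂ W) hc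
    rw [map_sum, map_smul, LinearMap.trace_id] at h1
    have h2 : ∀ a : H, LinearMap.trace ℂ W (σ (a * b * a⁻¹)) = σ.character b := by
      intro a
      exact char_conj σ b a
    simp_rw [h2] at h1
    rw [Finset.sum_const, Finset.card_univ, ← Nat.card_eq_fintype_card, nsmul_eq_mul,
      smul_eq_mul] at h1
    have h3 : ∑ a : H, σ.character (a * b * a⁻¹ * b⁻¹) = c * σ.character b⁻¹ := by
      have h4 := congrArg (fun T : W →ₗ[ℂ] W => LinearMap.trace ℂ W (T * σ b⁻¹)) hc
      simp only [Finset.sum_mul, map_sum, ← map_mul] at h4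
      refine Eq.trans h4 ?_
      have h5 : (c • LinearMap.id : W →ₗ[ℂ] W) * σ b⁻¹ = c • σ b⁻¹ := by
        ext x
        simp
      rw [h5, map_smul, smul_eq_mul]
      rfl
    rw [h3]
    linear_combination -(σ.character b⁻¹) * h1
  rw [Finset.sum_mul]
  simp_rw [key]
  rw [← Finset.mul_sum, sum_char_self, pow_two]

/-- an irreducible subrepresentation -/
theorem com_exists {H : Type} [Group H] {V : Type*} [AddCommGroup V] [Module ℂ V]
    [FiniteDimensional ℂ V] [Nontrivial V] (τ : Representation ℂ H V) :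
    ∃ U : Subrepresentation τ, (U.toRepresentation).IsIrreducible := by
  classical
  have hex : ∃ k : ℕ, ∃ U : Subrepresentation τ, U.toSubmodule ≠ ⊥ ∧
      Module.finrank ℂ U.toSubmodule = k := by
    refine ⟨_, ⊤, ?_, rfl⟩
    show (⊤ : Submodule ℂ V) ≠ ⊥
    exact top_ne_bot
  obtain ⟨U, hU, hk⟩ := Nat.find_spec hex
  have hmin : ∀ A : Subrepresentation τ, A.toSubmodule ≠ ⊥ → A.toSubmodule ≤ U.toSubmodule →
      A.toSubmodule = U.toSubmodule := by
    intro A hA hAU
    refine Submodule.eq_of_le_of_finrank_le hAU ?_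
    rw [hk]
    exact Nat.find_min' hex ⟨A, hA, rfl⟩
  refine ⟨U, ?_⟩
  refine { exists_pair_ne := ⟨⊥, ⊤, ?_⟩, eq_bot_or_eq_top := ?_ }
  · intro hbt
    apply hU
    have h1 := congrArg Subrepresentation.toSubmodule hbt
    change (⊥ : Submodule ℂ U.toSubmodule) = ⊤ at h1
    rw [eq_bot_iff]
    intro x hx
    have h2 : (⟨x, hx⟩ : U.toSubmodule) ∈ (⊥ : Submodule ℂ U.toSubmodule) := by
      rw [h1]; trivial
    rw [Submodule.mem_bot] at h2
    rw [Submodule.mem_bot]
    exact congrArg Subtype.val h2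
  · intro A
    let B : Subrepresentation τ :=
      { toSubmodule := A.toSubmodule.map U.toSubmodule.subtype
        apply_mem_toSubmodule := by
          rintro g _ ⟨x, hx, rfl⟩
          exact ⟨U.toRepresentation g x, A.apply_mem_toSubmodule g hx, rfl⟩ }
    by_cases hB : B.toSubmodule = ⊥
    · left
      apply Subrepresentation.toSubmodule_injective
      change A.toSubmodule = ⊥
      rw [eq_bot_iff]
      intro x hx
      have h1 : (x : V) ∈ B.toSubmodule := ⟨x, hx, rfl⟩
      rw [hB, Submodule.mem_bot] at h1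
      rw [Submodule.mem_bot]
      exact Subtype.ext h1
    · right
      have h1 := hmin B hB (by
        rintro _ ⟨x, _, rfl⟩
        exact x.2)
      apply Subrepresentation.toSubmodule_injective
      change A.toSubmodule = ⊤
      rw [eq_top_iff]
      intro x _
      have h2 : (x : V) ∈ B.toSubmodule := by rw [h1]; exact x.2
      obtain ⟨y, hy, hyx⟩ := h2
      have h3 : y = x := Subtype.ext hyx
      rw [← h3]
      exact hy

/-- the translates of a nonzero submodule which is invariant under `H` span the space -/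
theorem com_finrank {G : Type} [Group G] [Fintype G] {V : Type*} [AddCommGroup V] [Module ℂ V]
    [FiniteDimensional ℂ V] (ρ : Representation ℂ G V) (hρ : ρ.IsIrreducible) (H : Subgroup G)
    (U : Submodule ℂ V) (hU : U ≠ ⊥) (hinv : ∀ h ∈ H, ∀ x ∈ U, ρ h x ∈ U) :
    Module.finrank ℂ V ≤ H.index * Module.finrank ℂ U := by
  classical
  have hfin : Fintype (G ⧸ H) := Fintype.ofFinite _
  let f : ((G ⧸ H) → U) →ₗ[ℂ] V :=
    ∑ q : G ⧸ H, (ρ q.out ∘ₗ U.subtype) ∘ₗ LinearMap.proj q
  have hf : ∀ v : (G ⧸ H) → U, f v = ∑ q : G ⧸ H, ρ q.out (v q : V) := by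
    intro v
    simp [f, LinearMap.sum_apply]
  have hmem : ∀ (g : G) (x : V), x ∈ U → ρ g x ∈ LinearMap.range f := by
    intro g x hx
    have h1 : ((g : G ⧸ H).out)⁻¹ * g ∈ H := by
      rw [← QuotientGroup.eq]
      exact QuotientGroup.out_eq' _
    refine ⟨Pi.single (g : G ⧸ H) ⟨_, hinv _ h1 x hx⟩, ?_⟩
    rw [hf, Finset.sum_eq_single (g : G ⧸ H)]
    · rw [Pi.single_eq_same]
      show ρ (g : G ⧸ H).out (ρ (((g : G ⧸ H).out)⁻¹ * g) x) = ρ g x
      rw [← Module.End.mul_apply, ← map_mul, mul_inv_cancel_left]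
    · intro q _ hq
      rw [Pi.single_eq_of_ne hq]
      simp
    · intro h
      exact absurd (Finset.mem_univ _) h
  let R : Subrepresentation ρ :=
    { toSubmodule := LinearMap.range f
      apply_mem_toSubmodule := by
        rintro g _ ⟨v, rfl⟩
        rw [hf, map_sum]
        refine Submodule.sum_mem _ fun q _ => ?_
        rw [← Module.End.mul_apply, ← map_mul]
        exact hmem _ _ (v q).2 }
  have hR : R = ⊤ := by
    rcases hρ.eq_bot_or_eq_top R with h | h
    · exfalso
      apply hU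
      rw [eq_bot_iff]
      intro x hx
      have h1 : x ∈ R.toSubmodule := by
        have := hmem 1 x hx
        rwa [map_one] at this
      rw [h] at h1
      exact h1
    · exact h
  have htop : LinearMap.range f = ⊤ := congrArg Subrepresentation.toSubmodule hR
  calc Module.finrank ℂ V = Module.finrank ℂ (LinearMap.range f) := by rw [htop, finrank_top]
    _ ≤ Module.finrank ℂ ((G ⧸ H) → U) := LinearMap.finrank_range_le f
    _ = H.index * Module.finrank ℂ U := by
      rw [Module.finrank_pi_fintype, Finset.sum_const, Finset.card_univ, smul_eq_mul,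
        ← Nat.card_eq_fintype_card]
      rfl

theorem t_COM : S_COM := by
  intro G _ _ X H hH hX
  classical
  obtain ⟨n, ρ, hρ, rfl⟩ := hX
  have hfinH : Fintype H := Fintype.ofFinite _
  have hnt : Nontrivial (Fin n → ℂ) := by
    by_contra hc
    rw [not_nontrivial_iff_subsingleton] at hc
    obtain ⟨a, b, hab⟩ := hρ.exists_pair_ne
    apply hab
    apply Subrepresentation.toSubmodule_injective
    exact Subsingleton.elim _ _
  let τ : Representation ℂ H (Fin n → ℂ) := (ρ : G →* _).comp H.subtype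
  obtain ⟨U, hU⟩ := com_exists τ
  have hUbot : U.toSubmodule ≠ ⊥ := by
    intro h0
    obtain ⟨a, b, hab⟩ := hU.exists_pair_ne
    apply hab
    apply Subrepresentation.toSubmodule_injective
    have hs : Subsingleton U.toSubmodule := by
      rw [h0]
      infer_instance
    exact Subsingleton.elim _ _
  have hdim := com_finrank ρ hρ H U.toSubmodule hUbot (by
    intro h hh x hx
    exact U.apply_mem_toSubmodule ⟨h, hh⟩ hx)
  set m : ℕ := Module.finrank ℂ U.toSubmodule with hm
  have hm0 : 0 < m := by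
    rw [hm]
    have : Nontrivial U.toSubmodule := Submodule.nontrivial_iff_ne_bot.2 hUbot
    exact Module.finrank_pos
  have hn : Module.finrank ℂ (Fin n → ℂ) = n := by simp
  rw [hn] at hdim
  -- the operator
  let T : (Fin n → ℂ) →ₗ[ℂ] (Fin n → ℂ) := ∑ b : H, ∑ a : H, ρ ((a : G) * b * (a : G)⁻¹ * (b : G)⁻¹)
  obtain ⟨c, hc⟩ := exists_scalar ρ hρ T (by
    intro g x
    let e : H ≃ H := (MulAut.conjNormal g).toEquiv
    have he : ∀ a : H, ((e a : H) : G) = g * a * g⁻¹ := fun a => MulAut.conjNormal_apply g a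
    have h1 : T = ∑ b : H, ∑ a : H,
        ρ (g * ((a : G) * b * (a : G)⁻¹ * (b : G)⁻¹) * g⁻¹) := by
      show ∑ b : H, ∑ a : H, ρ ((a : G) * b * (a : G)⁻¹ * (b : G)⁻¹) = _
      rw [← Equiv.sum_comp e]
      refine Finset.sum_congr rfl fun b _ => ?_
      rw [← Equiv.sum_comp e]
      refine Finset.sum_congr rfl fun a _ => ?_
      rw [he, he]
      congr 1
      group
    have h2 : T * ρ g = ρ g * T := by
      rw [h1]
      show _ = ρ g * ∑ b : H, ∑ a : H, ρ (g * ((a : G) * b * (a : G)⁻¹ * (b : G)⁻¹) * g⁻¹)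
      rw [← h1]
      show _ = ρ g * ∑ b : H, ∑ a : H, ρ ((a : G) * b * (a : G)⁻¹ * (b : G)⁻¹)
      rw [h1, Finset.sum_mul, Finset.mul_sum]
      refine Finset.sum_congr rfl fun b _ => ?_
      rw [Finset.sum_mul, Finset.mul_sum]
      refine Finset.sum_congr rfl fun a _ => ?_
      rw [← map_mul, ← map_mul, inv_mul_cancel_right]
    exact congrArg (fun S : (Fin n → ℂ) →ₗ[ℂ] (Fin n → ℂ) => S x) h2)
  -- the trace on the whole space
  have hsum : ∑ᶠ p : H × H, ρ.character (wd true (p.1 : G) p.2) = c * n := by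
    rw [finsum_eq_sum_of_fintype, Fintype.sum_prod_type, Finset.sum_comm]
    have h1 := congrArg (LinearMap.trace ℂ (Fin n → ℂ)) hc
    rw [map_smul, LinearMap.trace_id, hn, smul_eq_mul] at h1
    rw [← h1]
    show _ = LinearMap.trace ℂ (Fin n → ℂ)
      (∑ b : H, ∑ a : H, ρ ((a : G) * b * (a : G)⁻¹ * (b : G)⁻¹))
    rw [map_sum]
    refine Finset.sum_congr rfl fun b _ => ?_
    rw [map_sum]
    rfl
  -- the trace on the submodule
  have hres : ∑ b : H, ∑ a : H, U.toRepresentation.character (a * b * a⁻¹ * b⁻¹) = c * m := by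
    have h1 : (∑ b : H, ∑ a : H, U.toRepresentation (a * b * a⁻¹ * b⁻¹)) =
        c • (LinearMap.id : U.toSubmodule →ₗ[ℂ] U.toSubmodule) := by
      ext x : 1
      apply Subtype.ext
      have h2 := congrArg (fun S : (Fin n → ℂ) →ₗ[ℂ] (Fin n → ℂ) => S x) hc
      have h3 : (((∑ b : H, ∑ a : H, U.toRepresentation (a * b * a⁻¹ * b⁻¹)) x :
          U.toSubmodule) : Fin n → ℂ) = T x := by
        show _ = (∑ b : H, ∑ a : H, ρ ((a : G) * b * (a : G)⁻¹ * (b : G)⁻¹)) (x : Fin n → ℂ)
        simp only [LinearMap.sum_apply, AddSubmonoidClass.coe_finsetSum]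
        rfl
      rw [h3]
      exact h2
    have h4 := congrArg (LinearMap.trace ℂ U.toSubmodule) h1
    rw [map_smul, LinearMap.trace_id, map_sum, smul_eq_mul] at h4
    rw [← h4]
    refine Finset.sum_congr rfl fun b _ => ?_
    rw [map_sum]
    rfl
  have hmain := com_sum U.toRepresentation hU
  rw [hres] at hmain
  -- the inequality
  have hX1 : ρ.character 1 = n := by
    rw [char_one, hn]
  rw [hsum, hX1, norm_mul, Complex.norm_natCast]
  have hnorm : ‖c‖ * (m : ℝ) ^ 2 = (Nat.card H : ℝ) ^ 2 := by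
    have h1 := congrArg (fun z : ℂ => ‖z‖) hmain
    rw [norm_mul, norm_mul, norm_pow, Complex.norm_natCast, Complex.norm_natCast] at h1
    rw [← h1]
    ring
  have hidx : (Nat.card H : ℝ) * H.index = Nat.card G := by
    exact_mod_cast H.card_mul_index
  have hdimR : (n : ℝ) ≤ H.index * m := by exact_mod_cast hdim
  have hm0R : (0 : ℝ) < m := by exact_mod_cast hm0
  have hcn : 0 ≤ ‖c‖ := norm_nonneg c
  calc ‖c‖ * (n : ℝ) * n = ‖c‖ * (n : ℝ) ^ 2 := by ring
    _ ≤ ‖c‖ * (H.index * m : ℝ) ^ 2 := by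
      refine mul_le_mul_of_nonneg_left ?_ hcn
      exact pow_le_pow_left₀ (by positivity) hdimR 2
    _ = (‖c‖ * (m : ℝ) ^ 2) * (H.index : ℝ) ^ 2 := by ring
    _ = (Nat.card G : ℝ) ^ 2 := by rw [hnorm, ← hidx]; ring

end FLW
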