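import Mathlib
import Pool.Agent.FLW.StW
import Pool.Agent.Lib_helper13.Central

set_option autoImplicit false

/-!
# Module CON of the project FLW

For a normal subgroup `H`, `∑_{a ∈ H} ρ (a ^ 2)` is a scalar.
-/

namespace FLW

open RSF FL0 Polynomial Pool.Agent.Lib_helper13 Representation

/-- the sum of the `ρ (a ^ 2)`, `a` in a normal subgroup, commutes with the representation -/
theorem con_comm {G V : Type*} [Group G] [AddCommGroup V] [Module ℂ V] (ρ : Representation ℂ G V)
    (H : Subgroup G) [Fintype H] (hH : H.Normal) (g : G) (x : V) :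
    (∑ a : H, ρ ((a : G) ^ 2)) (ρ g x) = ρ g ((∑ a : H, ρ ((a : G) ^ 2)) x) := by
  rw [LinearMap.sum_apply, LinearMap.sum_apply, map_sum]
  let e : H ≃ H :=
    { toFun := fun a => ⟨g * a * g⁻¹, hH.conj_mem _ a.2 g⟩
      invFun := fun a => ⟨g⁻¹ * a * g, by
        have := hH.conj_mem _ a.2 g⁻¹
        rwa [inv_inv] at this⟩
      left_inv := fun a => by
        apply Subtype.ext
        change g⁻¹ * (g * (a : G) * g⁻¹) * g = a
        group
      right_inv := fun a => by
        apply Subtype.ext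
        change g * (g⁻¹ * (a : G) * g) * g⁻¹ = a
        group }
  refine (Equiv.sum_comp e (fun a : H => ρ ((a : G) ^ 2) (ρ g x))).symm.trans ?_
  refine Finset.sum_congr rfl fun a _ => ?_
  change ρ ((g * (a : G) * g⁻¹) ^ 2) (ρ g x) = ρ g (ρ ((a : G) ^ 2) x)
  rw [← Module.End.mul_apply, ← Module.End.mul_apply, ← map_mul, ← map_mul]
  congr 2
  rw [pow_two, pow_two]
  group

/-- the sum over the pairs is the square of the sum divided by the degree -/
theorem con_sq {G : Type*} [Group G] [Fintype G] {X : G → ℂ} (H : Subgroup G) [Fintype H]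
    (hH : H.Normal) (hX : IsIrr X) :
    (∑ p : H × H, X ((p.1 : G) ^ 2 * (p.2 : G) ^ 2)) * X 1 = (∑ a : H, X ((a : G) ^ 2)) ^ 2 := by
  obtain ⟨n, ρ, hρ, rfl⟩ := hX
  obtain ⟨c, hc⟩ := exists_scalar ρ hρ (∑ a : H, ρ ((a : G) ^ 2)) (con_comm ρ H hH)
  have h1 : ρ.character 1 = n := by rw [char_one]; simp
  have h2 : ∑ a : H, ρ.character ((a : G) ^ 2) = c * n := by
    have h := congrArg (LinearMap.trace ℂ (Fin n → ℂ)) hc
    rw [map_sum, map_smul, LinearMap.trace_id, Module.finrank_fin_fun, smul_eq_mul] at h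
    exact h
  have h3 : ∑ p : H × H, ρ.character ((p.1 : G) ^ 2 * (p.2 : G) ^ 2) = c * c * n := by
    have h : ∑ p : H × H, ρ ((p.1 : G) ^ 2 * (p.2 : G) ^ 2) = (c * c) • LinearMap.id := by
      rw [Fintype.sum_prod_type]
      simp_rw [map_mul, ← Finset.mul_sum, ← Finset.sum_mul, hc]
      apply LinearMap.ext
      intro x
      simp [smul_smul]
    have h' := congrArg (LinearMap.trace ℂ (Fin n → ℂ)) h
    rw [map_sum, map_smul, LinearMap.trace_id, Module.finrank_fin_fun, smul_eq_mul] at h'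
    exact h'
  rw [h1, h2, h3]
  ring

theorem t_CON : M_CON := by
  intro hF G _ _ X H hH hX
  classical
  have h1 := (hF G X H hX.isChr).2 hX
  rw [finsum_eq_sum_of_fintype] at h1 ⊢
  have h2 : ∀ p : H × H, X (wd false (p.1 : G) p.2) = X ((p.1 : G) ^ 2 * (p.2 : G) ^ 2) :=
    fun p => by simp [wd]
  simp_rw [h2]
  rw [← norm_mul, con_sq H hH hX, norm_pow]
  exact pow_le_pow_left₀ (norm_nonneg _) h1 2

end FLW
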