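import Mathlib
import Pool.Agent.FLW.StW
import Pool.Agent.FLN.FIB

/-!
# Tuples which induce given tuples on a subspace and on the quotient (module FIB)
-/

set_option autoImplicit false

namespace FLW

open RSF FL0 Polynomial Pool.Agent.Lib_helper13

section

variable {F V U : Type} [Field F] [AddCommGroup V] [Module F V] [AddCommGroup U] [Module F U]

lemma fib_cj_sub (e : V ≃ₗ[F] U) (f g : Module.End F V) :
    FIBaux.cj e (f - g) = FIBaux.cj e f - FIBaux.cj e g := by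
  refine LinearMap.ext fun x => ?_
  show e (f (e.symm x) - g (e.symm x)) = e (f (e.symm x)) - e (g (e.symm x))
  exact map_sub e _ _

lemma fib_cj_smul (e : V ≃ₗ[F] U) (z : F) (f : Module.End F V) :
    FIBaux.cj e (z • f) = z • FIBaux.cj e f := by
  refine LinearMap.ext fun x => ?_
  show e (z • f (e.symm x)) = z • e (f (e.symm x))
  exact map_smul e _ _

/-- the relation after conjugation -/
lemma fib_wl (e : V ≃ₗ[F] U) (o : Bool) (z : F) (X a b : Module.End F V) :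
    Wl o z (FIBaux.cj e X) (FIBaux.cj e a) (FIBaux.cj e b) =
      FIBaux.cj e (Wl o z X a b : Module.End F V) := by
  cases o
  · have h1 : (Wl false z X a b : Module.End F V) = X * a ^ 2 * b ^ 2 - z • 1 := rfl
    have h2 : (Wl false z (FIBaux.cj e X) (FIBaux.cj e a) (FIBaux.cj e b) : Module.End F U) =
      FIBaux.cj e X * FIBaux.cj e a ^ 2 * FIBaux.cj e b ^ 2 - z • 1 := rfl
    rw [h1, h2, fib_cj_sub, fib_cj_smul, map_mul, map_mul, map_pow, map_pow, map_one]
  · have h1 : (Wl true z X a b : Module.End F V) = X * a * b - z • (b * a) := rfl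
    have h2 : (Wl true z (FIBaux.cj e X) (FIBaux.cj e a) (FIBaux.cj e b) : Module.End F U) =
      FIBaux.cj e X * FIBaux.cj e a * FIBaux.cj e b - z • (FIBaux.cj e b * FIBaux.cj e a) := rfl
    rw [h1, h2, fib_cj_sub, fib_cj_smul, map_mul, map_mul, map_mul]

end

open FIBaux in
theorem t_FIB : M_FIB := by
  intro hZON F V _ _ _ _ _ m hm2 hmd z hz o W a u p b v r ha hb hu hp hv hr
  have : Finite V := Module.finite_of_finite F
  have : Finite (V ⧸ W) := Module.finite_of_finite F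
  obtain ⟨e, he1, he2⟩ := exists_split W
  have hfin1 : Finite ((V ⧸ W) →ₗ[F] W) := Finite.of_injective
      (fun f : (V ⧸ W) →ₗ[F] W => (f : (V ⧸ W) → W)) DFunLike.coe_injective
  have hfin : Finite ((Fin m.length → ((V ⧸ W) →ₗ[F] W)) × ((V ⧸ W) →ₗ[F] W) ×
      ((V ⧸ W) →ₗ[F] W)) := by
    infer_instance
  refine le_trans (Nat.mul_le_mul_right _ ?_)
    (hZON F W (V ⧸ W) m hm2 hmd z hz o a u p b v r ha hb hu hp hv hr)
  -- the blocks
  let c : (V →ₗ[F] V) → ((V ⧸ W) →ₗ[F] W) := fun x =>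
    LinearMap.fst F W (V ⧸ W) ∘ₗ cj e x ∘ₗ LinearMap.inr F W (V ⧸ W)
  have hc : ∀ (x : Fin m.length → (V →ₗ[F] V)) (y y' : V →ₗ[F] V), (∃ h : In2 x y y' W,
      sb x W h.1 = a ∧ y.restrict h.2.1 = u ∧ y'.restrict h.2.2 = p ∧
      qt x W h.1 = b ∧ W.mapQ W y h.2.1 = v ∧ W.mapQ W y' h.2.2 = r) →
      (∀ j, bk (a j) (c (x j)) (b j) = cj e (x j)) ∧ bk u (c y) v = cj e y ∧
        bk p (c y') r = cj e y' := by
    rintro x y y' ⟨h, rfl, rfl, rfl, rfl, rfl, rfl⟩
    exact ⟨fun j => FLN.fib_bk W e he1 he2 (x j) (h.1 j), FLN.fib_bk W e he1 he2 y h.2.1,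
      FLN.fib_bk W e he1 he2 y' h.2.2⟩
  refine Nat.card_le_card_of_injective
    (fun x => ⟨(fun j => c (x.1.1 j), c x.1.2.1, c x.1.2.2), fun j => ?_, ?_⟩) ?_
  · have h1 : bk (a j) (c (x.1.1 j)) (b j) ^ m.get j = cj e (x.1.1 j) ^ m.get j :=
      congrArg (fun f : Module.End F (W × (V ⧸ W)) => f ^ m.get j)
        ((hc x.1.1 x.1.2.1 x.1.2.2 x.2.2).1 j)
    have h2 : (x.1.1 j : Module.End F V) ^ m.get j = 1 := x.2.1.1 j
    show bk (a j) (c (x.1.1 j)) (b j) ^ m.get j = 1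
    rw [h1, ← map_pow, h2, map_one]
  · obtain ⟨hc1, hc2, hc3⟩ := hc x.1.1 x.1.2.1 x.1.2.2 x.2.2
    have h1 : (fun j => bk (a j) (c (x.1.1 j)) (b j)) = fun j => cj e (x.1.1 j) :=
      funext fun j => hc1 j
    show Wl o z (List.ofFn fun j => bk (a j) (c (x.1.1 j)) (b j)).prod (bk u (c x.1.2.1) v)
      (bk p (c x.1.2.2) r) = 0
    rw [h1, hc2, hc3]
    have h2 : (List.ofFn fun j => cj e (x.1.1 j)) = (List.ofFn x.1.1).map (cj e) := by
      rw [List.map_ofFn]
      rfl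
    rw [h2, ← map_list_prod]
    have h3 : (Wl o z (List.ofFn x.1.1).prod x.1.2.1 x.1.2.2 : Module.End F V) = 0 :=
      x.2.1.2.2.2
    refine (fib_wl e o z (List.ofFn x.1.1).prod x.1.2.1 x.1.2.2).trans ?_
    rw [h3]
    refine LinearMap.ext fun x => ?_
    exact map_zero e
  · intro x y hxy
    have h0 := congrArg Subtype.val hxy
    have h1 : (fun j => c (x.1.1 j)) = fun j => c (y.1.1 j) := congrArg Prod.fst h0
    have h2 : c x.1.2.1 = c y.1.2.1 := congrArg (fun q => q.2.1) h0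
    have h3 : c x.1.2.2 = c y.1.2.2 := congrArg (fun q => q.2.2) h0
    obtain ⟨hx1, hx2, hx3⟩ := hc x.1.1 x.1.2.1 x.1.2.2 x.2.2
    obtain ⟨hy1, hy2, hy3⟩ := hc y.1.1 y.1.2.1 y.1.2.2 y.2.2
    refine Subtype.ext (Prod.ext (funext fun j => ?_) (Prod.ext ?_ ?_))
    · apply cj_inj e
      rw [← hx1 j, ← hy1 j, congrFun h1 j]
    · apply cj_inj e
      rw [← hx2, ← hy2, h2]
    · apply cj_inj e
      rw [← hx3, ← hy3, h3]

end FLW
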