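import Mathlib
import Pool.Agent.FLW.StW
import Pool.Agent.FL0.FII

/-!
# Module FII of project FLW: homomorphisms with reducible image

Adaptation of `Pool/Agent/FLN/FII.lean`.
-/

set_option autoImplicit false

namespace FLW

open RSF FL0 Polynomial

noncomputable section

open Matrix

theorem fii_wd {G H : Type} [Group G] [Group H] (f : G →* H) (o : Bool) (a b : G) :
    f (wd o a b) = wd o (f a) (f b) := by
  cases o <;> simp [wd]

/-- the map which is shown to be injective -/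
theorem fii_count {n : ℕ} {F : Type} [Field F] [Finite F] (hn : 1 ≤ n) (m : List ℕ)
    (hm2 : ∀ k ∈ m, 2 ≤ k) (hROT : S_ROT) (hOrd : ∀ k ∈ m, Ord n F k) (b : ℝ) (o : Bool)
    (hRED : ∀ z : F, z ≠ 0 →
      (Nat.card {t : (Fin m.length → GL (Fin n) F) × GL (Fin n) F × GL (Fin n) F //
        (∀ j, t.1 j ^ m.get j = 1) ∧
        (List.ofFn fun j => (t.1 j).1).prod * (wd o t.2.1 t.2.2).1 = Matrix.scalar (Fin n) z ∧
        ∃ W : Submodule F (Fin n → F), W ≠ ⊥ ∧ W ≠ ⊤ ∧
          (∀ j, ∀ w ∈ W, (t.1 j).1.mulVec w ∈ W) ∧ (∀ w ∈ W, t.2.1.1.mulVec w ∈ W) ∧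
          ∀ w ∈ W, t.2.2.1.mulVec w ∈ W} : ℝ) ≤ b) :
    (Nat.card {A : (Fin m.length → SL n F) × SL n F × SL n F //
      (∀ j, A.1 j ^ m.get j ∈ Subgroup.center (SL n F)) ∧
      (∃ W : Submodule F (Fin n → F), W ≠ ⊥ ∧ W ≠ ⊤ ∧ (∀ j, Pres (mk (A.1 j)) W) ∧
        Pres (mk A.2.1) W ∧ Pres (mk A.2.2) W) ∧
      (List.ofFn A.1).prod * wd o A.2.1 A.2.2 ∈ Subgroup.center (SL n F)} : ℝ) ≤
    (Nat.card (Subgroup.center (SL n F)) : ℝ) ^ m.length * (Nat.card F * b) := by
  classical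
  have : Nonempty (Fin n) := ⟨⟨0, hn⟩⟩
  -- roots of the central elements
  have hroot : ∀ (j : Fin m.length) (l : Subgroup.center (SL n F)), ∃ u : Fˣ,
      GeneralLinearGroup.scalar (Fin n) u ^ m.get j = SpecialLinearGroup.toGL l.1 := by
    intro j l
    obtain ⟨μ, hμ, hμ2⟩ := Matrix.SpecialLinearGroup.mem_center_iff.1 l.2
    rw [Fintype.card_fin] at hμ
    have hk := hm2 _ (List.get_mem m j)
    obtain ⟨c, hc, hc2⟩ := hROT F n (m.get j) hn (by omega) (hOrd _ (List.get_mem m j)) μ hμ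
    refine ⟨Units.mk0 c hc, ?_⟩
    rw [← map_pow]
    refine Units.ext ?_
    change Matrix.scalar (Fin n) ((Units.mk0 c hc) ^ m.get j : Fˣ).1 = l.1.1
    rw [← hμ2, Units.val_pow_eq_pow_val, Units.val_mk0, hc2]
  choose u hu using hroot
  -- the target
  let T : Fˣ → Type := fun z => {t : (Fin m.length → GL (Fin n) F) × GL (Fin n) F ×
        GL (Fin n) F // (∀ j, t.1 j ^ m.get j = 1) ∧
        (List.ofFn fun j => (t.1 j).1).prod * (wd o t.2.1 t.2.2).1 =
          Matrix.scalar (Fin n) z.1 ∧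
        ∃ W : Submodule F (Fin n → F), W ≠ ⊥ ∧ W ≠ ⊤ ∧
          (∀ j, ∀ w ∈ W, (t.1 j).1.mulVec w ∈ W) ∧ (∀ w ∈ W, t.2.1.1.mulVec w ∈ W) ∧
          ∀ w ∈ W, t.2.2.1.mulVec w ∈ W}
  have hfin : ∀ z, Finite (T z) := fun z => inferInstance
  have := Fintype.ofFinite Fˣ
  -- the map
  have key : ∀ A : {A : (Fin m.length → SL n F) × SL n F × SL n F //
      (∀ j, A.1 j ^ m.get j ∈ Subgroup.center (SL n F)) ∧
      (∃ W : Submodule F (Fin n → F), W ≠ ⊥ ∧ W ≠ ⊤ ∧ (∀ j, Pres (mk (A.1 j)) W) ∧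
        Pres (mk A.2.1) W ∧ Pres (mk A.2.2) W) ∧
      (List.ofFn A.1).prod * wd o A.2.1 A.2.2 ∈ Subgroup.center (SL n F)},
      ∃ w : Σ z : Fˣ, T z, (∀ j, SpecialLinearGroup.toGL (A.1.1 j) =
        GeneralLinearGroup.scalar (Fin n) (u j ⟨A.1.1 j ^ m.get j, A.2.1 j⟩) * w.2.1.1 j) ∧
        SpecialLinearGroup.toGL A.1.2.1 = w.2.1.2.1 ∧
        SpecialLinearGroup.toGL A.1.2.2 = w.2.1.2.2 := by
    rintro ⟨⟨A, B, B'⟩, hA1, ⟨W, hW1, hW2, hW3, hW4, hW5⟩, hA3⟩
    obtain ⟨ν, hν, hν2⟩ := Matrix.SpecialLinearGroup.mem_center_iff.1 hA3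
    have hν0 : ν ≠ 0 := by
      rintro rfl
      rw [Fintype.card_fin, zero_pow (by omega)] at hν
      exact zero_ne_one hν
    let v : Fin m.length → Fˣ := fun j => (u j ⟨A j ^ m.get j, hA1 j⟩)⁻¹
    let y : Fin m.length → GL (Fin n) F := fun j =>
      GeneralLinearGroup.scalar (Fin n) (v j) * SpecialLinearGroup.toGL (A j)
    have hy1 : ∀ j, y j ^ m.get j = 1 := by
      intro j
      change (GeneralLinearGroup.scalar (Fin n) (v j) * SpecialLinearGroup.toGL (A j)) ^ _ = 1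
      rw [(FL0.FII.comm_scalar (v j) (SpecialLinearGroup.toGL (A j))).mul_pow, ← map_pow
        SpecialLinearGroup.toGL]
      change (GeneralLinearGroup.scalar (Fin n) (u j ⟨A j ^ m.get j, hA1 j⟩)⁻¹) ^ m.get j *
        SpecialLinearGroup.toGL (A j ^ m.get j) = 1
      rw [map_inv, inv_pow, hu j ⟨A j ^ m.get j, hA1 j⟩, inv_mul_cancel]
    have hy2 : (List.ofFn y).prod *
        wd o (SpecialLinearGroup.toGL B) (SpecialLinearGroup.toGL B') =
        GeneralLinearGroup.scalar (Fin n) ((List.ofFn v).prod * Units.mk0 ν hν0) := by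
      have h1 := FL0.FII.prod_ofFn (GeneralLinearGroup.scalar (Fin n) (R := F))
        FL0.FII.comm_scalar m.length v (fun j => SpecialLinearGroup.toGL (A j))
      have h2 : (List.ofFn fun j => SpecialLinearGroup.toGL (A j)).prod *
          wd o (SpecialLinearGroup.toGL B) (SpecialLinearGroup.toGL B') =
          GeneralLinearGroup.scalar (Fin n) (Units.mk0 ν hν0) := by
        have h3 : (List.ofFn fun j => SpecialLinearGroup.toGL (A j)) =
            (List.ofFn A).map SpecialLinearGroup.toGL := by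
          rw [List.map_ofFn]
          rfl
        rw [h3, ← map_list_prod, ← fii_wd, ← map_mul]
        refine Units.ext ?_
        change ((List.ofFn A).prod * wd o B B').1 = Matrix.scalar (Fin n) ν
        exact hν2.symm
      rw [map_mul, ← h2, ← mul_assoc, ← h1]
    have hy3 : (List.ofFn fun j => (y j).1).prod *
        (wd o (SpecialLinearGroup.toGL B) (SpecialLinearGroup.toGL B')).1 =
        Matrix.scalar (Fin n) ((List.ofFn v).prod * Units.mk0 ν hν0 : Fˣ).1 := by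
      have h3 : (List.ofFn fun j => (y j).1) =
          (List.ofFn y).map (Units.coeHom (Matrix (Fin n) (Fin n) F)) := by
        rw [List.map_ofFn]
        rfl
      rw [h3, ← map_list_prod]
      exact congrArg Units.val hy2
    refine ⟨⟨(List.ofFn v).prod * Units.mk0 ν hν0,
      ⟨(y, SpecialLinearGroup.toGL B, SpecialLinearGroup.toGL B'), hy1, hy3, W, hW1, hW2,
        ?_, ?_, ?_⟩⟩, ?_, rfl, rfl⟩
    · intro j w hw
      have h4 : (y j).1 = Matrix.scalar (Fin n) (v j).1 * (A j).1 := rfl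
      have h5 := hW3 j (A j) rfl w hw
      change (y j).1.mulVec w ∈ W
      rw [h4, ← Matrix.mulVec_mulVec]
      have h6 : (Matrix.scalar (Fin n) (v j).1).mulVec ((A j).1.mulVec w) =
          (v j).1 • ((A j).1.mulVec w) := by
        rw [Matrix.scalar_apply, Matrix.diagonal_const_mulVec]
      rw [h6]
      exact W.smul_mem _ h5
    · intro w hw
      exact hW4 B rfl w hw
    · intro w hw
      exact hW5 B' rfl w hw
    · intro j
      change SpecialLinearGroup.toGL (A j) =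
        GeneralLinearGroup.scalar (Fin n) (u j ⟨A j ^ m.get j, hA1 j⟩) *
          (GeneralLinearGroup.scalar (Fin n) (u j ⟨A j ^ m.get j, hA1 j⟩)⁻¹ *
            SpecialLinearGroup.toGL (A j))
      rw [← mul_assoc, ← map_mul, mul_inv_cancel, map_one, one_mul]
  choose w hw using key
  have h1 : Nat.card {A : (Fin m.length → SL n F) × SL n F × SL n F //
      (∀ j, A.1 j ^ m.get j ∈ Subgroup.center (SL n F)) ∧
      (∃ W : Submodule F (Fin n → F), W ≠ ⊥ ∧ W ≠ ⊤ ∧ (∀ j, Pres (mk (A.1 j)) W) ∧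
        Pres (mk A.2.1) W ∧ Pres (mk A.2.2) W) ∧
      (List.ofFn A.1).prod * wd o A.2.1 A.2.2 ∈ Subgroup.center (SL n F)} ≤
      Nat.card ((Fin m.length → Subgroup.center (SL n F)) × Σ z : Fˣ, T z) := by
    refine Nat.card_le_card_of_injective
      (fun A => (fun j => ⟨A.1.1 j ^ m.get j, A.2.1 j⟩, w A)) ?_
    intro A B hAB
    rw [Prod.mk.injEq] at hAB
    obtain ⟨h2, h3⟩ := hAB
    refine Subtype.ext (Prod.ext (funext fun j => ?_) (Prod.ext ?_ ?_))
    · have h4 := congrFun h2 j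
      apply SpecialLinearGroup.toGL_injective
      rw [(hw A).1 j, (hw B).1 j, h3, h4]
    · apply SpecialLinearGroup.toGL_injective
      rw [(hw A).2.1, (hw B).2.1, h3]
    · apply SpecialLinearGroup.toGL_injective
      rw [(hw A).2.2, (hw B).2.2, h3]
  have h2 : (Nat.card (Σ z : Fˣ, T z) : ℝ) ≤ Nat.card F * b := by
    rw [Nat.card_sigma]
    push_cast
    have h3 : ∑ z : Fˣ, (Nat.card (T z) : ℝ) ≤ ∑ _z : Fˣ, b :=
      Finset.sum_le_sum fun z _ => hRED z.1 z.ne_zero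
    refine h3.trans ?_
    have hb : 0 ≤ b := (Nat.cast_nonneg _).trans (hRED 1 one_ne_zero)
    rw [Finset.sum_const, nsmul_eq_mul, Finset.card_univ, ← Nat.card_eq_fintype_card]
    have h4 : Nat.card Fˣ ≤ Nat.card F :=
      Nat.card_le_card_of_injective (fun z : Fˣ => z.1) Units.val_injective
    exact mul_le_mul_of_nonneg_right (by exact_mod_cast h4) hb
  rw [Nat.card_prod, Nat.card_fun, Nat.card_fin] at h1
  calc _ ≤ ((Nat.card (Subgroup.center (SL n F)) ^ m.length * Nat.card (Σ z : Fˣ, T z) : ℕ) : ℝ) :=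
        by exact_mod_cast h1
    _ = (Nat.card (Subgroup.center (SL n F)) : ℝ) ^ m.length * (Nat.card (Σ z : Fˣ, T z) : ℝ) := by
        push_cast
        rfl
    _ ≤ _ := mul_le_mul_of_nonneg_left h2 (by positivity)

/-- the condition that some proper subspace is preserved -/
def fiiE {n : ℕ} {F : Type} [Field F] {d : ℕ} (t : Fin d → PS n F) (a b : PS n F) : Prop :=
  ∃ W : Submodule F (Fin n → F), W ≠ ⊥ ∧ W ≠ ⊤ ∧ (∀ j, Pres (t j) W) ∧ Pres a W ∧ Pres b W

theorem fii_prob {Γ G : Type} [Group Γ] [Group G] (P Q : (Γ →* G) → Prop)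
    (hPQ : ∀ ρ, P ρ → Q ρ) {X : ℝ} (hX : 0 ≤ X) (hB : 0 < Nat.card (Γ →* G))
    (hA : (Nat.card {ρ : Γ →* G // Q ρ} : ℝ) ≤ X * Nat.card (Γ →* G)) :
    prob Γ G P ≤ X := by
  have hfin : Finite (Γ →* G) := Nat.finite_of_card_ne_zero hB.ne'
  have h1 : Nat.card {ρ : Γ →* G // P ρ} ≤ Nat.card {ρ : Γ →* G // Q ρ} := by
    refine Nat.card_le_card_of_injective (fun ρ => ⟨ρ.1, hPQ _ ρ.2⟩) ?_
    intro ρ τ h
    have h' : ρ.1 = τ.1 := congrArg (fun x : {ρ : Γ →* G // Q ρ} => x.1) h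
    exact Subtype.ext h'
  unfold prob
  refine div_le_of_le_mul₀ (Nat.cast_nonneg _) hX ?_
  exact le_trans (by exact_mod_cast h1) hA

theorem t_FII : M_FII := by
  intro hRED hHO hLFH hROT hLOW hPOL m hm2 hsig
  obtain ⟨C1, r1, hC1, hred⟩ := hRED m hm2 hsig
  obtain ⟨C2, r2, hC2, hlow⟩ := hLOW m hm2 hsig
  have hc : 0 < sig m / 2 := by linarith
  obtain ⟨r3, hpol⟩ := hPOL (sig m / 2) (C1 + C2 + 1) hc (by linarith)
  refine ⟨sig m / 2 / 2, max (max r1 r2) (max r3 1), by linarith, ?_⟩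
  intro n hn F _ _ hdvd hOrd
  have hn1 : r1 ≤ n := by omega
  have hn2 : r2 ≤ n := by omega
  have hn3 : r3 ≤ n := by omega
  have hn4 : 1 ≤ n := by omega
  set q : ℝ := (Nat.card F : ℝ) with hq
  have hq2 : 2 ≤ q := by
    rw [hq]
    exact_mod_cast (Finite.one_lt_card : 1 < Nat.card F)
  have hq0 : 0 < q := by linarith
  have hp := hpol n hn3 q hq2
  set b : ℝ := ((n : ℝ) + 1) ^ C1 * q ^ ((1 + sig m) * (n : ℝ) ^ 2 + C1 - sig m / 2 * n)
    with hb
  have hb0 : 0 ≤ b := by positivity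
  have hX : (0 : ℝ) ≤ q ^ (-(sig m / 2 / 2) * (n : ℝ)) := Real.rpow_nonneg hq0.le _
  have hn0 : (1 : ℝ) ≤ (n : ℝ) + 1 := by
    have : (0 : ℝ) ≤ n := Nat.cast_nonneg n
    linarith
  have main : ∀ o : Bool, (TN o (PS n F) m fiiE : ℝ) ≤
      q ^ (-(sig m / 2 / 2) * (n : ℝ)) * TN o (PS n F) m (fun _ _ _ => True) := by
    intro o
    have hl := hlow n hn2 F hdvd hOrd o
    have hcount := fii_count (F := F) hn4 m hm2 hROT hOrd b o
      (fun z hz => hred n hn1 F hdvd z hz o)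
    have hlift := hLFH n F m o fiiE
    have hg : 0 < Nat.card (Subgroup.center (SL n F)) := Nat.card_pos
    have hE : (TN o (PS n F) m fiiE : ℝ) ≤ q * b := by
      have h0 : (Nat.card (Subgroup.center (SL n F)) : ℝ) ^ (m.length + 2) *
          (TN o (PS n F) m fiiE : ℝ) ≤
          (Nat.card (Subgroup.center (SL n F)) : ℝ) ^ m.length * (q * b) := by
        refine le_trans (le_of_eq ?_) hcount
        exact_mod_cast hlift.symm
      have hg1 : (1 : ℝ) ≤ Nat.card (Subgroup.center (SL n F)) := by exact_mod_cast hg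
      have hg0 : (0 : ℝ) < (Nat.card (Subgroup.center (SL n F)) : ℝ) ^ m.length := by
        positivity
      have h1 : (Nat.card (Subgroup.center (SL n F)) : ℝ) ^ m.length *
          (TN o (PS n F) m fiiE : ℝ) ≤
          (Nat.card (Subgroup.center (SL n F)) : ℝ) ^ m.length * (q * b) := by
        refine le_trans ?_ h0
        refine mul_le_mul_of_nonneg_right ?_ (Nat.cast_nonneg _)
        exact pow_le_pow_right₀ hg1 (by omega)
      exact le_of_mul_le_mul_left h1 hg0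
    calc (TN o (PS n F) m fiiE : ℝ) ≤ q * b := hE
      _ ≤ (((n : ℝ) + 1) ^ (C1 + C2 + 1) * q ^ (C1 + C2 + 1 - sig m / 2 * (n : ℝ))) *
            q ^ ((1 + sig m) * (n : ℝ) ^ 2 - C2) := by
          rw [hb]
          have e1 : q ^ (C1 + C2 + 1 - sig m / 2 * (n : ℝ)) *
              q ^ ((1 + sig m) * (n : ℝ) ^ 2 - C2) =
              q * q ^ ((1 + sig m) * (n : ℝ) ^ 2 + C1 - sig m / 2 * n) := by
            nth_rewrite 3 [← Real.rpow_one q]
            rw [← Real.rpow_add hq0, ← Real.rpow_add hq0]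
            congr 1
            ring
          rw [mul_assoc, e1]
          have e2 : ((n : ℝ) + 1) ^ C1 ≤ ((n : ℝ) + 1) ^ (C1 + C2 + 1) :=
            Real.rpow_le_rpow_of_exponent_le hn0 (by linarith)
          have e3 : 0 ≤ q * q ^ ((1 + sig m) * (n : ℝ) ^ 2 + C1 - sig m / 2 * n) := by
            positivity
          have e4 := mul_le_mul_of_nonneg_right e2 e3
          linarith
      _ ≤ q ^ (-(sig m / 2 / 2) * (n : ℝ)) * q ^ ((1 + sig m) * (n : ℝ) ^ 2 - C2) :=
          mul_le_mul_of_nonneg_right hp (Real.rpow_nonneg hq0.le _)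
      _ ≤ _ := mul_le_mul_of_nonneg_left hl hX
  have hpos : ∀ o : Bool, 0 < TN o (PS n F) m (fun _ _ _ => True) := by
    intro o
    have h0 : (0 : ℝ) < TN o (PS n F) m (fun _ _ _ => True) :=
      lt_of_lt_of_le (Real.rpow_pos_of_pos hq0 _) (hlow n hn2 F hdvd hOrd o)
    exact_mod_cast h0
  constructor
  · have hT := (hHO (PS n F) m (fun _ _ _ => True)).1
    have hT' : Nat.card (OGroup 1 m →* PS n F) = TN true (PS n F) m (fun _ _ _ => True) := by
      rw [← hT]
      exact Nat.card_congr (Equiv.subtypeUnivEquiv fun _ => trivial).symm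
    refine fii_prob _ (fun ρ => fiiE (fun j => ρ (ox 1 m j)) (ρ (oa m)) (ρ (ob m))) ?_ hX
      (by rw [hT']; exact hpos true) ?_
    · intro ρ h
      unfold Irr at h
      push Not at h
      obtain ⟨W, h1, h2, h3⟩ := h
      exact ⟨W, h2, h3, fun j => h1 _ ⟨_, rfl⟩, h1 _ ⟨_, rfl⟩, h1 _ ⟨_, rfl⟩⟩
    · rw [hT', (hHO (PS n F) m fiiE).1]
      exact main true
  · have hT := (hHO (PS n F) m (fun _ _ _ => True)).2
    have hT' : Nat.card (NGroup 2 m →* PS n F) = TN false (PS n F) m (fun _ _ _ => True) := by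
      rw [← hT]
      exact Nat.card_congr (Equiv.subtypeUnivEquiv fun _ => trivial).symm
    refine fii_prob _ (fun ρ => fiiE (fun j => ρ (nx 2 m j)) (ρ (na m 0)) (ρ (na m 1))) ?_ hX
      (by rw [hT']; exact hpos false) ?_
    · intro ρ h
      unfold Irr at h
      push Not at h
      obtain ⟨W, h1, h2, h3⟩ := h
      exact ⟨W, h2, h3, fun j => h1 _ ⟨_, rfl⟩, h1 _ ⟨_, rfl⟩, h1 _ ⟨_, rfl⟩⟩
    · rw [hT', (hHO (PS n F) m fiiE).2]
      exact main false

end

end FLW
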