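import Mathlib
import Pool.Agent.FLW.StW
import Pool.Agent.FLN.FRO

set_option autoImplicit false

/-!
# FLW, FRO: the number of tuples in given classes and the word `wd o a b`
-/

namespace FLW

open Pool.Agent.Lib_helper13 RSF FL0

noncomputable section

theorem fro_map_wd {G H : Type} [Group G] [Group H] (f : G →* H) (o : Bool) (a b : G) :
    f (wd o a b) = wd o (f a) (f b) := by
  unfold wd
  cases o <;> simp

/-- Frobenius' formula, summed over the last factor -/
theorem fro_count (hFRB : FLC.S_FRB) {G : Type} [Group G] [Fintype G] {d : ℕ} (y : Fin d → G)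
    {B : Type} [Fintype B] (β : B → G) (Z : G) :
    (Nat.card {t : (Fin d → G) × B // (∀ j, IsConj (y j) (t.1 j)) ∧
        (List.ofFn t.1).prod * β t.2 = Z} : ℂ) * Nat.card G =
      (∏ j, (Nat.card {t : G // IsConj (y j) t} : ℂ)) *
        ∑ X ∈ irrF G, (∏ j, X (y j) / X 1) * (∑ b : B, X (β b * Z⁻¹)) * X 1 := by
  classical
  let e : {t : (Fin d → G) × B // (∀ j, IsConj (y j) (t.1 j)) ∧
        (List.ofFn t.1).prod * β t.2 = Z} ≃
      Σ b : B, {t : Fin d → G // (∀ j, IsConj (y j) (t j)) ∧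
        (List.ofFn t).prod = Z * (β b)⁻¹} :=
    { toFun := fun t => ⟨t.1.2, t.1.1, t.2.1, eq_mul_inv_of_mul_eq t.2.2⟩
      invFun := fun s => ⟨(s.2.1, s.1), s.2.2.1, by
        change (List.ofFn s.2.1).prod * β s.1 = Z
        rw [s.2.2.2, inv_mul_cancel_right]⟩
      left_inv := fun t => rfl
      right_inv := fun s => rfl }
  rw [Nat.card_congr e, Nat.card_sigma, Nat.cast_sum, Finset.sum_mul]
  have h1 : ∀ b : B, (Nat.card {t : Fin d → G // (∀ j, IsConj (y j) (t j)) ∧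
        (List.ofFn t).prod = Z * (β b)⁻¹} : ℂ) * Nat.card G =
      (∏ j, (Nat.card {t : G // IsConj (y j) t} : ℂ)) *
        ∑ X ∈ irrF G, (∏ j, X (y j) / X 1) * X (β b * Z⁻¹) * X 1 := by
    intro b
    rw [hFRB G d y (Z * (β b)⁻¹)]
    congr 1
    refine Finset.sum_congr rfl fun X _ => ?_
    rw [mul_inv_rev, inv_inv]
  rw [Finset.sum_congr rfl fun b _ => h1 b, ← Finset.mul_sum, Finset.sum_comm]
  congr 1
  refine Finset.sum_congr rfl fun X _ => ?_
  rw [← Finset.sum_mul, ← Finset.mul_sum]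

/-- the norm of the sum of the values, twisted by a central element -/
theorem fro_twist {Y : Type} [Group Y] [Fintype Y] {X : Y → ℂ} (h : IsIrr X) (z : Y)
    (hz : ∀ g, z * g = g * z) {B : Type} [Fintype B] (β : B → Y) :
    ‖∑ b : B, X (β b * z)‖ = ‖∑ b : B, X (β b)‖ := by
  obtain ⟨c, h1, h2⟩ := FLN.fro_scal h z hz
  rw [Finset.sum_congr rfl fun b _ => h2 (β b), ← Finset.mul_sum, norm_mul, h1, one_mul]

/-- the part of the nonlinear characters -/
theorem fro_B (hMN : FLC.S_MN) {n : ℕ} {F : Type} [Field F] [Fintype F] [DecidableEq F]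
    (m : List ℕ) (ε : ℝ) (y : Fin m.length → GL (Fin n) F)
    (hy : ∀ X : GL (Fin n) F → ℂ, IsIrr X → X 1 ≠ 1 → ∀ j, ‖X (y j)‖ ≤
      (Nat.card F : ℝ) ^ (FLC.dl (m.get j) (y j : Matrix (Fin n) (Fin n) F) / 2) *
      (X 1).re ^ (1 / ((m.get j : ℕ) : ℝ) + ε)) (Z : GL (Fin n) F) (hz : ∀ g, Z * g = g * Z)
    {B : Type} [Fintype B] (β : B → GL (Fin n) F)
    (hβ : ∀ X : GL (Fin n) F → ℂ, IsIrr X → ‖∑ b : B, X (β b)‖ * ‖X 1‖ ≤
      (Nat.card (GL (Fin n) F) : ℝ) ^ 2)
    (E M : ℝ) (hE : E = (∑ j, FLC.dl (m.get j) (y j : Matrix (Fin n) (Fin n) F)) / 2)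
    (hM : ∑ X ∈ (irrF (GL (Fin n) F)).filter (fun X => X 1 ≠ 1),
      (X 1).re ^ (-(sig m - m.length * ε)) ≤ M) :
    ‖∑ X ∈ (irrF (GL (Fin n) F)).filter (fun X => X 1 ≠ 1),
      (∏ j, X (y j) / X 1) * (∑ b : B, X (β b * Z)) * X 1‖ ≤
      (Nat.card (GL (Fin n) F) : ℝ) ^ 2 * ((Nat.card F : ℝ) ^ E * M) := by
  have hq0 : (0 : ℝ) < Nat.card F := by exact_mod_cast Nat.card_pos
  refine (norm_sum_le _ _).trans ?_
  have h1 : ∀ X ∈ (irrF (GL (Fin n) F)).filter (fun X => X 1 ≠ 1),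
      ‖(∏ j, X (y j) / X 1) * (∑ b : B, X (β b * Z)) * X 1‖ ≤
      ((Nat.card (GL (Fin n) F) : ℝ) ^ 2 * (Nat.card F : ℝ) ^ E) *
        (X 1).re ^ (-(sig m - m.length * ε)) := by
    intro X hX
    rw [Finset.mem_filter] at hX
    have hXi := mem_irrF.1 hX.1
    obtain ⟨hD1, hDn⟩ := FLC.fro_deg hMN hXi
    have hD0 : 0 < (X 1).re := lt_of_lt_of_le one_pos hD1
    have ht := FLC.fro_term hMN m ε hXi y (hy X hXi hX.2) 1 (fun g => by rw [one_mul, mul_one])
    rw [norm_mul, norm_mul, hDn, ← hE] at ht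
    have h7 : (X 1).re ^ (-(sig m - m.length * ε - 2)) =
        (X 1).re ^ (-(sig m - m.length * ε)) * (X 1).re * (X 1).re := by
      rw [← Real.rpow_add_one hD0.ne', ← Real.rpow_add_one hD0.ne']
      congr 1
      ring
    rw [h7, ← mul_assoc, ← mul_assoc] at ht
    have ht2 := le_of_mul_le_mul_right (le_of_mul_le_mul_right ht hD0) hD0
    rw [norm_mul, norm_mul, fro_twist hXi Z hz, hDn]
    have hb := hβ X hXi
    rw [hDn] at hb
    calc ‖∏ j, X (y j) / X 1‖ * ‖∑ b : B, X (β b)‖ * (X 1).re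
        = (‖∑ b : B, X (β b)‖ * (X 1).re) * ‖∏ j, X (y j) / X 1‖ := by ring
      _ ≤ (Nat.card (GL (Fin n) F) : ℝ) ^ 2 * ((Nat.card F : ℝ) ^ E *
          (X 1).re ^ (-(sig m - m.length * ε))) :=
          mul_le_mul hb ht2 (norm_nonneg _) (by positivity)
      _ = _ := by ring
  refine (Finset.sum_le_sum h1).trans ?_
  rw [← Finset.mul_sum, ← mul_assoc]
  exact mul_le_mul_of_nonneg_left hM
    (mul_nonneg (by positivity) (Real.rpow_nonneg hq0.le _))

/-- the sums over pairs in a normal subgroup -/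
theorem fro_pair (hCOM : S_COM) (hCON : S_CON) (o : Bool) {G : Type} [Group G] [Fintype G]
    (H : Subgroup G) (hH : H.Normal) (B : Type) [Fintype B] (e : B ≃ H) (X : G → ℂ)
    (hX : IsIrr X) :
    ‖∑ p : B × B, X (wd o (e p.1 : G) (e p.2))‖ * ‖X 1‖ ≤ (Nat.card G : ℝ) ^ 2 := by
  classical
  have h2 : ∑ᶠ p : H × H, X (wd o (p.1 : G) p.2) =
      ∑ p : B × B, X (wd o (e p.1 : G) (e p.2)) := by
    rw [finsum_eq_sum_of_fintype]
    exact (Fintype.sum_equiv (e.prodCongr e) _ _ fun p => rfl).symm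
  cases o
  · have h1 := hCON G X H hH hX
    rwa [h2] at h1
  · have h1 := hCOM G X H hH hX
    rwa [h2] at h1

theorem t_FRO : M_FRO := by
  classical
  intro hMN hFRB hFL hZET hLIN hCOM hCON m hm hsig
  have hlen : 0 < m.length := by
    rcases Nat.eq_zero_or_pos m.length with h | h
    · have h1 : m = [] := List.eq_nil_of_length_eq_zero h
      rw [h1] at hsig
      norm_num [sig] at hsig
    · exact h
  have hlenR : (0 : ℝ) < m.length := by exact_mod_cast hlen
  obtain ⟨ε, hε⟩ : ∃ ε : ℝ, ε = sig m / (2 * m.length) := ⟨_, rfl⟩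
  have hε0 : 0 < ε := by
    rw [hε]
    exact div_pos (by linarith) (by linarith)
  have hlε : m.length * ε = sig m / 2 := by
    rw [hε]
    field_simp
  have hs0 : 0 < sig m - m.length * ε := by
    rw [hlε]
    linarith
  obtain ⟨r1, hr1⟩ := hFL ε hε0
  obtain ⟨c, r2, hc, hr2⟩ := hZET _ hs0
  obtain ⟨r3, hr3⟩ := exists_nat_ge (4 / c)
  refine ⟨c / 2, r1 + r2 + r3 + 5, by linarith, ?_⟩
  intro n hn F _ _ hdiv z hz o y hy
  have : Fintype F := Fintype.ofFinite F
  have hq1 : 1 < Nat.card F := Finite.one_lt_card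
  have hqR : (1 : ℝ) < Nat.card F := by exact_mod_cast hq1
  have hq0 : (0 : ℝ) < Nat.card F := by linarith
  have hn3 : 4 / c ≤ (n : ℝ) := hr3.trans (by exact_mod_cast (by omega : r3 ≤ n))
  obtain ⟨Z, hZ⟩ : ∃ Z : GL (Fin n) F,
      Z = Matrix.GeneralLinearGroup.scalar (Fin n) (Units.mk0 z hz) := ⟨_, rfl⟩
  have hZv : (Z : Matrix (Fin n) (Fin n) F) = Matrix.scalar (Fin n) z := by
    rw [hZ]
    rfl
  have hZc : ∀ g, Z⁻¹ * g = g * Z⁻¹ := by
    intro g
    have h1 : Z * g = g * Z := by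
      rw [hZ]
      exact Matrix.GeneralLinearGroup.scalar_commute _ g
    exact (Commute.inv_left (show Commute Z g from h1))
  have hZdet : Matrix.GeneralLinearGroup.det Z = (Units.mk0 z hz) ^ n := by
    rw [hZ, Matrix.GeneralLinearGroup.det_scalar, Fintype.card_fin]
  obtain ⟨P, hP⟩ : ∃ P : ℝ, P = ∏ j, (Nat.card {t : GL (Fin n) F // IsConj (y j) t} : ℝ) :=
    ⟨_, rfl⟩
  have hP0 : 0 ≤ P := by
    rw [hP]
    exact Finset.prod_nonneg fun j _ => Nat.cast_nonneg _
  have hPc : (∏ j, (Nat.card {t : GL (Fin n) F // IsConj (y j) t} : ℂ)) = (P : ℂ) := by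
    rw [hP]
    push_cast
    rfl
  obtain ⟨E, hE⟩ : ∃ E : ℝ, E = (∑ j, FLC.dl (m.get j) (y j : Matrix (Fin n) (Fin n) F)) / 2 :=
    ⟨_, rfl⟩
  have hE' : (∑ j, del (m.get j) (y j).1) / 2 = E := by
    rw [hE]
    congr 1
    exact Finset.sum_congr rfl fun j _ => FLC.conv_dl _ _
  rw [hE', ← hP]
  obtain ⟨Gn, hGn⟩ : ∃ Gn : ℕ, Gn = Nat.card (GL (Fin n) F) := ⟨_, rfl⟩
  have hG0 : (0 : ℝ) < Gn := by
    rw [hGn]
    exact_mod_cast Nat.card_pos
  -- the bound of the nonlinear part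
  have hBB : ∀ (B : Type) [Fintype B] (β : B → GL (Fin n) F),
      (∀ X : GL (Fin n) F → ℂ, IsIrr X → ‖∑ b : B, X (β b)‖ * ‖X 1‖ ≤
        (Nat.card (GL (Fin n) F) : ℝ) ^ 2) →
      ‖∑ X ∈ (irrF (GL (Fin n) F)).filter (fun X => X 1 ≠ 1),
        (∏ j, X (y j) / X 1) * (∑ b : B, X (β b * Z⁻¹)) * X 1‖ ≤
      (Gn : ℝ) ^ 2 * (((Nat.card F : ℝ) - 1) * (Nat.card F : ℝ) ^ (E - c * n)) := by
    intro B _ β hβ
    have h1 := fro_B hMN m ε y (fun X hX hX1 j => by
      have h2 : m.get j ∈ m := m.get_mem j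
      exact hr1 n (by omega) F X hX hX1 (m.get j) (y j) (by have := hm _ h2; omega)
        (hdiv _ h2) (hy j)) Z⁻¹ hZc β hβ E _ hE (hr2 n (by omega) F)
    refine h1.trans (le_of_eq ?_)
    have e : (Nat.card F : ℝ) ^ (E - c * n) =
        (Nat.card F : ℝ) ^ E * (Nat.card F : ℝ) ^ (-(c * n)) := by
      rw [← Real.rpow_add hq0]
      congr 1
    rw [← hGn, e]
    ring
  have hsplit : ∀ (f : (GL (Fin n) F → ℂ) → ℂ), ∑ X ∈ irrF (GL (Fin n) F), f X =
      ∑ X ∈ (irrF (GL (Fin n) F)).filter (fun X => X 1 = 1), f X +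
      ∑ X ∈ (irrF (GL (Fin n) F)).filter (fun X => X 1 ≠ 1), f X := fun f =>
    (Finset.sum_filter_add_sum_filter_not (irrF (GL (Fin n) F)) (fun X => X 1 = 1) f).symm
  constructor
  · -- the special linear group
    intro hdet
    have hdet' : ∏ j, Matrix.GeneralLinearGroup.det (y j) = (Units.mk0 z hz) ^ n := by
      apply Units.ext
      rw [Units.coe_prod, Units.val_pow_eq_pow_val, Units.val_mk0, ← hdet]
      rfl
    obtain ⟨N, hN⟩ : ∃ N : ℕ, N = Nat.card {t : (Fin m.length → GL (Fin n) F) ×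
        SL n F × SL n F // (∀ j, IsConj (y j) (t.1 j)) ∧
        (List.ofFn fun j => (t.1 j).1).prod * (wd o t.2.1 t.2.2).1 =
          Matrix.scalar (Fin n) z} := ⟨_, rfl⟩
    have : Fintype (SL n F) := Fintype.ofFinite _
    let τ : SL n F →* GL (Fin n) F :=
      { toFun := fun A => (FLN.fro_sl n F A : GL (Fin n) F)
        map_one' := Units.ext rfl
        map_mul' := fun A B => Units.ext rfl }
    have hτ : ∀ A : SL n F, (τ A).1 = A.1 := fun A => rfl
    have hN' : N = Nat.card {t : (Fin m.length → GL (Fin n) F) × SL n F × SL n F //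
        (∀ j, IsConj (y j) (t.1 j)) ∧
        (List.ofFn t.1).prod * (fun p : SL n F × SL n F => wd o (τ p.1) (τ p.2)) t.2 = Z} := by
      rw [hN]
      refine Nat.card_congr (Equiv.subtypeEquivRight fun t => and_congr_right fun _ => ?_)
      rw [← FLC.conv_prod, ← hZv, ← hτ (wd o t.2.1 t.2.2), fro_map_wd]
      constructor
      · intro h
        exact Units.ext h
      · intro h
        exact congrArg Units.val h
    have hfrb := fro_count hFRB y (fun p : SL n F × SL n F => wd o (τ p.1) (τ p.2)) Z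
    rw [← hN', hPc, ← hGn, hsplit] at hfrb
    have hcardSL : Gn = (Nat.card F - 1) * Nat.card (SL n F) := by
      rw [hGn]
      exact FLC.fro_card n (by omega)
    have hSLR : (Gn : ℝ) = ((Nat.card F : ℝ) - 1) * Nat.card (SL n F) := by
      rw [hcardSL]
      push_cast [Nat.cast_sub hq1.le]
      rfl
    have hdetw : ∀ p : SL n F × SL n F,
        Matrix.GeneralLinearGroup.det (wd o (τ p.1) (τ p.2)) = 1 := by
      intro p
      rw [← fro_map_wd]
      exact MonoidHom.mem_ker.1 (FLN.fro_sl n F (wd o p.1 p.2)).2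
    have hA : ∑ X ∈ (irrF (GL (Fin n) F)).filter (fun X => X 1 = 1),
        (∏ j, X (y j) / X 1) *
          (∑ p : SL n F × SL n F, X (wd o (τ p.1) (τ p.2) * Z⁻¹)) * X 1
        = (Gn : ℂ) * Nat.card (SL n F) := by
      have h0 := hLIN n (by omega) F (fun X => (∏ j, X (y j) / X 1) *
        (∑ p : SL n F × SL n F, X (wd o (τ p.1) (τ p.2) * Z⁻¹)) * X 1)
        ((Nat.card (SL n F) : ℂ) * Nat.card (SL n F)) (fun l => by
          have h1 : FLC.ld l (1 : GL (Fin n) F) = 1 := by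
            simp [FLC.ld]
          have h2 : (∏ j, FLC.ld l (y j)) = ((l ((Units.mk0 z hz) ^ n) : ℂˣ) : ℂ) := by
            rw [← hdet', map_prod, Units.coe_prod]
            rfl
          have h3 : ∀ p : SL n F × SL n F, FLC.ld l (wd o (τ p.1) (τ p.2) * Z⁻¹) =
              (((l ((Units.mk0 z hz) ^ n))⁻¹ : ℂˣ) : ℂ) := by
            intro p
            simp only [FLC.ld]
            rw [map_mul, hdetw p, one_mul, map_inv, hZdet, map_inv]
          show (∏ j, FLC.ld l (y j) / FLC.ld l 1) * (∑ p : SL n F × SL n F,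
            FLC.ld l (wd o (τ p.1) (τ p.2) * Z⁻¹)) * FLC.ld l 1 = _
          rw [h1, Finset.sum_congr rfl fun p _ => h3 p, Finset.sum_const, Finset.card_univ,
            nsmul_eq_mul, Fintype.card_prod, Nat.card_eq_fintype_card]
          simp only [div_one, mul_one]
          rw [h2, mul_left_comm, ← Units.val_mul, mul_inv_cancel, Units.val_one, mul_one]
          push_cast
          rfl)
      rw [h0, hcardSL]
      push_cast [Nat.cast_sub hq1.le]
      ring
    obtain ⟨B, hB⟩ : ∃ B : ℂ, B = ∑ X ∈ (irrF (GL (Fin n) F)).filter (fun X => X 1 ≠ 1),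
        (∏ j, X (y j) / X 1) *
          (∑ p : SL n F × SL n F, X (wd o (τ p.1) (τ p.2) * Z⁻¹)) * X 1 := ⟨_, rfl⟩
    have hBn := hBB (SL n F × SL n F) (fun p => wd o (τ p.1) (τ p.2))
      (fun X hX => fro_pair hCOM hCON o _ (MonoidHom.normal_ker _) (SL n F) (FLN.fro_sl n F) X hX)
    rw [← hB] at hBn
    rw [hA, ← hB] at hfrb
    rw [← hN]
    obtain ⟨S, hS⟩ : ∃ S : ℕ, S = Nat.card (SL n F) := ⟨_, rfl⟩
    rw [← hS] at hfrb hSLR ⊢
    have hS0 : (0 : ℝ) ≤ S := Nat.cast_nonneg _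
    have hkey : ((Gn : ℝ) : ℂ) * (((N : ℝ) - P * S : ℝ) : ℂ) = (P : ℂ) * B := by
      push_cast
      linear_combination hfrb
    have hnorm := congrArg norm hkey
    rw [norm_mul, norm_mul, Complex.norm_real, Complex.norm_real, Complex.norm_real,
      Real.norm_of_nonneg hG0.le, Real.norm_of_nonneg hP0, Real.norm_eq_abs] at hnorm
    have hqq : ((Nat.card F : ℝ) - 1) * ((Nat.card F : ℝ) - 1) * (Nat.card F : ℝ) ^ (E - c * n) ≤
        (Nat.card F : ℝ) ^ (E - c / 2 * n) := by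
      have h1 : ((Nat.card F : ℝ) - 1) * ((Nat.card F : ℝ) - 1) ≤ (Nat.card F : ℝ) ^ (2 : ℝ) := by
        rw [Real.rpow_two]
        nlinarith
      refine (mul_le_mul_of_nonneg_right h1 (Real.rpow_nonneg hq0.le _)).trans ?_
      rw [← Real.rpow_add hq0]
      refine Real.rpow_le_rpow_of_exponent_le hqR.le ?_
      have h2 : 4 ≤ n * c := (div_le_iff₀ hc).1 hn3
      nlinarith
    have h1 : (Gn : ℝ) * |(N : ℝ) - P * S| ≤
        Gn * (P * S * (Nat.card F : ℝ) ^ (E - c / 2 * n)) := by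
      rw [hnorm]
      calc P * ‖B‖ ≤ P * ((Gn : ℝ) ^ 2 *
            (((Nat.card F : ℝ) - 1) * (Nat.card F : ℝ) ^ (E - c * n))) :=
            mul_le_mul_of_nonneg_left hBn hP0
        _ = Gn * (P * S * (((Nat.card F : ℝ) - 1) * ((Nat.card F : ℝ) - 1) *
            (Nat.card F : ℝ) ^ (E - c * n))) := by
            rw [hSLR]; ring
        _ ≤ _ := by
            refine mul_le_mul_of_nonneg_left ?_ hG0.le
            exact mul_le_mul_of_nonneg_left hqq (mul_nonneg hP0 hS0)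
    exact le_of_mul_le_mul_left h1 hG0
  · -- the general linear group
    obtain ⟨N, hN⟩ : ∃ N : ℕ, N = Nat.card {t : (Fin m.length → GL (Fin n) F) ×
        GL (Fin n) F × GL (Fin n) F // (∀ j, IsConj (y j) (t.1 j)) ∧
        (List.ofFn fun j => (t.1 j).1).prod * (wd o t.2.1 t.2.2).1 =
          Matrix.scalar (Fin n) z} := ⟨_, rfl⟩
    have hN' : N = Nat.card {t : (Fin m.length → GL (Fin n) F) × GL (Fin n) F × GL (Fin n) F //
        (∀ j, IsConj (y j) (t.1 j)) ∧ (List.ofFn t.1).prod *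
          (fun p : GL (Fin n) F × GL (Fin n) F => wd o p.1 p.2) t.2 = Z} := by
      rw [hN]
      refine Nat.card_congr (Equiv.subtypeEquivRight fun t => and_congr_right fun _ => ?_)
      rw [← FLC.conv_prod, ← hZv]
      constructor
      · intro h
        exact Units.ext h
      · intro h
        exact congrArg Units.val h
    have hfrb := fro_count hFRB y (fun p : GL (Fin n) F × GL (Fin n) F => wd o p.1 p.2) Z
    rw [← hN', hPc, ← hGn, hsplit] at hfrb
    have hBn := hBB (GL (Fin n) F × GL (Fin n) F) (fun p => wd o p.1 p.2)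
      (fun X hX => fro_pair hCOM hCON o ⊤ inferInstance (GL (Fin n) F)
        Subgroup.topEquiv.symm.toEquiv X hX)
    obtain ⟨B, hB⟩ : ∃ B : ℂ, B = ∑ X ∈ (irrF (GL (Fin n) F)).filter (fun X => X 1 ≠ 1),
        (∏ j, X (y j) / X 1) *
          (∑ p : GL (Fin n) F × GL (Fin n) F, X (wd o p.1 p.2 * Z⁻¹)) * X 1 := ⟨_, rfl⟩
    obtain ⟨A, hA⟩ : ∃ A : ℂ, A = ∑ X ∈ (irrF (GL (Fin n) F)).filter (fun X => X 1 = 1),
        (∏ j, X (y j) / X 1) *
          (∑ p : GL (Fin n) F × GL (Fin n) F, X (wd o p.1 p.2 * Z⁻¹)) * X 1 := ⟨_, rfl⟩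
    rw [← hB] at hBn
    rw [← hB, ← hA] at hfrb
    have hcard : (((irrF (GL (Fin n) F)).filter (fun X => X 1 = 1)).card : ℝ) =
        (Nat.card F : ℝ) - 1 := by
      have h0 := hLIN n (by omega) F (fun _ => (1 : ℂ)) 1 (fun _ => rfl)
      rw [Finset.sum_const, nsmul_eq_mul, mul_one, mul_one] at h0
      have h1 := congrArg Complex.re h0
      simpa using h1
    have hAn : ‖A‖ ≤ ((Nat.card F : ℝ) - 1) * (Gn : ℝ) ^ 2 := by
      rw [hA]
      refine (norm_sum_le _ _).trans ?_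
      refine (Finset.sum_le_card_nsmul _ _ ((Gn : ℝ) ^ 2) (fun X hX => ?_)).trans ?_
      · obtain ⟨h0, h2⟩ := Finset.mem_filter.1 hX
        have h1 := mem_irrF.1 h0
        have h3 := (hMN _ X h1.isChr).2.2.1
        have h5 : ∀ g, ‖X g‖ ≤ 1 := fun g => by
          have := h3 g
          rwa [h2, norm_one] at this
        rw [norm_mul, norm_mul, norm_prod, h2, norm_one, mul_one]
        have h4 : ∏ j, ‖X (y j) / 1‖ ≤ 1 := by
          refine Finset.prod_le_one (fun j _ => norm_nonneg _) fun j _ => ?_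
          rw [div_one]
          exact h5 _
        have h6 : ‖∑ p : GL (Fin n) F × GL (Fin n) F, X (wd o p.1 p.2 * Z⁻¹)‖ ≤
            (Gn : ℝ) ^ 2 := by
          refine (norm_sum_le _ _).trans ?_
          refine (Finset.sum_le_card_nsmul _ _ (1 : ℝ) (fun p _ => h5 _)).trans (le_of_eq ?_)
          rw [nsmul_eq_mul, mul_one, Finset.card_univ, Fintype.card_prod, hGn,
            Nat.card_eq_fintype_card]
          push_cast
          ring
        calc (∏ j, ‖X (y j) / 1‖) *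
              ‖∑ p : GL (Fin n) F × GL (Fin n) F, X (wd o p.1 p.2 * Z⁻¹)‖ ≤ 1 * (Gn : ℝ) ^ 2 :=
              mul_le_mul h4 h6 (norm_nonneg _) zero_le_one
          _ = (Gn : ℝ) ^ 2 := one_mul _
      · rw [nsmul_eq_mul, hcard]
    rw [← hN, ← hGn]
    have hnorm := congrArg norm hfrb
    rw [norm_mul, norm_mul, Complex.norm_natCast, Complex.norm_natCast, Complex.norm_real,
      Real.norm_of_nonneg hP0] at hnorm
    have hexp : (Nat.card F : ℝ) ^ (E - c * n) ≤ (Nat.card F : ℝ) ^ (E - c / 2 * n) := by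
      refine Real.rpow_le_rpow_of_exponent_le hqR.le ?_
      have h2 : (0 : ℝ) ≤ n := Nat.cast_nonneg _
      nlinarith
    have hx0 : 0 ≤ (Nat.card F : ℝ) ^ (E - c / 2 * n) := Real.rpow_nonneg hq0.le _
    have h1 : (N : ℝ) * Gn ≤
        (P * Gn * (Nat.card F * (1 + (Nat.card F : ℝ) ^ (E - c / 2 * n)))) * Gn := by
      rw [hnorm]
      calc P * ‖A + B‖ ≤ P * (((Nat.card F : ℝ) - 1) * (Gn : ℝ) ^ 2 +
            (Gn : ℝ) ^ 2 * (((Nat.card F : ℝ) - 1) * (Nat.card F : ℝ) ^ (E - c * n))) :=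
            mul_le_mul_of_nonneg_left ((norm_add_le _ _).trans (add_le_add hAn hBn)) hP0
        _ = P * Gn * (((Nat.card F : ℝ) - 1) * (1 + (Nat.card F : ℝ) ^ (E - c * n))) * Gn := by
            ring
        _ ≤ (P * Gn * (Nat.card F * (1 + (Nat.card F : ℝ) ^ (E - c / 2 * n)))) * Gn := by
            refine mul_le_mul_of_nonneg_right ?_ hG0.le
            refine mul_le_mul_of_nonneg_left ?_ (mul_nonneg hP0 hG0.le)
            exact mul_le_mul (by linarith) (by linarith)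
              (by have := Real.rpow_nonneg hq0.le (E - c * n); linarith) hq0.le
    exact le_of_mul_le_mul_right h1 hG0

end

end FLW
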