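import Pool.Agent.FLW.StW
import Pool.Agent.FLN.HNF

/-!
# FLW_HNF: a subspace of maximal slope
-/

set_option autoImplicit false

namespace FLW

open RSF FL0 Polynomial

theorem hnf_sg {F : Type} [Field F] (o : Bool) : sg F o * sg F o = 1 := by
  unfold sg
  cases o <;> simp

theorem t_HNF : M_HNF := by
  classical
  intro _ F V _ _ _ _ _ d o x a b j k hk1 hk hx _ _ ζ W₁ h₁ hlt
  -- `ζ` is a root of unity
  have hdim : ∀ (U : Submodule F V) (h : Inv x U), ev (sb x U h j) ζ =
      Module.finrank F (U ⊓ LinearMap.ker (x j - ζ • LinearMap.id) : Submodule F V) := by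
    intro U h
    have h1 : (LinearMap.ker (sb x U h j - ζ • LinearMap.id)).map U.subtype =
        U ⊓ LinearMap.ker (x j - ζ • LinearMap.id) := by
      ext v
      constructor
      · rintro ⟨u, hu, rfl⟩
        refine ⟨u.2, ?_⟩
        have h2 : sb x U h j u - ζ • u = 0 := hu
        have h3 : x j (u : V) - ζ • (u : V) = 0 := congrArg Subtype.val h2
        exact h3
      · rintro ⟨hv, hv'⟩
        have h3 : x j v - ζ • v = 0 := hv'
        refine ⟨⟨v, hv⟩, ?_, rfl⟩
        have h2 : sb x U h j ⟨v, hv⟩ - ζ • (⟨v, hv⟩ : U) = 0 := Subtype.ext h3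
        exact h2
    rw [← h1]
    exact (Submodule.finrank_map_subtype_eq U _).symm
  have hev : ev (x j) ζ = Module.finrank F (LinearMap.ker (x j - ζ • LinearMap.id)) := rfl
  have hζ : ζ ^ k = 1 := by
    by_contra hne
    have h0 : LinearMap.ker (x j - ζ • LinearMap.id) = ⊥ := by
      rw [Submodule.eq_bot_iff]
      intro v hv
      have h3 : x j v - ζ • v = 0 := hv
      have h4 := FLN.hnf_fix (x j) ζ (X ^ k - 1) v (sub_eq_zero.mp h3)
      rw [map_sub, map_pow, aeval_X, map_one, hx, sub_self, LinearMap.zero_apply, eval_sub,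
        eval_pow, eval_X, eval_one] at h4
      rcases smul_eq_zero.mp h4.symm with h5 | h5
      · exact absurd (sub_eq_zero.mp h5) hne
      · exact h5
    rw [hdim, h0, inf_bot_eq, finrank_bot, zero_mul] at hlt
    omega
  obtain ⟨P, hP1, R, hPR⟩ := FLN.hnf_poly k hk ζ hζ
  set e : V →ₗ[F] V := aeval (x j) P with he
  have hxe : ∀ v, x j (e v) = ζ • e v := by
    intro v
    have h1 := congrArg (fun Q => aeval (x j) Q v) hPR
    simp only [map_mul, map_sub, map_pow, aeval_X, aeval_C, map_one, hx, sub_self,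
      zero_mul, LinearMap.zero_apply, Module.End.mul_apply, LinearMap.sub_apply,
      Module.algebraMap_end_apply] at h1
    exact sub_eq_zero.mp h1
  have hef : ∀ v, x j v = ζ • v → e v = v := by
    intro v hv
    rw [he, FLN.hnf_fix (x j) ζ P v hv, hP1, one_smul]
  have hee : ∀ v, e (e v) = e v := fun v => hef _ (hxe v)
  have hUe : ∀ U : Submodule F V, Inv x U → ∀ v ∈ U, e v ∈ U := by
    intro U hU v hv
    have h1 := FLN.hnf_comm (sb x U hU j) (x j) U.subtype (fun _ => rfl) P ⟨v, hv⟩
    have h2 : e v = U.subtype (aeval (sb x U hU j) P ⟨v, hv⟩) := h1.symm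
    rw [h2]
    exact (aeval (sb x U hU j) P ⟨v, hv⟩).2
  have hdeg : ∀ U : Submodule F V, Inv x U →
      Module.finrank F (U ⊓ LinearMap.ker (x j - ζ • LinearMap.id) : Submodule F V) =
        FLN.hnf_dg e U := by
    intro U hU
    have h1 : U ⊓ LinearMap.ker (x j - ζ • LinearMap.id) = U.map e := by
      ext v
      constructor
      · rintro ⟨hv, hv'⟩
        have h3 : x j v - ζ • v = 0 := hv'
        exact ⟨v, hv, hef v (sub_eq_zero.mp h3)⟩
      · rintro ⟨u, hu, rfl⟩
        have h3 : x j (e u) - ζ • e u = 0 := sub_eq_zero.mpr (hxe u)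
        exact ⟨hUe U hU u hu, h3⟩
    rw [h1]
    rfl
  have hone : ∀ U : Submodule F V, FLN.hnf_dg (LinearMap.id : V →ₗ[F] V) U = Module.finrank F U := by
    intro U
    unfold FLN.hnf_dg
    rw [Submodule.map_id]
  -- the subspace of maximal slope
  have hfinV : Finite V := Module.finite_of_finite F
  have hfin : Finite (Submodule F V) :=
    Finite.of_injective (fun U : Submodule F V => (U : Set V)) SetLike.coe_injective
  have hW₁ : W₁ ≠ ⊥ := by
    rintro rfl
    rw [hdim, bot_inf_eq, finrank_bot, zero_mul, mul_zero] at hlt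
    exact lt_irrefl _ hlt
  obtain ⟨W, ⟨hW, hWb⟩, hmax⟩ := Set.exists_max_image {U : Submodule F V | In2 x a b U ∧ U ≠ ⊥}
    (fun U => (toLex ((FLN.hnf_dg e U : ℚ) / Module.finrank F U, Module.finrank F U) : ℚ ×ₗ ℕ))
    (Set.toFinite _) ⟨W₁, h₁, hW₁⟩
  have hpos : ∀ U : Submodule F V, U ≠ ⊥ → 0 < Module.finrank F U := fun U hU =>
    Nat.pos_of_ne_zero fun h0 => hU (Submodule.finrank_eq_zero.mp h0)
  have m1 : ∀ U : Submodule F V, In2 x a b U → U ≠ ⊥ →
      FLN.hnf_dg e U * Module.finrank F W ≤ FLN.hnf_dg e W * Module.finrank F U := by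
    intro U hU hUb
    have h1 := hmax U ⟨hU, hUb⟩
    have p1 : (0 : ℚ) < Module.finrank F U := by exact_mod_cast hpos U hUb
    have p2 : (0 : ℚ) < Module.finrank F W := by exact_mod_cast hpos W hWb
    rcases (Prod.Lex.toLex_le_toLex).mp h1 with h2 | ⟨h2, -⟩
    · have h3 := (div_lt_div_iff₀ p1 p2).mp h2
      exact_mod_cast h3.le
    · have h3 := (div_eq_div_iff p1.ne' p2.ne').mp h2
      exact_mod_cast h3.le
  have m2 : ∀ U : Submodule F V, In2 x a b U → U ≠ ⊥ → Module.finrank F W < Module.finrank F U →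
      FLN.hnf_dg e U * Module.finrank F W < FLN.hnf_dg e W * Module.finrank F U := by
    intro U hU hUb hd
    have h1 := hmax U ⟨hU, hUb⟩
    have p1 : (0 : ℚ) < Module.finrank F U := by exact_mod_cast hpos U hUb
    have p2 : (0 : ℚ) < Module.finrank F W := by exact_mod_cast hpos W hWb
    rcases (Prod.Lex.toLex_le_toLex).mp h1 with h2 | ⟨-, h2⟩
    · have h3 := (div_lt_div_iff₀ p1 p2).mp h2
      exact_mod_cast h3
    · exact absurd hd (not_lt.mpr h2)
  refine ⟨W, hW, hWb, ?_, ?_⟩
  · rintro rfl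
    have h1 := m1 W₁ h₁ hW₁
    rw [← hdeg W₁ h₁.1, ← hdeg ⊤ hW.1, ← hdim W₁ h₁.1, top_inf_eq, ← hev, finrank_top] at h1
    omega
  · rintro ⟨f, hf, hfa, hfb⟩
    change f = 0
    by_contra hf0
    -- the kernel and the range
    set K : Submodule F V := (LinearMap.ker f).map W.subtype with hK
    set L : Submodule F V := (LinearMap.range f).comap W.mkQ with hL
    have hfx : ∀ i (w : W), f (sb x W hW.1 i w) = qt x W hW.1 i (f w) := fun i w =>
      LinearMap.congr_fun (hf i) w
    have hfa' : ∀ w : W, f (a.restrict hW.2.1 w) = sg F o • (W.mapQ W a hW.2.1 (f w)) := fun w =>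
      LinearMap.congr_fun hfa w
    have hfb' : ∀ w : W, f (b.restrict hW.2.2 w) = sg F o • (W.mapQ W b hW.2.2 (f w)) := fun w =>
      LinearMap.congr_fun hfb w
    have hKi : In2 x a b K := by
      refine ⟨fun i => ?_, ?_, ?_⟩
      · rintro v ⟨w, hw, rfl⟩
        refine ⟨sb x W hW.1 i w, ?_, rfl⟩
        have h1 : f w = 0 := hw
        have h2 : f (sb x W hW.1 i w) = 0 := by rw [hfx, h1, map_zero]
        exact h2
      · rintro v ⟨w, hw, rfl⟩
        refine ⟨a.restrict hW.2.1 w, ?_, rfl⟩
        have h1 : f w = 0 := hw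
        have h2 : f (a.restrict hW.2.1 w) = 0 := by rw [hfa', h1, map_zero, smul_zero]
        exact h2
      · rintro v ⟨w, hw, rfl⟩
        refine ⟨b.restrict hW.2.2 w, ?_, rfl⟩
        have h1 : f w = 0 := hw
        have h2 : f (b.restrict hW.2.2 w) = 0 := by rw [hfb', h1, map_zero, smul_zero]
        exact h2
    have hLi : In2 x a b L := by
      refine ⟨fun i => ?_, ?_, ?_⟩
      · rintro v ⟨w, hw⟩
        refine ⟨sb x W hW.1 i w, ?_⟩
        rw [hfx, hw]
        rfl
      · rintro v ⟨w, hw⟩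
        refine ⟨sg F o • (a.restrict hW.2.1 w), ?_⟩
        rw [map_smul, hfa', smul_smul, hnf_sg, one_smul, hw]
        rfl
      · rintro v ⟨w, hw⟩
        refine ⟨sg F o • (b.restrict hW.2.2 w), ?_⟩
        rw [map_smul, hfb', smul_smul, hnf_sg, one_smul, hw]
        rfl
    have hWL : W ≤ L := by
      intro v hv
      refine ⟨0, ?_⟩
      rw [map_zero]
      exact ((Submodule.Quotient.mk_eq_zero W).mpr hv).symm
    -- exact sequences, for every pair of compatible operators
    have ex : ∀ (g : V →ₗ[F] V) (gW : W →ₗ[F] W) (gQ : (V ⧸ W) →ₗ[F] (V ⧸ W)),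
        (∀ v, g (g v) = g v) → (∀ w : W, ((gW w : W) : V) = g w) →
        (∀ v, W.mkQ (g v) = gQ (W.mkQ v)) → (∀ w, f (gW w) = gQ (f w)) →
        (∀ v ∈ L, g v ∈ L) →
        FLN.hnf_dg g W = FLN.hnf_dg g K + FLN.hnf_dg gQ (LinearMap.range f) ∧
        FLN.hnf_dg g L = FLN.hnf_dg g W + FLN.hnf_dg gQ (LinearMap.range f) := by
      intro g gW gQ hg h1 h2 h3 h4
      constructor
      · have e1 := FLN.hnf_exact f gW gQ h3 (fun w => Subtype.ext (by rw [h1, h1, hg])) ⊤
          (fun _ _ => trivial)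
        have e2 := FLN.hnf_inj W.subtype W.injective_subtype gW g h1 ⊤
        have e3 := FLN.hnf_inj W.subtype W.injective_subtype gW g h1 (LinearMap.ker f)
        rw [Submodule.map_subtype_top] at e2
        rw [top_inf_eq, ← LinearMap.range_eq_map, e2, e3] at e1
        exact e1
      · have e1 := FLN.hnf_exact W.mkQ g gQ h2 hg L h4
        have e2 : L ⊓ LinearMap.ker W.mkQ = W := by
          rw [Submodule.ker_mkQ]
          exact inf_eq_right.mpr hWL
        have e3 : L.map W.mkQ = LinearMap.range f := by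
          rw [hL, Submodule.map_comap_eq_of_surjective W.mkQ_surjective]
        rw [e2, e3] at e1
        exact e1
    obtain ⟨d1, d2⟩ := ex e (aeval (sb x W hW.1 j) P) (aeval (qt x W hW.1 j) P) hee
      (fun w => FLN.hnf_comm (sb x W hW.1 j) (x j) W.subtype (fun _ => rfl) P w)
      (fun v => FLN.hnf_comm (x j) (qt x W hW.1 j) W.mkQ (fun _ => rfl) P v)
      (fun w => FLN.hnf_comm (sb x W hW.1 j) (qt x W hW.1 j) f (hfx j) P w) (hUe L hLi.1)
    obtain ⟨c1, c2⟩ := ex LinearMap.id LinearMap.id LinearMap.id (fun _ => rfl) (fun _ => rfl)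
      (fun _ => rfl) (fun _ => rfl) (fun _ h => h)
    rw [hone, hone] at c1
    rw [hone, hone] at c2
    have hr : FLN.hnf_dg LinearMap.id (LinearMap.range f) = Module.finrank F (LinearMap.range f) := by
      unfold FLN.hnf_dg
      rw [Submodule.map_id]
    rw [hr] at c1 c2
    have hrpos : 0 < Module.finrank F (LinearMap.range f) := by
      refine Nat.pos_of_ne_zero fun h0 => hf0 ?_
      exact LinearMap.range_eq_bot.mp (Submodule.finrank_eq_zero.mp h0)
    have hLb : L ≠ ⊥ := fun h => hWb (le_bot_iff.mp (h ▸ hWL))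
    have a1 := m2 L hLi hLb (by omega)
    have a2 : FLN.hnf_dg e K * Module.finrank F W ≤ FLN.hnf_dg e W * Module.finrank F K := by
      by_cases hKb : K = ⊥
      · have h0 : FLN.hnf_dg e (⊥ : Submodule F V) = 0 := by
          unfold FLN.hnf_dg
          rw [Submodule.map_bot, finrank_bot]
        rw [hKb, h0, zero_mul]
        exact Nat.zero_le _
      · exact m1 K hKi hKb
    rw [d2, c2] at a1
    set s := FLN.hnf_dg (aeval (qt x W hW.1 j) P) (LinearMap.range f)
    set r := Module.finrank F (LinearMap.range f)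
    set D := FLN.hnf_dg e W
    set D' := FLN.hnf_dg e K
    set N := Module.finrank F W
    set N' := Module.finrank F K
    -- `s N < D r` and `D r ≤ s N`
    have b1 : s * N < D * r := by nlinarith
    have b2 : D * r ≤ s * N := by nlinarith
    exact absurd b1 (not_lt.mpr b2)

end FLW
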