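import Pool.Agent.FLW.StW
import Pool.Agent.RSF.H2

/-!
# Module `HO`: homomorphisms are tuples
-/

namespace FLW

open RSF

theorem t_HO : S_HO := by
  intro G _ m E
  obtain ⟨h1, h2⟩ := RSF.t_H2 G m E
  constructor
  · rw [h1]
    simp only [TN, wd, if_true]
  · rw [h2]
    simp only [TN, wd, Bool.false_eq_true, if_false]

end FLW
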