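import Mathlib
import Pool.Agent.FLW.StW
import Pool.Agent.FL0.LFH
import Pool.Agent.FL0.LFT

/-!
# Module `LFH`: lifts of the tuples of a homomorphism
-/

set_option autoImplicit false

namespace FLW

open RSF FL0

/-- triples of a tuple and two elements as tuples -/
def lfh_eqv (d : ℕ) (α : Type) : (Fin (d + 2) → α) ≃ (Fin d → α) × α × α where
  toFun t := (fun j => t j.succ.succ, t 0, t (Fin.succ 0))
  invFun p := Fin.cons p.2.1 (Fin.cons p.2.2 p.1)
  left_inv t := by
    funext j
    refine Fin.cases ?_ (fun i => ?_) j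
    · rfl
    · refine Fin.cases ?_ (fun i' => ?_) i
      · rfl
      · rfl
  right_inv p := by
    obtain ⟨a, b, c⟩ := p
    rfl

/-- the numbers of the lifts -/
theorem lfh_card (n : ℕ) (F : Type) [Field F] [Finite F] (d : ℕ)
    (E : (Fin d → PS n F) × PS n F × PS n F → Prop) :
    Nat.card {A : (Fin d → SL n F) × SL n F × SL n F //
        E (fun j => mk (A.1 j), mk A.2.1, mk A.2.2)} =
      Nat.card (Subgroup.center (SL n F)) ^ (d + 2) *
        Nat.card {t : (Fin d → PS n F) × PS n F × PS n F // E t} := by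
  have h := t_LFT n F (d + 2) fun t => E (lfh_eqv d (PS n F) t)
  have e1 : Nat.card {A : (Fin d → SL n F) × SL n F × SL n F //
        E (fun j => mk (A.1 j), mk A.2.1, mk A.2.2)} =
      Nat.card {A : Fin (d + 2) → SL n F // E (lfh_eqv d (PS n F) fun j => mk (A j))} :=
    Nat.card_congr ((lfh_eqv d (SL n F)).subtypeEquiv fun A => Iff.rfl).symm
  have e2 : Nat.card {t : Fin (d + 2) → PS n F // E (lfh_eqv d (PS n F) t)} =
      Nat.card {t : (Fin d → PS n F) × PS n F × PS n F // E t} :=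
    Nat.card_congr ((lfh_eqv d (PS n F)).subtypeEquiv fun A => Iff.rfl)
  rw [e1, h, e2]

/-- the word of the images -/
theorem lfh_wd (n : ℕ) (F : Type) [Field F] (o : Bool) (a b : SL n F) :
    wd o (mk a) (mk b) = mk (wd o a b) := by
  cases o
  · rfl
  · rfl

open FL0.LFH in
theorem t_LFH : S_LFH := by
  intro n F _ _ m o E
  have h := lfh_card n F m.length fun t => (∀ j, t.1 j ^ m.get j = 1) ∧ E t.1 t.2.1 t.2.2 ∧
    (List.ofFn t.1).prod * wd o t.2.1 t.2.2 = 1
  refine Eq.trans (Nat.card_congr (Equiv.subtypeEquivRight fun A => ?_)) h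
  have e : (List.ofFn fun j => mk (A.1 j)).prod * wd o (mk A.2.1) (mk A.2.2) =
      mk ((List.ofFn A.1).prod * wd o A.2.1 A.2.2) := by
    rw [mk_prod, lfh_wd]
    rfl
  show _ ↔ (∀ j, mk (A.1 j) ^ m.get j = 1) ∧ E (fun j => mk (A.1 j)) (mk A.2.1) (mk A.2.2) ∧
    (List.ofFn fun j => mk (A.1 j)).prod * wd o (mk A.2.1) (mk A.2.2) = 1
  rw [e, mk_one]
  refine and_congr_left fun _ => forall_congr' fun j => ?_
  exact (mk_pow_one (A.1 j) _).symm

end FLW
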