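import Mathlib
import Pool.Agent.FLW.StW
import Pool.Agent.FL0.LOW

/-!
# FLW_LOW: lower bound for the number of homomorphisms (adaptation of FLN_LOW by helper62)
-/

set_option autoImplicit false

namespace FLW

open RSF FL0 Polynomial Pool.Agent.Lib_helper13

noncomputable section

open FL0.LOW_aux in
theorem t_LOW : M_LOW := by
  intro hPI hPJ hCNT m hm hsig
  obtain ⟨c, r, hc, hr, hmain⟩ := hCNT m hm hsig
  obtain ⟨T, hT⟩ : ∃ T : ℝ, T = (m.map fun k : ℕ => (k : ℝ) ^ 2).sum := ⟨_, rfl⟩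
  have hT0 : 0 ≤ T := by
    rw [hT]
    refine List.sum_nonneg fun x hx => ?_
    obtain ⟨k, -, rfl⟩ := List.mem_map.1 hx
    positivity
  obtain ⟨e, he⟩ : ∃ e, m.length = e := ⟨_, rfl⟩
  refine ⟨1 + 4 * (e + 1) + 4 * T, max r ⌈1 / c⌉₊, by positivity, fun n hn F _ _ hF1 hF2 o => ?_⟩
  have hq : (2 : ℝ) ≤ (Nat.card F : ℝ) := by
    exact_mod_cast Finite.one_lt_card (α := F)
  have hq0 : (0 : ℝ) < (Nat.card F : ℝ) := by linarith
  have h1 := hmain n ((le_max_left _ _).trans hn) F hF1 hF2 o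
  have hcn : 1 ≤ c * (n : ℝ) := by
    have e1 : 1 / c ≤ (n : ℝ) :=
      (Nat.le_ceil _).trans (by exact_mod_cast (le_max_right _ _).trans hn)
    rw [div_le_iff₀ hc] at e1
    linarith
  have hhalf : (Nat.card F : ℝ) ^ (-c * (n : ℝ)) ≤ 1 / 2 := by
    calc (Nat.card F : ℝ) ^ (-c * (n : ℝ)) ≤ (Nat.card F : ℝ) ^ (-1 : ℝ) :=
          Real.rpow_le_rpow_of_exponent_le (by linarith) (by linarith)
      _ = (Nat.card F : ℝ)⁻¹ := Real.rpow_neg_one _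
      _ ≤ 2⁻¹ := inv_anti₀ (by norm_num) hq
      _ = 1 / 2 := by norm_num
  have hJ := JJ_ge hPJ n F m fun k hk => le_trans (by norm_num) (hm k hk)
  rw [← hT, he] at hJ
  have hPS : Finite (PS n F) := LG.finPS
  have hPpos : (0 : ℝ) < (Nat.card (PS n F) : ℝ) := by
    exact_mod_cast Nat.card_pos
  have hJpos : (0 : ℝ) < (JJ (PS n F) m : ℝ) := lt_of_lt_of_le (by positivity) hJ
  have hPJpos : (0 : ℝ) < (Nat.card (PS n F) : ℝ) * (JJ (PS n F) m : ℝ) := mul_pos hPpos hJpos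
  have h2 : (Nat.card (PS n F) : ℝ) * (JJ (PS n F) m : ℝ) / 2 ≤
      (TN o (PS n F) m (fun _ _ _ => True) : ℝ) := by
    have e1 := (abs_le.1 (h1.trans hhalf)).1
    have e2 : 1 / 2 ≤ (TN o (PS n F) m (fun _ _ _ => True) : ℝ) /
        (Nat.card (PS n F) * JJ (PS n F) m) := by linarith
    rw [le_div_iff₀ hPJpos] at e2
    linarith
  obtain ⟨A, hA⟩ : ∃ A : ℝ, A = -(((e : ℝ) - sig m) * (n : ℝ) ^ 2) - 4 * T := ⟨_, rfl⟩
  rw [← hA] at hJ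
  refine le_trans ?_ h2
  have h4 : (Nat.card F : ℝ) ^ (((n : ℝ) ^ 2 - 4) * ((e + 1 : ℕ) : ℝ)) ≤
      (Nat.card (PS n F) : ℝ) ^ (e + 1) := by
    rw [Real.rpow_mul hq0.le, Real.rpow_natCast]
    exact pow_le_pow_left₀ (by positivity) (PS_ge hPI n F) (e + 1)
  have h5 : (Nat.card F : ℝ) ^ (-1 : ℝ) ≤ 1 / 2 := by
    rw [Real.rpow_neg_one]
    calc (Nat.card F : ℝ)⁻¹ ≤ 2⁻¹ := inv_anti₀ (by norm_num) hq
      _ = 1 / 2 := by norm_num
  have h6 : (1 + sig m) * (n : ℝ) ^ 2 - (1 + 4 * (e + 1) + 4 * T) =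
      -1 + (((n : ℝ) ^ 2 - 4) * ((e + 1 : ℕ) : ℝ) + A) := by
    rw [hA]
    push_cast
    ring
  have h7 : (Nat.card F : ℝ) ^ (((n : ℝ) ^ 2 - 4) * ((e + 1 : ℕ) : ℝ)) * (Nat.card F : ℝ) ^ A ≤
      Nat.card (PS n F) * JJ (PS n F) m := by
    calc (Nat.card F : ℝ) ^ (((n : ℝ) ^ 2 - 4) * ((e + 1 : ℕ) : ℝ)) * (Nat.card F : ℝ) ^ A ≤
          (Nat.card (PS n F) : ℝ) ^ (e + 1) * (Nat.card F : ℝ) ^ A :=
            mul_le_mul_of_nonneg_right h4 (by positivity)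
      _ = Nat.card (PS n F) * ((Nat.card (PS n F) : ℝ) ^ e * (Nat.card F : ℝ) ^ A) := by
            rw [pow_succ]
            ring
      _ ≤ Nat.card (PS n F) * JJ (PS n F) m := mul_le_mul_of_nonneg_left hJ hPpos.le
  rw [h6, Real.rpow_add hq0, Real.rpow_add hq0]
  calc (Nat.card F : ℝ) ^ (-1 : ℝ) *
        ((Nat.card F : ℝ) ^ (((n : ℝ) ^ 2 - 4) * ((e + 1 : ℕ) : ℝ)) * (Nat.card F : ℝ) ^ A) ≤
        1 / 2 * (Nat.card (PS n F) * JJ (PS n F) m) :=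
          mul_le_mul h5 h7 (by positivity) (by norm_num)
    _ = (Nat.card (PS n F) : ℝ) * (JJ (PS n F) m : ℝ) / 2 := by ring

end

end FLW
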