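import Mathlib
import Pool.Agent.FLW.StW
import Pool.Agent.FL0.PAR

/-!
# PAR: the count for one invariant subspace, groups of genus 1 and 2 (MP_5b5212_al)
-/

set_option autoImplicit false

namespace FLW

open RSF FL0 Polynomial FL0.PAR_aux Pool.Agent.Lib_helper13

noncomputable section


/-- The sum of the weights. -/
theorem par_weight (hEVS : S_EVS) (m : List ℕ) (hm : ∀ k ∈ m, 2 ≤ k) (C κ : ℝ)
    (F V : Type) [Field F] [Finite F] [AddCommGroup V] [Module F V] [FiniteDimensional F V]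
    (hk : ∀ k ∈ m, k ∣ Nat.card F - 1) (z : F) (o : Bool)
    (hU : ∀ β : Fin m.length → F → ℕ,
      (Nat.card {t : (Fin m.length → (V →ₗ[F] V)) × (V →ₗ[F] V) × (V →ₗ[F] V) //
        Tu o z m t.1 t.2.1 t.2.2 ∧ ∀ j ζ, ev (t.1 j) ζ = β j ζ} : ℝ) ≤
      (Nat.card F : ℝ) ^ (C + κ * (Module.finrank F V : ℝ) ^ 2 -
        (∑ j, ∑ᶠ ζ : F, (β j ζ : ℝ) ^ 2) / 2))
    (S : Finset ((Fin m.length → (V →ₗ[F] V)) × (V →ₗ[F] V) × (V →ₗ[F] V)))
    (hS : ∀ t, t ∈ S ↔ Tu o z m t.1 t.2.1 t.2.2) :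
    ∑ t ∈ S, (Nat.card F : ℝ) ^ ((∑ j, (sq (t.1 j) : ℝ)) / 2) ≤
      ((Module.finrank F V : ℝ) + 1) ^ m.sum *
        (Nat.card F : ℝ) ^ (C + κ * (Module.finrank F V : ℝ) ^ 2) := by
  classical
  haveI : Fintype F := Fintype.ofFinite F
  haveI := fin_end (F := F) (V := V)
  have hq0 : (0 : ℝ) < Nat.card F := by exact_mod_cast Nat.card_pos
  let g : (Fin m.length → (V →ₗ[F] V)) × (V →ₗ[F] V) × (V →ₗ[F] V) → (Fin m.length → F → ℕ) :=
    fun t j ζ => ev (t.1 j) ζ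
  have key : ∀ t : (Fin m.length → (V →ₗ[F] V)) × (V →ₗ[F] V) × (V →ₗ[F] V),
      (∑ j, (sq (t.1 j) : ℝ)) = ∑ j, ∑ᶠ ζ : F, ((g t j ζ : ℕ) : ℝ) ^ 2 := by
    intro t
    refine Finset.sum_congr rfl fun j _ => ?_
    unfold FL0.sq
    rw [finsum_eq_sum_of_fintype, finsum_eq_sum_of_fintype]
    push_cast
    rfl
  have h1 : ∑ t ∈ S, (Nat.card F : ℝ) ^ ((∑ j, (sq (t.1 j) : ℝ)) / 2) =
      ∑ β ∈ S.image g, ∑ t ∈ S.filter (fun t => g t = β),
        (Nat.card F : ℝ) ^ ((∑ j, (sq (t.1 j) : ℝ)) / 2) :=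
    (Finset.sum_fiberwise_of_maps_to (fun t ht => Finset.mem_image_of_mem g ht) _).symm
  have h2 : ∀ β ∈ S.image g, ∑ t ∈ S.filter (fun t => g t = β),
      (Nat.card F : ℝ) ^ ((∑ j, (sq (t.1 j) : ℝ)) / 2) ≤
      (Nat.card F : ℝ) ^ (C + κ * (Module.finrank F V : ℝ) ^ 2) := by
    intro β _
    have h3 : ∑ t ∈ S.filter (fun t => g t = β),
        (Nat.card F : ℝ) ^ ((∑ j, (sq (t.1 j) : ℝ)) / 2) =
        ((S.filter (fun t => g t = β)).card : ℝ) *
          (Nat.card F : ℝ) ^ ((∑ j, ∑ᶠ ζ : F, ((β j ζ : ℕ) : ℝ) ^ 2) / 2) := by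
      rw [← nsmul_eq_mul, ← Finset.sum_const]
      refine Finset.sum_congr rfl fun t ht => ?_
      rw [key t, (Finset.mem_filter.1 ht).2]
    have h4 : ((S.filter (fun t => g t = β)).card : ℝ) ≤
        (Nat.card {t : (Fin m.length → (V →ₗ[F] V)) × (V →ₗ[F] V) × (V →ₗ[F] V) //
        Tu o z m t.1 t.2.1 t.2.2 ∧ ∀ j ζ, ev (t.1 j) ζ = β j ζ} : ℝ) := by
      rw [← Nat.card_eq_finsetCard]
      have : Nat.card (S.filter (fun t => g t = β)) ≤
        Nat.card {t : (Fin m.length → (V →ₗ[F] V)) × (V →ₗ[F] V) × (V →ₗ[F] V) //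
        Tu o z m t.1 t.2.1 t.2.2 ∧ ∀ j ζ, ev (t.1 j) ζ = β j ζ} := by
        refine Nat.card_le_card_of_injective (fun t => ⟨t.1, ?_⟩) ?_
        · obtain ⟨h5, h6⟩ := Finset.mem_filter.1 t.2
          refine ⟨(hS t.1).1 h5, ?_⟩
          intro j ζ
          exact congrFun (congrFun h6 j) ζ
        · intro t t' htt
          apply Subtype.ext
          exact congrArg (fun s => s.1) htt
      exact_mod_cast this
    rw [h3]
    have h5 := h4.trans (hU β)
    have h6 := mul_le_mul_of_nonneg_right h5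
      (Real.rpow_nonneg hq0.le ((∑ j, ∑ᶠ ζ : F, ((β j ζ : ℕ) : ℝ) ^ 2) / 2))
    rw [← Real.rpow_add hq0, sub_add_cancel] at h6
    exact h6
  have hcard : ((S.image g).card : ℝ) ≤ ((Module.finrank F V : ℝ) + 1) ^ m.sum := by
    let M : Fin m.length → Set (F → ℕ) := fun j =>
      {β : F → ℕ | ∃ x : V →ₗ[F] V, x ^ m.get j = 1 ∧ ∀ ζ, ev x ζ = β ζ}
    have hM : ∀ j, (M j).Finite := by
      intro j
      refine (Set.finite_range (fun x : V →ₗ[F] V => (fun ζ : F => ev x ζ))).subset ?_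
      rintro β ⟨x, -, hx⟩
      exact ⟨x, funext hx⟩
    have hMc : ∀ j, (hM j).toFinset.card ≤ (Module.finrank F V + 1) ^ m.get j := by
      intro j
      have h3 : m.get j ∈ m := List.get_mem m j
      have h4 := (hEVS F V (m.get j) (by have := hm _ h3; omega) (hk _ h3)).2.2.2.1
      rw [← Set.ncard_eq_toFinset_card _ (hM j)]
      exact h4
    have hsub : S.image g ⊆ Fintype.piFinset (fun j => (hM j).toFinset) := by
      intro β hβ
      obtain ⟨t, ht, rfl⟩ := Finset.mem_image.1 hβ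
      rw [Fintype.mem_piFinset]
      intro j
      rw [Set.Finite.mem_toFinset]
      exact ⟨t.1 j, ((hS t).1 ht).1 j, fun ζ => rfl⟩
    have h3 : (S.image g).card ≤ (Module.finrank F V + 1) ^ m.sum := by
      calc (S.image g).card ≤ (Fintype.piFinset (fun j => (hM j).toFinset)).card :=
            Finset.card_le_card hsub
        _ = ∏ j, (hM j).toFinset.card := Fintype.card_piFinset _
        _ ≤ ∏ j : Fin m.length, (Module.finrank F V + 1) ^ m.get j :=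
            Finset.prod_le_prod' fun j _ => hMc j
        _ = (Module.finrank F V + 1) ^ m.sum := by
            rw [Finset.prod_pow_eq_pow_sum, sum_get]
    exact_mod_cast h3
  rw [h1]
  calc ∑ β ∈ S.image g, ∑ t ∈ S.filter (fun t => g t = β),
        (Nat.card F : ℝ) ^ ((∑ j, (sq (t.1 j) : ℝ)) / 2)
      ≤ ∑ β ∈ S.image g, (Nat.card F : ℝ) ^ (C + κ * (Module.finrank F V : ℝ) ^ 2) :=
        Finset.sum_le_sum h2
    _ = ((S.image g).card : ℝ) * (Nat.card F : ℝ) ^ (C + κ * (Module.finrank F V : ℝ) ^ 2) := by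
        rw [Finset.sum_const, nsmul_eq_mul]
    _ ≤ _ := mul_le_mul_of_nonneg_right hcard (Real.rpow_nonneg hq0.le _)

section

variable {F V : Type} [Field F] [AddCommGroup V] [Module F V]

/-- the relation on an invariant subspace -/
theorem par_wl_sb {d : ℕ} (o : Bool) (z : F) (x : Fin d → (V →ₗ[F] V)) (a b : V →ₗ[F] V)
    (W : Submodule F V) (h : In2 x a b W) (hw : Wl o z (List.ofFn x).prod a b = 0) :
    Wl o z (List.ofFn (sb x W h.1)).prod (a.restrict h.2.1) (b.restrict h.2.2) = 0 := by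
  cases o
  · have h1 : (List.ofFn x).prod * a ^ 2 * b ^ 2 - z • (1 : Module.End F V) = 0 := hw
    have h2 : (List.ofFn (sb x W h.1)).prod * (a.restrict h.2.1) ^ 2 * (b.restrict h.2.2) ^ 2 -
        z • (1 : Module.End F W) = 0 := by
      rw [sub_eq_zero] at h1 ⊢
      ext w
      have h3 : (((List.ofFn (sb x W h.1)).prod * (a.restrict h.2.1) ^ 2 *
          (b.restrict h.2.2) ^ 2) w : V) = ((List.ofFn x).prod * a ^ 2 * b ^ 2) (w : V) := by
        rw [Module.End.mul_apply, Module.End.mul_apply, Module.End.mul_apply,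
          Module.End.mul_apply, sb_prod, sb_pow, sb_pow]
      rw [h1] at h3
      exact h3
    exact h2
  · have h1 : (List.ofFn x).prod * a * b - z • (b * a) = 0 := hw
    have h2 : (List.ofFn (sb x W h.1)).prod * (a.restrict h.2.1) * (b.restrict h.2.2) -
        z • ((b.restrict h.2.2) * (a.restrict h.2.1)) = 0 := by
      rw [sub_eq_zero] at h1 ⊢
      ext w
      have h3 : (((List.ofFn (sb x W h.1)).prod * (a.restrict h.2.1) *
          (b.restrict h.2.2)) w : V) = ((List.ofFn x).prod * a * b) (w : V) := by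
        rw [Module.End.mul_apply, Module.End.mul_apply, Module.End.mul_apply,
          Module.End.mul_apply, sb_prod]
        rfl
      rw [h1] at h3
      exact h3
    exact h2

/-- the relation on the quotient -/
theorem par_wl_qt {d : ℕ} (o : Bool) (z : F) (x : Fin d → (V →ₗ[F] V)) (a b : V →ₗ[F] V)
    (W : Submodule F V) (h : In2 x a b W) (hw : Wl o z (List.ofFn x).prod a b = 0) :
    Wl o z (List.ofFn (qt x W h.1)).prod (W.mapQ W a h.2.1) (W.mapQ W b h.2.2) = 0 := by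
  have e1 : ∀ (f : V →ₗ[F] V) (hf : W ≤ W.comap f) (w : V),
      (W.mapQ W f hf) (W.mkQ w) = W.mkQ (f w) := fun f hf w => rfl
  cases o
  · have h1 : (List.ofFn x).prod * a ^ 2 * b ^ 2 - z • (1 : Module.End F V) = 0 := hw
    have h2 : (List.ofFn (qt x W h.1)).prod * (W.mapQ W a h.2.1) ^ 2 * (W.mapQ W b h.2.2) ^ 2 -
        z • (1 : Module.End F (V ⧸ W)) = 0 := by
      rw [sub_eq_zero] at h1 ⊢
      apply LinearMap.ext
      intro w
      obtain ⟨w, rfl⟩ := W.mkQ_surjective w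
      have h3 : ((List.ofFn (qt x W h.1)).prod * (W.mapQ W a h.2.1) ^ 2 *
          (W.mapQ W b h.2.2) ^ 2) (W.mkQ w) = W.mkQ (((List.ofFn x).prod * a ^ 2 * b ^ 2) w) := by
        rw [Module.End.mul_apply, Module.End.mul_apply, qt_pow, qt_pow, qt_prod]
        rfl
      rw [h1] at h3
      exact h3
    exact h2
  · have h1 : (List.ofFn x).prod * a * b - z • (b * a) = 0 := hw
    have h2 : (List.ofFn (qt x W h.1)).prod * (W.mapQ W a h.2.1) * (W.mapQ W b h.2.2) -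
        z • ((W.mapQ W b h.2.2) * (W.mapQ W a h.2.1)) = 0 := by
      rw [sub_eq_zero] at h1 ⊢
      apply LinearMap.ext
      intro w
      obtain ⟨w, rfl⟩ := W.mkQ_surjective w
      have h3 : ((List.ofFn (qt x W h.1)).prod * (W.mapQ W a h.2.1) *
          (W.mapQ W b h.2.2)) (W.mkQ w) = W.mkQ (((List.ofFn x).prod * a * b) w) := by
        rw [Module.End.mul_apply, Module.End.mul_apply, e1, e1, qt_prod]
        rfl
      rw [h1] at h3
      exact h3
    exact h2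

theorem par_unit_sb [FiniteDimensional F V] (a : V →ₗ[F] V) (W : Submodule F V)
    (h : W ≤ W.comap a) (ha : IsUnit a) : IsUnit (a.restrict h) := by
  rw [LinearMap.isUnit_iff_ker_eq_bot] at ha ⊢
  rw [LinearMap.ker_eq_bot'] at ha ⊢
  intro w hw
  apply Subtype.ext
  apply ha
  exact congrArg Subtype.val hw

theorem par_unit_qt [FiniteDimensional F V] (a : V →ₗ[F] V) (W : Submodule F V)
    (h : W ≤ W.comap a) (ha : IsUnit a) : IsUnit (W.mapQ W a h) := by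
  rw [LinearMap.isUnit_iff_range_eq_top] at ha ⊢
  rw [LinearMap.range_eq_top] at ha ⊢
  intro y
  obtain ⟨y, rfl⟩ := W.mkQ_surjective y
  obtain ⟨x, rfl⟩ := ha y
  exact ⟨W.mkQ x, rfl⟩

theorem par_tu_sb [FiniteDimensional F V] (o : Bool) (z : F) (m : List ℕ)
    (x : Fin m.length → (V →ₗ[F] V)) (a b : V →ₗ[F] V) (W : Submodule F V)
    (h : In2 x a b W) (hx : Tu o z m x a b) :
    Tu o z m (sb x W h.1) (a.restrict h.2.1) (b.restrict h.2.2) := by
  obtain ⟨h1, h2, h3, h4⟩ := hx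
  refine ⟨?_, par_unit_sb a W h.2.1 h2, par_unit_sb b W h.2.2 h3, par_wl_sb o z x a b W h h4⟩
  intro j
  ext w
  have h2 := sb_pow (x j) W (h.1 j) (m.get j) w
  rw [h1 j] at h2
  exact h2

theorem par_tu_qt [FiniteDimensional F V] (o : Bool) (z : F) (m : List ℕ)
    (x : Fin m.length → (V →ₗ[F] V)) (a b : V →ₗ[F] V) (W : Submodule F V)
    (h : In2 x a b W) (hx : Tu o z m x a b) :
    Tu o z m (qt x W h.1) (W.mapQ W a h.2.1) (W.mapQ W b h.2.2) := by
  obtain ⟨h1, h2, h3, h4⟩ := hx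
  refine ⟨?_, par_unit_qt a W h.2.1 h2, par_unit_qt b W h.2.2 h3, par_wl_qt o z x a b W h h4⟩
  intro j
  apply LinearMap.ext
  intro w
  obtain ⟨w, rfl⟩ := W.mkQ_surjective w
  have h2 := qt_pow (x j) W (h.1 j) (m.get j) w
  rw [h1 j] at h2
  exact h2

end

theorem t_PAR : M_PAR := by
  classical
  intro _ hEVS hUPB hFIB m hm hsig
  obtain ⟨C₀, hC₀, hUPB⟩ := hUPB m hm hsig
  refine ⟨2 * C₀, by positivity, ?_⟩
  intro F V _ _ _ _ _ hk z hz o W H hH
  haveI : Fintype F := Fintype.ofFinite F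
  haveI := fin_end (F := F) (V := V)
  haveI := fin_end (F := F) (V := W)
  haveI := fin_end (F := F) (V := V ⧸ W)
  haveI : Fintype ((Fin m.length → (V →ₗ[F] V)) × (V →ₗ[F] V) × (V →ₗ[F] V)) := Fintype.ofFinite _
  haveI : Fintype ((Fin m.length → (W →ₗ[F] W)) × (W →ₗ[F] W) × (W →ₗ[F] W)) := Fintype.ofFinite _
  haveI : Fintype ((Fin m.length → ((V ⧸ W) →ₗ[F] (V ⧸ W))) × ((V ⧸ W) →ₗ[F] (V ⧸ W)) × ((V ⧸ W) →ₗ[F] (V ⧸ W))) :=
    Fintype.ofFinite _
  have hq0 : (0 : ℝ) < Nat.card F := by exact_mod_cast Nat.card_pos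
  have hq1 : (1 : ℝ) ≤ Nat.card F := by
    have : 0 < Nat.card F := Nat.card_pos
    exact_mod_cast this
  set q : ℝ := (Nat.card F : ℝ) with hq
  set kk : ℕ := Module.finrank F W with hkk
  set ll : ℕ := Module.finrank F (V ⧸ W) with hll
  have hn : Module.finrank F V = kk + ll := by
    rw [add_comm]
    exact (Submodule.finrank_quotient_add_finrank W).symm
  set κ : ℝ := (m.length + sig m) / 2 + 1 with hκ
  let SA : Finset ((Fin m.length → (W →ₗ[F] W)) × (W →ₗ[F] W) × (W →ₗ[F] W)) :=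
    Finset.univ.filter fun a => Tu o z m a.1 a.2.1 a.2.2
  let SB : Finset ((Fin m.length → ((V ⧸ W) →ₗ[F] (V ⧸ W))) × ((V ⧸ W) →ₗ[F] (V ⧸ W)) ×
      ((V ⧸ W) →ₗ[F] (V ⧸ W))) :=
    Finset.univ.filter fun a => Tu o z m a.1 a.2.1 a.2.2
  have hSA : ∀ a, a ∈ SA ↔ Tu o z m a.1 a.2.1 a.2.2 := by
    intro a
    simp [SA]
  have hSB : ∀ a, a ∈ SB ↔ Tu o z m a.1 a.2.1 a.2.2 := by
    intro a
    simp [SB]
  let SX : Finset ((Fin m.length → (V →ₗ[F] V)) × (V →ₗ[F] V) × (V →ₗ[F] V)) :=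
    Finset.univ.filter fun x => Tu o z m x.1 x.2.1 x.2.2 ∧ ∃ h : In2 x.1 x.2.1 x.2.2 W,
            (Nat.card (Hs o (sb x.1 W h.1) (x.2.1.restrict h.2.1) (x.2.2.restrict h.2.2)
              (qt x.1 W h.1) (W.mapQ W x.2.1 h.2.1) (W.mapQ W x.2.2 h.2.2)) : ℝ) ≤ H
  have hSX : ∀ x, x ∈ SX ↔ Tu o z m x.1 x.2.1 x.2.2 ∧ ∃ h : In2 x.1 x.2.1 x.2.2 W,
            (Nat.card (Hs o (sb x.1 W h.1) (x.2.1.restrict h.2.1) (x.2.2.restrict h.2.2)
              (qt x.1 W h.1) (W.mapQ W x.2.1 h.2.1) (W.mapQ W x.2.2 h.2.2)) : ℝ) ≤ H := by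
    intro x
    simp [SX]
  have hN : Nat.card {x : (Fin m.length → (V →ₗ[F] V)) × (V →ₗ[F] V) × (V →ₗ[F] V) //
          Tu o z m x.1 x.2.1 x.2.2 ∧ ∃ h : In2 x.1 x.2.1 x.2.2 W,
            (Nat.card (Hs o (sb x.1 W h.1) (x.2.1.restrict h.2.1) (x.2.2.restrict h.2.2)
              (qt x.1 W h.1) (W.mapQ W x.2.1 h.2.1) (W.mapQ W x.2.2 h.2.2)) : ℝ) ≤ H} =
      SX.card := by
    rw [Nat.card_eq_fintype_card, Fintype.card_subtype]
  rw [hN]
  let Fb : ((Fin m.length → (W →ₗ[F] W)) × (W →ₗ[F] W) × (W →ₗ[F] W)) ×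
      ((Fin m.length → ((V ⧸ W) →ₗ[F] (V ⧸ W))) × ((V ⧸ W) →ₗ[F] (V ⧸ W)) ×
        ((V ⧸ W) →ₗ[F] (V ⧸ W))) →
      Finset ((Fin m.length → (V →ₗ[F] V)) × (V →ₗ[F] V) × (V →ₗ[F] V)) := fun p =>
    SX.filter fun x => ∃ h : In2 x.1 x.2.1 x.2.2 W, sb x.1 W h.1 = p.1.1 ∧
      x.2.1.restrict h.2.1 = p.1.2.1 ∧ x.2.2.restrict h.2.2 = p.1.2.2 ∧
      qt x.1 W h.1 = p.2.1 ∧ W.mapQ W x.2.1 h.2.1 = p.2.2.1 ∧ W.mapQ W x.2.2 h.2.2 = p.2.2.2
  -- the weights
  have hwA := par_weight hEVS m hm C₀ κ F W hk z o (fun β => hUPB F W hk z hz o β) SA hSA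
  have hwB := par_weight hEVS m hm C₀ κ F (V ⧸ W) hk z o
    (fun β => hUPB F (V ⧸ W) hk z hz o β) SB hSB
  have hcover : SX.card ≤ ∑ p ∈ SA ×ˢ SB, (Fb p).card := by
    have h1 : SX ⊆ (SA ×ˢ SB).biUnion Fb := by
      intro x hx
      obtain ⟨hx1, h, hx3⟩ := (hSX x).1 hx
      rw [Finset.mem_biUnion]
      refine ⟨((sb x.1 W h.1, x.2.1.restrict h.2.1, x.2.2.restrict h.2.2),
        (qt x.1 W h.1, W.mapQ W x.2.1 h.2.1, W.mapQ W x.2.2 h.2.2)), ?_, ?_⟩
      · rw [Finset.mem_product]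
        exact ⟨(hSA _).2 (par_tu_sb o z m x.1 x.2.1 x.2.2 W h hx1),
          (hSB _).2 (par_tu_qt o z m x.1 x.2.1 x.2.2 W h hx1)⟩
      · exact Finset.mem_filter.2 ⟨hx, h, rfl, rfl, rfl, rfl, rfl, rfl⟩
    exact (Finset.card_le_card h1).trans Finset.card_biUnion_le
  have hfib : ∀ p ∈ SA ×ˢ SB, ((Fb p).card : ℝ) ≤
      q ^ (((m.length : ℝ) + 1) * (kk * ll) -
        ((m.length : ℝ) - sig m) * ((kk : ℝ) + ll) ^ 2 / 2) * H *
      (q ^ ((∑ j, (sq (p.1.1 j) : ℝ)) / 2) * q ^ ((∑ j, (sq (p.2.1 j) : ℝ)) / 2)) := by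
    rintro ⟨⟨a, u, u'⟩, ⟨b, v, v'⟩⟩ hp
    obtain ⟨ha, hb⟩ := Finset.mem_product.1 hp
    obtain ⟨ha1, ha2, ha3, ha4⟩ := (hSA (a, u, u')).1 ha
    obtain ⟨hb1, hb2, hb3, hb4⟩ := (hSB (b, v, v')).1 hb
    rcases (Fb ((a, u, u'), (b, v, v'))).eq_empty_or_nonempty with h0 | ⟨x, hx⟩
    · rw [h0, Finset.card_empty, Nat.cast_zero]
      positivity
    · obtain ⟨hxS, h', hxa, hxu, hxu', hxb, hxv, hxv'⟩ := Finset.mem_filter.1 hx
      obtain ⟨_, h, hxH⟩ := (hSX x).1 hxS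
      have hHm : (Nat.card (Hs o a u u' b v v') : ℝ) ≤ H := by
        have e1 : sb x.1 W h.1 = a := hxa
        have e2 : qt x.1 W h.1 = b := hxb
        have e3 : x.2.1.restrict h.2.1 = u := hxu
        have e4 : W.mapQ W x.2.1 h.2.1 = v := hxv
        have e5 : x.2.2.restrict h.2.2 = u' := hxu'
        have e6 : W.mapQ W x.2.2 h.2.2 = v' := hxv'
        rw [e1, e2, e3, e4, e5, e6] at hxH
        exact hxH
      have h1 := hFIB F V m hm hk z hz o W a u u' b v v' ha1 hb1 ha2 ha3 hb2 hb3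
      have h2 : (Fb ((a, u, u'), (b, v, v'))).card ≤
          Nat.card {x : (Fin m.length → (V →ₗ[F] V)) × (V →ₗ[F] V) × (V →ₗ[F] V) //
          Tu o z m x.1 x.2.1 x.2.2 ∧ ∃ h : In2 x.1 x.2.1 x.2.2 W,
            sb x.1 W h.1 = a ∧ x.2.1.restrict h.2.1 = u ∧ x.2.2.restrict h.2.2 = u' ∧
            qt x.1 W h.1 = b ∧ W.mapQ W x.2.1 h.2.1 = v ∧ W.mapQ W x.2.2 h.2.2 = v'} := by
        rw [← Nat.card_eq_finsetCard]
        refine Nat.card_le_card_of_injective (fun t => ⟨t.1, ?_⟩) ?_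
        · obtain ⟨h5, h6⟩ := Finset.mem_filter.1 t.2
          exact ⟨((hSX t.1).1 h5).1, h6⟩
        · intro t t' htt
          apply Subtype.ext
          exact congrArg (fun s => s.1) htt
      have h3 : ((Fb ((a, u, u'), (b, v, v'))).card : ℝ) * q ^ (kk * ll + pr a b) ≤
          q ^ ((m.length + 2) * (kk * ll)) * H := by
        have h4 : ((Fb ((a, u, u'), (b, v, v'))).card : ℝ) * q ^ (kk * ll + pr a b) ≤
            q ^ ((m.length + 2) * (kk * ll)) * (Nat.card (Hs o a u u' b v v') : ℝ) := by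
          have h5 := (Nat.mul_le_mul_right (Nat.card F ^ (kk * ll + pr a b)) h2).trans h1
          rw [hq]
          exact_mod_cast h5
        exact h4.trans (mul_le_mul_of_nonneg_left hHm (by positivity))
      have hsq : ((m.length : ℝ) - sig m) * ((kk : ℝ) + ll) ^ 2 ≤
          (∑ j, (sq (a j) : ℝ)) + (∑ j, (sq (b j) : ℝ)) + 2 * (pr a b : ℝ) := by
        rw [← sig_eq, Finset.sum_mul]
        have h4 : (∑ j, (sq (a j) : ℝ)) + (∑ j, (sq (b j) : ℝ)) + 2 * (pr a b : ℝ) =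
            ∑ j, ((sq (a j) : ℝ) + (sq (b j) : ℝ) +
              2 * ((∑ᶠ ζ : F, ev (a j) ζ * ev (b j) ζ : ℕ) : ℝ)) := by
          unfold pr
          rw [Finset.sum_add_distrib, Finset.sum_add_distrib, ← Finset.mul_sum]
          push_cast
          rfl
        rw [h4]
        refine Finset.sum_le_sum fun j _ => ?_
        have h5 : m.get j ∈ m := List.get_mem m j
        have h6 := (hEVS F (W × (V ⧸ W)) (m.get j) (by have := hm _ h5; omega) (hk _ h5)).2.1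
          (LinearMap.prodMap (a j) (b j)) (by
            rw [prodMap_pow, ha1 j, hb1 j]
            rfl)
        rw [Module.finrank_prod, ← hkk, ← hll] at h6
        have h7 : (sq (LinearMap.prodMap (a j) (b j)) : ℝ) = (sq (a j) : ℝ) + (sq (b j) : ℝ) +
              2 * ((∑ᶠ ζ : F, ev (a j) ζ * ev (b j) ζ : ℕ) : ℝ) := by
          unfold FL0.sq
          rw [finsum_eq_sum_of_fintype, finsum_eq_sum_of_fintype, finsum_eq_sum_of_fintype,
            finsum_eq_sum_of_fintype]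
          push_cast
          rw [Finset.mul_sum, ← Finset.sum_add_distrib, ← Finset.sum_add_distrib]
          refine Finset.sum_congr rfl fun ζ _ => ?_
          rw [ev_prodMap]
          push_cast
          ring
        rw [h7] at h6
        refine le_trans (le_of_eq ?_) h6
        push_cast
        ring
      -- divide
      have h8 : ((Fb ((a, u, u'), (b, v, v'))).card : ℝ) ≤ q ^ (((m.length : ℝ) + 1) * (kk * ll) - pr a b) * H := by
        have h9 : 0 < q ^ (kk * ll + pr a b) := by positivity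
        have h10 : q ^ (((m.length : ℝ) + 1) * (kk * ll) - pr a b) * q ^ (kk * ll + pr a b) =
            q ^ ((m.length + 2) * (kk * ll)) := by
          rw [← Real.rpow_natCast q (kk * ll + pr a b), ← Real.rpow_natCast q ((m.length + 2) * (kk * ll)),
            ← Real.rpow_add hq0]
          congr 1
          push_cast
          ring
        rw [← h10] at h3
        have h11 : ((Fb ((a, u, u'), (b, v, v'))).card : ℝ) * q ^ (kk * ll + pr a b) ≤
            (q ^ (((m.length : ℝ) + 1) * (kk * ll) - pr a b) * H) * q ^ (kk * ll + pr a b) := by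
          calc _ ≤ _ := h3
            _ = _ := by ring
        exact le_of_mul_le_mul_right h11 h9
      refine h8.trans ?_
      have h12 : q ^ (((m.length : ℝ) + 1) * (kk * ll) - pr a b) ≤
          q ^ (((m.length : ℝ) + 1) * (kk * ll) -
            ((m.length : ℝ) - sig m) * ((kk : ℝ) + ll) ^ 2 / 2) *
          (q ^ ((∑ j, (sq (a j) : ℝ)) / 2) * q ^ ((∑ j, (sq (b j) : ℝ)) / 2)) := by
        rw [← Real.rpow_add hq0, ← Real.rpow_add hq0]
        apply Real.rpow_le_rpow_of_exponent_le hq1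
        linarith
      calc q ^ (((m.length : ℝ) + 1) * (kk * ll) - pr a b) * H
          ≤ (q ^ (((m.length : ℝ) + 1) * (kk * ll) -
            ((m.length : ℝ) - sig m) * ((kk : ℝ) + ll) ^ 2 / 2) *
          (q ^ ((∑ j, (sq (a j) : ℝ)) / 2) * q ^ ((∑ j, (sq (b j) : ℝ)) / 2))) * H :=
            mul_le_mul_of_nonneg_right h12 hH
        _ = _ := by ring
  have hsum : (SX.card : ℝ) ≤ q ^ (((m.length : ℝ) + 1) * (kk * ll) -
        ((m.length : ℝ) - sig m) * ((kk : ℝ) + ll) ^ 2 / 2) * H *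
      ((∑ a ∈ SA, q ^ ((∑ j, (sq (a.1 j) : ℝ)) / 2)) *
        (∑ b ∈ SB, q ^ ((∑ j, (sq (b.1 j) : ℝ)) / 2))) := by
    have h1 : (SX.card : ℝ) ≤ ∑ p ∈ SA ×ˢ SB, ((Fb p).card : ℝ) := by exact_mod_cast hcover
    refine h1.trans ((Finset.sum_le_sum hfib).trans (le_of_eq ?_))
    rw [← Finset.mul_sum, Finset.sum_product, Finset.sum_mul_sum]
  refine hsum.trans ?_
  have hA0 : 0 ≤ ∑ a ∈ SA, q ^ ((∑ j, (sq (a.1 j) : ℝ)) / 2) :=
    Finset.sum_nonneg fun a _ => Real.rpow_nonneg hq0.le _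
  have hB0 : 0 ≤ ∑ b ∈ SB, q ^ ((∑ j, (sq (b.1 j) : ℝ)) / 2) :=
    Finset.sum_nonneg fun a _ => Real.rpow_nonneg hq0.le _
  have h1 : (∑ a ∈ SA, q ^ ((∑ j, (sq (a.1 j) : ℝ)) / 2)) *
        (∑ b ∈ SB, q ^ ((∑ j, (sq (b.1 j) : ℝ)) / 2)) ≤
      (((kk : ℝ) + 1) ^ m.sum * q ^ (C₀ + κ * (kk : ℝ) ^ 2)) *
        (((ll : ℝ) + 1) ^ m.sum * q ^ (C₀ + κ * (ll : ℝ) ^ 2)) :=
    mul_le_mul hwA hwB hB0 (by positivity)
  have h2 := mul_le_mul_of_nonneg_left h1 (by positivity :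
    0 ≤ q ^ (((m.length : ℝ) + 1) * (kk * ll) -
        ((m.length : ℝ) - sig m) * ((kk : ℝ) + ll) ^ 2 / 2) * H)
  refine h2.trans ?_
  have h3 : ((kk : ℝ) + 1) ^ m.sum * ((ll : ℝ) + 1) ^ m.sum ≤
      ((Module.finrank F V : ℝ) + 1) ^ (2 * m.sum) := by
    rw [hn, two_mul, pow_add]
    push_cast
    have e1 : (0 : ℝ) ≤ kk := Nat.cast_nonneg _
    have e2 : (0 : ℝ) ≤ ll := Nat.cast_nonneg _
    apply mul_le_mul
    · exact pow_le_pow_left₀ (by positivity) (by linarith) _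
    · exact pow_le_pow_left₀ (by positivity) (by linarith) _
    · positivity
    · positivity
  have h4 : q ^ (((m.length : ℝ) + 1) * (kk * ll) -
        ((m.length : ℝ) - sig m) * ((kk : ℝ) + ll) ^ 2 / 2) *
      (q ^ (C₀ + κ * (kk : ℝ) ^ 2) * q ^ (C₀ + κ * (ll : ℝ) ^ 2)) =
      q ^ (2 * C₀ + (1 + sig m) * (Module.finrank F V : ℝ) ^ 2 -
          (1 + sig m) * (kk * ll)) := by
    rw [← Real.rpow_add hq0, ← Real.rpow_add hq0, hn, hκ]
    congr 1
    push_cast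
    ring
  calc q ^ (((m.length : ℝ) + 1) * (kk * ll) -
        ((m.length : ℝ) - sig m) * ((kk : ℝ) + ll) ^ 2 / 2) * H *
      ((((kk : ℝ) + 1) ^ m.sum * q ^ (C₀ + κ * (kk : ℝ) ^ 2)) *
        (((ll : ℝ) + 1) ^ m.sum * q ^ (C₀ + κ * (ll : ℝ) ^ 2)))
      = (((kk : ℝ) + 1) ^ m.sum * ((ll : ℝ) + 1) ^ m.sum) *
        (q ^ (((m.length : ℝ) + 1) * (kk * ll) -
        ((m.length : ℝ) - sig m) * ((kk : ℝ) + ll) ^ 2 / 2) *
      (q ^ (C₀ + κ * (kk : ℝ) ^ 2) * q ^ (C₀ + κ * (ll : ℝ) ^ 2))) * H := by ring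
    _ = (((kk : ℝ) + 1) ^ m.sum * ((ll : ℝ) + 1) ^ m.sum) *
        q ^ (2 * C₀ + (1 + sig m) * (Module.finrank F V : ℝ) ^ 2 -
          (1 + sig m) * (kk * ll)) * H := by rw [h4]
    _ ≤ ((Module.finrank F V : ℝ) + 1) ^ (2 * m.sum) *
        q ^ (2 * C₀ + (1 + sig m) * (Module.finrank F V : ℝ) ^ 2 -
          (1 + sig m) * (kk * ll)) * H :=
        mul_le_mul_of_nonneg_right (mul_le_mul_of_nonneg_right h3 (Real.rpow_nonneg hq0.le _)) hH

end

end FLW
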