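import Mathlib
import Pool.Agent.FLW.StW
import Pool.Agent.FLN.RED

/-!
# FLW, module RED: the number of the tuples with an invariant subspace
-/

set_option autoImplicit false

namespace FLW

open RSF FL0 Polynomial Pool.Agent.Lib_helper13

noncomputable section

/-- invertibility of the linear map of an invertible matrix -/
theorem red_isUnit {F : Type} [Field F] {n : ℕ} (A : GL (Fin n) F) : IsUnit (lm A.1) := by
  refine ⟨⟨lm A.1, lm A⁻¹.1, ?_, ?_⟩, rfl⟩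
  · rw [← FLN.red_lm_mul, ← Units.val_mul, mul_inv_cancel, Units.val_one, FLN.red_lm_one]
  · rw [← FLN.red_lm_mul, ← Units.val_mul, inv_mul_cancel, Units.val_one, FLN.red_lm_one]

/-- the equation for the linear maps -/
theorem red_Wl {F : Type} [Field F] {n : ℕ} (o : Bool) (z : F) (X : Matrix (Fin n) (Fin n) F)
    (A B : GL (Fin n) F) (h : X * (wd o A B).1 = Matrix.scalar (Fin n) z) :
    Wl o z (lm X) (lm A.1) (lm B.1) = 0 := by
  cases o with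
  | false =>
    unfold Wl
    rw [if_neg Bool.false_ne_true, sub_eq_zero]
    unfold wd at h
    rw [if_neg Bool.false_ne_true] at h
    have h1 := congrArg lm h
    rw [FLN.red_lm_scalar, FLN.red_lm_mul, Units.val_mul, FLN.red_lm_mul,
      Units.val_pow_eq_pow_val, Units.val_pow_eq_pow_val, FLN.red_lm_pow, FLN.red_lm_pow,
      ← mul_assoc] at h1
    exact h1
  | true =>
    unfold Wl
    rw [if_pos rfl, sub_eq_zero]
    unfold wd at h
    rw [if_pos rfl] at h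
    have h1 : X * A.1 * B.1 = Matrix.scalar (Fin n) z * (B.1 * A.1) := by
      rw [← h, ← Units.val_mul, mul_assoc, mul_assoc, ← Units.val_mul, ← Units.val_mul]
      congr 2
      group
    have h2 := congrArg lm h1
    rw [FLN.red_lm_mul, FLN.red_lm_mul, FLN.red_lm_mul, FLN.red_lm_mul, FLN.red_lm_scalar,
      smul_one_mul] at h2
    exact h2

/-- the counted tuples as tuples of endomorphisms -/
theorem red_card {F : Type} [Field F] [Finite F] {n : ℕ} (m : List ℕ) (z : F) (o : Bool) :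
    Nat.card {t : (Fin m.length → GL (Fin n) F) × GL (Fin n) F × GL (Fin n) F //
        (∀ j, t.1 j ^ m.get j = 1) ∧
        (List.ofFn fun j => (t.1 j).1).prod * (wd o t.2.1 t.2.2).1 = Matrix.scalar (Fin n) z ∧
        ∃ W : Submodule F (Fin n → F), W ≠ ⊥ ∧ W ≠ ⊤ ∧
          (∀ j, ∀ w ∈ W, (t.1 j).1.mulVec w ∈ W) ∧ (∀ w ∈ W, t.2.1.1.mulVec w ∈ W) ∧
          ∀ w ∈ W, t.2.2.1.mulVec w ∈ W} ≤
      Nat.card {x : (Fin m.length → ((Fin n → F) →ₗ[F] (Fin n → F))) ×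
          ((Fin n → F) →ₗ[F] (Fin n → F)) × ((Fin n → F) →ₗ[F] (Fin n → F)) //
          Tu o z m x.1 x.2.1 x.2.2 ∧
          ∃ W : Submodule F (Fin n → F), In2 x.1 x.2.1 x.2.2 W ∧ W ≠ ⊥ ∧ W ≠ ⊤} := by
  have := FLN.red_finEnd (F := F) n
  refine Nat.card_le_card_of_injective (fun t => ⟨⟨fun j => lm (t.1.1 j).1, lm t.1.2.1.1,
    lm t.1.2.2.1⟩, ⟨fun j => ?_, red_isUnit _, red_isUnit _, ?_⟩, ?_⟩) ?_
  · have h := congrArg Units.val (t.2.1 j)
    rw [Units.val_pow_eq_pow_val] at h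
    change lm (t.1.1 j).1 ^ m.get j = 1
    rw [← FLN.red_lm_pow, h]
    exact FLN.red_lm_one
  · have h := red_Wl o z _ t.1.2.1 t.1.2.2 t.2.2.1
    rw [FLN.red_lm_prod, List.map_ofFn] at h
    exact h
  · obtain ⟨W, h1, h2, h3, h4, h5⟩ := t.2.2.2
    refine ⟨W, ⟨fun j w hw => ?_, fun w hw => ?_, fun w hw => ?_⟩, h1, h2⟩
    · rw [Submodule.mem_comap]
      exact h3 j w hw
    · rw [Submodule.mem_comap]
      exact h4 w hw
    · rw [Submodule.mem_comap]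
      exact h5 w hw
  · intro t t' h
    have h1 := congrArg Subtype.val h
    apply Subtype.ext
    apply Prod.ext
    · funext j
      have h2 := congrFun (congrArg Prod.fst h1) j
      exact Units.ext (Matrix.toLin'.injective h2)
    · apply Prod.ext
      · have h2 := congrArg Prod.fst (congrArg Prod.snd h1)
        exact Units.ext (Matrix.toLin'.injective h2)
      · have h2 := congrArg Prod.snd (congrArg Prod.snd h1)
        exact Units.ext (Matrix.toLin'.injective h2)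

/-- the two alternatives of `S_DEC` -/
theorem red_split {F : Type} [Field F] [Finite F] {n : ℕ} (m : List ℕ) (z : F) (o : Bool)
    (c₀ e : ℝ)
    (hD : ∀ (x : Fin m.length → ((Fin n → F) →ₗ[F] (Fin n → F)))
      (a b : (Fin n → F) →ₗ[F] (Fin n → F)),
      (∀ j, x j ^ m.get j = 1) → IsUnit a → IsUnit b →
      (∃ W : Submodule F (Fin n → F), In2 x a b W ∧ W ≠ ⊥ ∧ W ≠ ⊤) →
      (∃ j, c₀ * (n : ℝ) ^ 2 ≤ (sq (x j) : ℝ) - (n : ℝ) ^ 2 / m.get j) ∨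
      ∃ (W : Submodule F (Fin n → F)) (h : In2 x a b W), W ≠ ⊥ ∧ W ≠ ⊤ ∧
        (Nat.card (Hs o (sb x W h.1) (a.restrict h.2.1) (b.restrict h.2.2) (qt x W h.1)
          (W.mapQ W a h.2.1) (W.mapQ W b h.2.2)) : ℝ) ≤
          (Nat.card F : ℝ) ^ (e * Module.finrank F W * Module.finrank F ((Fin n → F) ⧸ W))) :
    Nat.card {x : (Fin m.length → ((Fin n → F) →ₗ[F] (Fin n → F))) ×
          ((Fin n → F) →ₗ[F] (Fin n → F)) × ((Fin n → F) →ₗ[F] (Fin n → F)) //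
          Tu o z m x.1 x.2.1 x.2.2 ∧
          ∃ W : Submodule F (Fin n → F), In2 x.1 x.2.1 x.2.2 W ∧ W ≠ ⊥ ∧ W ≠ ⊤} ≤
      Nat.card {x : (Fin m.length → ((Fin n → F) →ₗ[F] (Fin n → F))) ×
          ((Fin n → F) →ₗ[F] (Fin n → F)) × ((Fin n → F) →ₗ[F] (Fin n → F)) //
          Tu o z m x.1 x.2.1 x.2.2 ∧
          ∃ j, c₀ * (n : ℝ) ^ 2 ≤ (sq (x.1 j) : ℝ) - (n : ℝ) ^ 2 / m.get j} +
      Nat.card {x : (Fin m.length → ((Fin n → F) →ₗ[F] (Fin n → F))) ×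
          ((Fin n → F) →ₗ[F] (Fin n → F)) × ((Fin n → F) →ₗ[F] (Fin n → F)) //
          Tu o z m x.1 x.2.1 x.2.2 ∧
          ∃ (W : Submodule F (Fin n → F)) (h : In2 x.1 x.2.1 x.2.2 W), W ≠ ⊥ ∧ W ≠ ⊤ ∧
            (Nat.card (Hs o (sb x.1 W h.1) (x.2.1.restrict h.2.1) (x.2.2.restrict h.2.2)
              (qt x.1 W h.1) (W.mapQ W x.2.1 h.2.1) (W.mapQ W x.2.2 h.2.2)) : ℝ) ≤
            (Nat.card F : ℝ) ^ (e * Module.finrank F W * Module.finrank F ((Fin n → F) ⧸ W))} := by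
  have := FLN.red_finEnd (F := F) n
  rw [← Set.coe_ofPred, ← Set.coe_ofPred, ← Set.coe_ofPred, Nat.card_coe_set_eq,
    Nat.card_coe_set_eq, Nat.card_coe_set_eq]
  refine (Set.ncard_le_ncard ?_ (Set.toFinite _)).trans (Set.ncard_union_le _ _)
  rintro x ⟨h1, h3⟩
  rcases hD x.1 x.2.1 x.2.2 h1.1 h1.2.1 h1.2.2.1 h3 with h | h
  · exact Or.inl ⟨h1, h⟩
  · exact Or.inr ⟨h1, h⟩

/-- the first alternative -/
theorem red_first {F : Type} [Field F] [Finite F] {n : ℕ} (m : List ℕ) (hm : ∀ k ∈ m, 2 ≤ k)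
    (hdiv : ∀ k ∈ m, k ∣ Nat.card F - 1) (z : F) (o : Bool) (c₀ X : ℝ) (hX : 0 ≤ X)
    (hEVS : S_EVS)
    (hU : ∀ β : Fin m.length → F → ℕ,
      ((m.length : ℝ) - sig m + c₀) * (n : ℝ) ^ 2 ≤ ∑ j, ∑ᶠ ζ : F, (β j ζ : ℝ) ^ 2 →
      (Nat.card {t : (Fin m.length → ((Fin n → F) →ₗ[F] (Fin n → F))) ×
          ((Fin n → F) →ₗ[F] (Fin n → F)) × ((Fin n → F) →ₗ[F] (Fin n → F)) //
        Tu o z m t.1 t.2.1 t.2.2 ∧ ∀ j ζ, ev (t.1 j) ζ = β j ζ} : ℝ) ≤ X) :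
    (Nat.card {x : (Fin m.length → ((Fin n → F) →ₗ[F] (Fin n → F))) ×
          ((Fin n → F) →ₗ[F] (Fin n → F)) × ((Fin n → F) →ₗ[F] (Fin n → F)) //
          Tu o z m x.1 x.2.1 x.2.2 ∧
          ∃ j, c₀ * (n : ℝ) ^ 2 ≤ (sq (x.1 j) : ℝ) - (n : ℝ) ^ 2 / m.get j} : ℝ) ≤
      ((n : ℝ) + 1) ^ m.sum * X := by
  classical
  have := FLN.red_finEnd (F := F) n
  have hk1 : ∀ j : Fin m.length, 1 ≤ m.get j := fun j =>
    (hm _ (List.get_mem m j)).trans' (by norm_num)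
  have hkd : ∀ j : Fin m.length, m.get j ∣ Nat.card F - 1 := fun j =>
    hdiv _ (List.get_mem m j)
  let E : Fin m.length → Set (F → ℕ) := fun j =>
    {β : F → ℕ | ∃ x : (Fin n → F) →ₗ[F] (Fin n → F), x ^ m.get j = 1 ∧ ∀ ζ, ev x ζ = β ζ}
  have hEfin : ∀ j, (E j).Finite := by
    intro j
    refine (Set.finite_range (fun x : (Fin n → F) →ₗ[F] (Fin n → F) => fun ζ : F => ev x ζ)).subset
      ?_
    rintro β ⟨x, -, hx⟩
    exact ⟨x, funext hx⟩
  have hEcard : ∀ j, Nat.card (E j) ≤ (n + 1) ^ m.get j := by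
    intro j
    have h := (hEVS F (Fin n → F) (m.get j) (hk1 j) (hkd j)).2.2.2.1
    rw [Module.finrank_fin_fun] at h
    rw [Nat.card_coe_set_eq]
    exact h
  have : ∀ j, Finite (E j) := fun j => (hEfin j).to_subtype
  let B : Type := {β : ∀ j : Fin m.length, E j //
    ((m.length : ℝ) - sig m + c₀) * (n : ℝ) ^ 2 ≤ ∑ j, ∑ᶠ ζ : F, ((β j).1 ζ : ℝ) ^ 2}
  have : Fintype B := Fintype.ofFinite _
  have hB : (Nat.card B : ℝ) ≤ ((n : ℝ) + 1) ^ m.sum := by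
    have h1 : Nat.card B ≤ Nat.card (∀ j : Fin m.length, E j) :=
      Nat.card_le_card_of_injective (fun β => β.1) Subtype.val_injective
    rw [Nat.card_pi] at h1
    have h2 : ∏ j, Nat.card (E j) ≤ ∏ j : Fin m.length, (n + 1) ^ m.get j :=
      Finset.prod_le_prod' fun j _ => hEcard j
    rw [Finset.prod_pow_eq_pow_sum] at h2
    have h3 : ∑ j : Fin m.length, m.get j = m.sum := by
      rw [← List.sum_ofFn, List.ofFn_get]
    rw [h3] at h2
    exact_mod_cast h1.trans h2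
  have hsig : sig m = ∑ j : Fin m.length, (1 - 1 / (m.get j : ℝ)) := by
    unfold sig
    rw [← Fin.sum_univ_fun_getElem m (fun k : ℕ => 1 - 1 / (k : ℝ))]
    rfl
  have hlow : ∀ x : Fin m.length → ((Fin n → F) →ₗ[F] (Fin n → F)),
      (∀ j, x j ^ m.get j = 1) →
      (∃ j, c₀ * (n : ℝ) ^ 2 ≤ (sq (x j) : ℝ) - (n : ℝ) ^ 2 / m.get j) →
      ((m.length : ℝ) - sig m + c₀) * (n : ℝ) ^ 2 ≤ ∑ j, ∑ᶠ ζ : F, (ev (x j) ζ : ℝ) ^ 2 := by
    rintro x hx ⟨j₀, hj₀⟩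
    have h1 : ∀ j, (sq (x j) : ℝ) = ∑ᶠ ζ : F, (ev (x j) ζ : ℝ) ^ 2 := by
      intro j
      unfold FL0.sq
      have : Fintype F := Fintype.ofFinite F
      rw [finsum_eq_sum_of_fintype, finsum_eq_sum_of_fintype]
      push_cast
      rfl
    have h2 : ∀ j, (n : ℝ) ^ 2 / m.get j ≤ (FL0.sq (x j) : ℝ) := by
      intro j
      have h3 := (hEVS F (Fin n → F) (m.get j) (hk1 j) (hkd j)).2.1 (x j) (hx j)
      rw [Module.finrank_fin_fun] at h3
      exact h3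
    have h4 : c₀ * (n : ℝ) ^ 2 ≤ ∑ j, ((sq (x j) : ℝ) - (n : ℝ) ^ 2 / m.get j) :=
      hj₀.trans (Finset.single_le_sum (f := fun j => (sq (x j) : ℝ) - (n : ℝ) ^ 2 / m.get j)
        (fun j _ => sub_nonneg.2 (h2 j)) (Finset.mem_univ j₀))
    rw [Finset.sum_sub_distrib] at h4
    have h5 : ∑ j : Fin m.length, (n : ℝ) ^ 2 / m.get j =
        ((m.length : ℝ) - sig m) * (n : ℝ) ^ 2 := by
      rw [hsig, Finset.sum_sub_distrib, Finset.sum_const, Finset.card_univ, Fintype.card_fin,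
        nsmul_eq_mul, mul_one, sub_sub_cancel, Finset.sum_mul]
      refine Finset.sum_congr rfl fun j _ => ?_
      rw [one_div, div_eq_inv_mul]
    rw [h5] at h4
    rw [← Finset.sum_congr rfl fun j _ => h1 j]
    linarith
  let T : B → Type := fun β => {t : (Fin m.length → ((Fin n → F) →ₗ[F] (Fin n → F))) ×
          ((Fin n → F) →ₗ[F] (Fin n → F)) × ((Fin n → F) →ₗ[F] (Fin n → F)) //
        Tu o z m t.1 t.2.1 t.2.2 ∧ ∀ j ζ, ev (t.1 j) ζ = (β.1 j).1 ζ}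
  have hTfin : ∀ β, Finite (T β) := fun β => inferInstance
  have h1 : Nat.card {x : (Fin m.length → ((Fin n → F) →ₗ[F] (Fin n → F))) ×
          ((Fin n → F) →ₗ[F] (Fin n → F)) × ((Fin n → F) →ₗ[F] (Fin n → F)) //
          Tu o z m x.1 x.2.1 x.2.2 ∧
          ∃ j, c₀ * (n : ℝ) ^ 2 ≤ (sq (x.1 j) : ℝ) - (n : ℝ) ^ 2 / m.get j} ≤
      Nat.card (Σ β : B, T β) := by
    refine Nat.card_le_card_of_injective (fun x => ⟨⟨fun j => ⟨fun ζ => ev (x.1.1 j) ζ,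
      ⟨x.1.1 j, x.2.1.1 j, fun ζ => rfl⟩⟩, hlow x.1.1 x.2.1.1 x.2.2⟩, ⟨x.1, x.2.1,
      fun j ζ => rfl⟩⟩) ?_
    intro x x' h
    apply Subtype.ext
    have h2 : ∀ p q : (Σ β : B, T β), p = q → p.2.1 = q.2.1 := by
      rintro p q rfl
      rfl
    exact h2 _ _ h
  have h2 : (Nat.card (Σ β : B, T β) : ℝ) ≤ ∑ _β : B, X := by
    rw [Nat.card_sigma, Nat.cast_sum]
    exact Finset.sum_le_sum fun β _ => hU (fun j => (β.1 j).1) β.2
  rw [Finset.sum_const, nsmul_eq_mul, Finset.card_univ, ← Nat.card_eq_fintype_card] at h2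
  exact ((Nat.cast_le.2 h1).trans h2).trans (mul_le_mul_of_nonneg_right hB hX)

/-- the second alternative -/
theorem red_second {F : Type} [Field F] [Finite F] {n : ℕ} (m : List ℕ) (z : F) (o : Bool)
    (e C K σ : ℝ) (hK : 0 ≤ K) (hSUB : S_SUB) (hσ : 1 ≤ C - e)
    (hP : ∀ (W : Submodule F (Fin n → F)) (H : ℝ), 0 ≤ H →
      (Nat.card {x : (Fin m.length → ((Fin n → F) →ₗ[F] (Fin n → F))) ×
          ((Fin n → F) →ₗ[F] (Fin n → F)) × ((Fin n → F) →ₗ[F] (Fin n → F)) //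
          Tu o z m x.1 x.2.1 x.2.2 ∧ ∃ h : In2 x.1 x.2.1 x.2.2 W,
            (Nat.card (Hs o (sb x.1 W h.1) (x.2.1.restrict h.2.1) (x.2.2.restrict h.2.2)
              (qt x.1 W h.1) (W.mapQ W x.2.1 h.2.1) (W.mapQ W x.2.2 h.2.2)) : ℝ) ≤ H} : ℝ) ≤
      K * (Nat.card F : ℝ) ^ (σ -
          C * (Module.finrank F W * Module.finrank F ((Fin n → F) ⧸ W))) * H) :
    (Nat.card {x : (Fin m.length → ((Fin n → F) →ₗ[F] (Fin n → F))) ×
          ((Fin n → F) →ₗ[F] (Fin n → F)) × ((Fin n → F) →ₗ[F] (Fin n → F)) //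
          Tu o z m x.1 x.2.1 x.2.2 ∧
          ∃ (W : Submodule F (Fin n → F)) (h : In2 x.1 x.2.1 x.2.2 W), W ≠ ⊥ ∧ W ≠ ⊤ ∧
            (Nat.card (Hs o (sb x.1 W h.1) (x.2.1.restrict h.2.1) (x.2.2.restrict h.2.2)
              (qt x.1 W h.1) (W.mapQ W x.2.1 h.2.1) (W.mapQ W x.2.2 h.2.2)) : ℝ) ≤
            (Nat.card F : ℝ) ^ (e * Module.finrank F W *
              Module.finrank F ((Fin n → F) ⧸ W))} : ℝ) ≤
      K * (4 * (n : ℝ) * (Nat.card F : ℝ) ^ (σ + (C - e - 1) - (C - e - 1) * n)) := by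
  classical
  have := FLN.red_finEnd (F := F) n
  have : Fintype (RG.Sub n F) := Fintype.ofFinite _
  have hq : (0 : ℝ) < Nat.card F := by exact_mod_cast Nat.card_pos
  let T : RG.Sub n F → Type := fun W =>
    {x : (Fin m.length → ((Fin n → F) →ₗ[F] (Fin n → F))) ×
          ((Fin n → F) →ₗ[F] (Fin n → F)) × ((Fin n → F) →ₗ[F] (Fin n → F)) //
          Tu o z m x.1 x.2.1 x.2.2 ∧ ∃ h : In2 x.1 x.2.1 x.2.2 W.1,
            (Nat.card (Hs o (sb x.1 W.1 h.1) (x.2.1.restrict h.2.1) (x.2.2.restrict h.2.2)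
              (qt x.1 W.1 h.1) (W.1.mapQ W.1 x.2.1 h.2.1) (W.1.mapQ W.1 x.2.2 h.2.2)) : ℝ) ≤
              (Nat.card F : ℝ) ^ (e * Module.finrank F W.1 *
              Module.finrank F ((Fin n → F) ⧸ W.1))}
  have hTfin : ∀ W, Finite (T W) := fun W => inferInstance
  have hex : ∀ x : {x : (Fin m.length → ((Fin n → F) →ₗ[F] (Fin n → F))) ×
          ((Fin n → F) →ₗ[F] (Fin n → F)) × ((Fin n → F) →ₗ[F] (Fin n → F)) //
          Tu o z m x.1 x.2.1 x.2.2 ∧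
          ∃ (W : Submodule F (Fin n → F)) (h : In2 x.1 x.2.1 x.2.2 W), W ≠ ⊥ ∧ W ≠ ⊤ ∧
            (Nat.card (Hs o (sb x.1 W h.1) (x.2.1.restrict h.2.1) (x.2.2.restrict h.2.2)
              (qt x.1 W h.1) (W.mapQ W x.2.1 h.2.1) (W.mapQ W x.2.2 h.2.2)) : ℝ) ≤
            (Nat.card F : ℝ) ^ (e * Module.finrank F W *
              Module.finrank F ((Fin n → F) ⧸ W))},
      ∃ W : RG.Sub n F, ∃ h : In2 x.1.1 x.1.2.1 x.1.2.2 W.1,
            (Nat.card (Hs o (sb x.1.1 W.1 h.1) (x.1.2.1.restrict h.2.1)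
              (x.1.2.2.restrict h.2.2) (qt x.1.1 W.1 h.1) (W.1.mapQ W.1 x.1.2.1 h.2.1)
              (W.1.mapQ W.1 x.1.2.2 h.2.2)) : ℝ) ≤ (Nat.card F : ℝ) ^ (e *
              Module.finrank F W.1 * Module.finrank F ((Fin n → F) ⧸ W.1)) := by
    intro x
    obtain ⟨W, h, h1, h2, h3⟩ := x.2.2
    refine ⟨⟨W, ?_, ?_⟩, h, h3⟩
    · rw [Nat.one_le_iff_ne_zero]
      intro h4
      exact h1 (Submodule.finrank_eq_zero.1 h4)
    · have h4 := Submodule.finrank_lt h2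
      rwa [Module.finrank_fin_fun] at h4
  choose W hW using hex
  have h1 : Nat.card {x : (Fin m.length → ((Fin n → F) →ₗ[F] (Fin n → F))) ×
          ((Fin n → F) →ₗ[F] (Fin n → F)) × ((Fin n → F) →ₗ[F] (Fin n → F)) //
          Tu o z m x.1 x.2.1 x.2.2 ∧
          ∃ (W : Submodule F (Fin n → F)) (h : In2 x.1 x.2.1 x.2.2 W), W ≠ ⊥ ∧ W ≠ ⊤ ∧
            (Nat.card (Hs o (sb x.1 W h.1) (x.2.1.restrict h.2.1) (x.2.2.restrict h.2.2)
              (qt x.1 W h.1) (W.mapQ W x.2.1 h.2.1) (W.mapQ W x.2.2 h.2.2)) : ℝ) ≤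
            (Nat.card F : ℝ) ^ (e * Module.finrank F W *
              Module.finrank F ((Fin n → F) ⧸ W))} ≤ Nat.card (Σ W : RG.Sub n F, T W) := by
    refine Nat.card_le_card_of_injective (fun x => ⟨W x, ⟨x.1, x.2.1, hW x⟩⟩) ?_
    intro x x' h
    apply Subtype.ext
    have h2 : ∀ p q : (Σ W : RG.Sub n F, T W), p = q → p.2.1 = q.2.1 := by
      rintro p q rfl
      rfl
    exact h2 _ _ h
  have h2 : (Nat.card (Σ W : RG.Sub n F, T W) : ℝ) ≤
      ∑ W : RG.Sub n F, K * (Nat.card F : ℝ) ^ (σ - (Module.finrank F W.1 : ℝ) *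
        ((n : ℝ) - Module.finrank F W.1) * (C - e)) := by
    rw [Nat.card_sigma, Nat.cast_sum]
    refine Finset.sum_le_sum fun W _ => ?_
    refine (hP W.1 _ (Real.rpow_nonneg hq.le _)).trans (le_of_eq ?_)
    rw [mul_assoc, ← Real.rpow_add hq]
    congr 2
    have h3 : (Module.finrank F ((Fin n → F) ⧸ W.1) : ℝ) = (n : ℝ) - Module.finrank F W.1 := by
      have h4 := Submodule.finrank_quotient_add_finrank W.1
      rw [Module.finrank_fin_fun] at h4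
      rw [eq_sub_iff_add_eq]
      exact_mod_cast h4
    rw [h3]
    ring
  rw [← Finset.mul_sum] at h2
  exact ((Nat.cast_le.2 h1).trans h2).trans
    (mul_le_mul_of_nonneg_left (RG.sum_le hSUB hσ) hK)

theorem t_RED : M_RED := by
  intro hSUB hEVS hUPB hDEC hPAR m hm hσ
  obtain ⟨C₁, hC₁, hU⟩ := hUPB m hm hσ
  obtain ⟨c₀, hc₀, hD⟩ := hDEC m hm hσ
  obtain ⟨C₂, hC₂, hP⟩ := hPAR m hm hσ
  refine ⟨C₁ + C₂ + (1 + sig m) + 3 + 2 * (m.sum : ℝ) + 1, ⌈sig m / c₀⌉₊, by positivity, ?_⟩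
  intro n hn F _ _ hdiv z hz o
  have hq : (2 : ℝ) ≤ (Nat.card F : ℝ) := by
    exact_mod_cast Finite.one_lt_card (α := F)
  have hq0 : (0 : ℝ) < (Nat.card F : ℝ) := by linarith
  have hq1 : (1 : ℝ) ≤ (Nat.card F : ℝ) := by linarith
  have hn' : (1 + sig m) - 1 ≤ c₀ * n := by
    have h1 : sig m / c₀ ≤ n := (Nat.le_ceil _).trans (by exact_mod_cast hn)
    rw [div_le_iff₀ hc₀] at h1
    linarith
  have h1 := red_card (F := F) (n := n) m z o
  have h2 := red_split (F := F) (n := n) m z o c₀ (((1 + sig m) - 1) / 2) (by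
    intro x a b hx ha hb hW
    have h3 := hD F (Fin n → F) hdiv o x a b hx ha hb hW
    rw [Module.finrank_fin_fun] at h3
    have h4 : ((1 + sig m) - 1) / 2 = sig m / 2 := by ring
    rw [h4]
    exact h3)
  have h3 := red_first (F := F) (n := n) m hm hdiv z o c₀
    ((Nat.card F : ℝ) ^ (C₁ + (((m.length : ℝ) + 1) + (1 + sig m)) / 2 * (n : ℝ) ^ 2 -
      ((((m.length : ℝ) + 1) - (1 + sig m) + c₀) * (n : ℝ) ^ 2) / 2))
      (Real.rpow_nonneg hq0.le _) hEVS (by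
    intro β hβ
    refine (hU F (Fin n → F) hdiv z hz o β).trans ?_
    rw [Module.finrank_fin_fun]
    apply Real.rpow_le_rpow_of_exponent_le hq1
    have h6 : (((m.length : ℝ) + 1) - (1 + sig m) + c₀) = (m.length : ℝ) - sig m + c₀ := by ring
    rw [h6]
    nlinarith)
  have h4 := red_second (F := F) (n := n) m z o (((1 + sig m) - 1) / 2) (1 + sig m)
    (((n : ℝ) + 1) ^ (2 * m.sum)) (C₂ + (1 + sig m) * (n : ℝ) ^ 2) (by positivity) hSUB
    (by linarith) (by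
    intro W H hH
    have h5 := hP F (Fin n → F) hdiv z hz o W H hH
    rw [Module.finrank_fin_fun] at h5
    exact h5)
  have h5 := FLN.red_num (Nat.card F : ℝ) hq n m.sum ((m.length : ℝ) + 1) (1 + sig m) C₁ C₂ c₀
    (by linarith) hC₁ hC₂ hn'
  have h6 : ((1 + sig m) - 1) / 2 = sig m / 2 := by ring
  refine le_trans ?_ (h5.trans (le_of_eq ?_))
  · refine le_trans ?_ (add_le_add h3 h4)
    exact_mod_cast h1.trans h2
  · rw [h6]

end

end FLW
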