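import Mathlib
import Pool.Agent.FLW.StW
import Pool.Agent.FLN.SMP

/-!
# Homomorphisms from a simple module, two more endomorphisms with a sign (module SMP)
-/

set_option autoImplicit false

namespace FLW

open RSF FL0 Polynomial Pool.Agent.Lib_helper13

section

variable {F A B : Type} [Field F] [AddCommGroup A] [Module F A] [AddCommGroup B] [Module F B]
  {d : ℕ} {α : Fin d → (A →ₗ[F] A)} {u p : A →ₗ[F] A}

/-- the two notions of a simple module -/
lemma smp_sin (h : Si2 α u p) : FLN.Sin (Fin.cons u α : Fin (d + 1) → (A →ₗ[F] A)) p := by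
  refine ⟨h.1, fun W hW => h.2 W ⟨fun j => ?_, ?_, hW.2⟩⟩
  · have h1 := hW.1 j.succ
    rwa [Fin.cons_succ] at h1
  · have h1 := hW.1 0
    rwa [Fin.cons_zero] at h1

/-- the homomorphisms as homomorphisms of `FLN` -/
def smp_hom {o : Bool} {β : Fin d → (B →ₗ[F] B)} {v r : B →ₗ[F] B} (f : Hs o α u p β v r) :
    FLN.Hn (Fin.cons u α : Fin (d + 1) → (A →ₗ[F] A)) p
      (Fin.cons (sg F o • v) β : Fin (d + 1) → (B →ₗ[F] B)) (-(sg F o • r)) :=
  ⟨f.1, fun j => by
    refine Fin.cases ?_ (fun i => ?_) j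
    · rw [Fin.cons_zero, Fin.cons_zero, f.2.2.1, LinearMap.smul_comp]
    · rw [Fin.cons_succ, Fin.cons_succ, f.2.1 i], by
    rw [f.2.2.2, LinearMap.neg_comp, neg_neg, LinearMap.smul_comp]⟩

lemma smp_hom_inj {o : Bool} {β : Fin d → (B →ₗ[F] B)} {v r : B →ₗ[F] B} :
    Function.Injective (smp_hom (o := o) (α := α) (u := u) (p := p) (β := β) (v := v) (r := r)) := by
  intro f g h
  have h1 : (smp_hom f).1 = (smp_hom g).1 := by rw [h]
  exact Subtype.ext h1

end

theorem t_SMP : S_SMP := by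
  intro F A B _ _ _ _ _ _ _ _ d o α u p β v r hα
  have : Finite A := Module.finite_of_finite F
  have : Finite B := Module.finite_of_finite F
  have hfin : Finite (FLN.Hn (Fin.cons u α : Fin (d + 1) → (A →ₗ[F] A)) p
      (Fin.cons (sg F o • v) β : Fin (d + 1) → (B →ₗ[F] B)) (-(sg F o • r))) := by
    refine Finite.of_injective (fun f => (f.1 : A → B)) ?_
    intro f g hfg
    exact Subtype.ext (DFunLike.coe_injective hfg)
  have hle := Nat.card_le_card_of_injective
    (smp_hom (o := o) (α := α) (u := u) (p := p) (β := β) (v := v) (r := r)) smp_hom_inj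
  obtain ⟨h1, h2⟩ := FLN.t_SMP F A B (d + 1) (Fin.cons u α) p (Fin.cons (sg F o • v) β)
    (-(sg F o • r)) (smp_sin hα)
  refine ⟨hle.trans h1, ?_⟩
  rintro ⟨j, ζ, h3, h4⟩
  refine (Nat.pow_le_pow_left hle 2).trans (h2 ⟨j.succ, ζ, ?_, ?_⟩)
  · rw [Fin.cons_succ]
    exact h3
  · rw [Fin.cons_succ]
    exact h4

end FLW
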