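import Mathlib
import Pool.Agent.FLW.StW
import Pool.Agent.FL0.UPB

/-!
# Module UPB: upper bound for the number of tuples with given multiplicities
-/

set_option autoImplicit false

namespace FLW

open RSF FL0 Polynomial Pool.Agent.Lib_helper13

noncomputable section

theorem upb_num (q : ℝ) (hq : 2 ≤ q) (d : ℕ) (k : Fin d → ℕ) (s : Fin d → ℝ) (l : ℕ)
    (N P G c : ℝ) (hc : 0 < c) (hP0 : 0 ≤ P) (hG0 : 0 ≤ G)
    (hs : ∀ j, (l : ℝ) ^ 2 / (k j) ≤ s j)
    (hN : N ≤ P * G * (q * (1 + q ^ ((∑ j, (s j - (l : ℝ) ^ 2 / (k j))) / 2 - c * l))))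
    (hP : P ≤ q ^ (2 * ∑ j, (k j : ℝ) + d * (l : ℝ) ^ 2 - ∑ j, s j))
    (hG : G ≤ q ^ ((l : ℝ) ^ 2)) :
    N ≤ q ^ (2 + 2 * ∑ j, (k j : ℝ) + ((d + ∑ j, (1 - 1 / (k j : ℝ))) / 2 + 1) * (l : ℝ) ^ 2 -
      (∑ j, s j) / 2) := by
  have hq0 : 0 < q := by linarith
  have hq1 : 1 ≤ q := by linarith
  set D : ℝ := ∑ j, (s j - (l : ℝ) ^ 2 / (k j)) with hD
  have hD0 : 0 ≤ D := Finset.sum_nonneg fun j _ => by
    have := hs j
    linarith
  have h1 : q ^ (D / 2 - c * l) ≤ q ^ (D / 2) := by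
    apply Real.rpow_le_rpow_of_exponent_le hq1
    have : 0 ≤ c * l := by positivity
    linarith
  have h2 : 1 ≤ q ^ (D / 2) := Real.one_le_rpow hq1 (by linarith)
  have h3 : q * (1 + q ^ (D / 2 - c * l)) ≤ q ^ (2 : ℝ) * q ^ (D / 2) := by
    have h8 : q ^ (2 : ℝ) = q ^ 2 := by exact_mod_cast Real.rpow_natCast q 2
    rw [h8]
    have h5 : 1 + q ^ (D / 2 - c * l) ≤ q * q ^ (D / 2) := by nlinarith
    nlinarith
  have h4 : P * G ≤ q ^ (2 * ∑ j, (k j : ℝ) + d * (l : ℝ) ^ 2 - ∑ j, s j) * q ^ ((l : ℝ) ^ 2) :=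
    mul_le_mul hP hG hG0 (by positivity)
  have h5 := mul_le_mul h4 h3 (by positivity) (by positivity)
  refine (hN.trans h5).trans (le_of_eq ?_)
  rw [← Real.rpow_add hq0, ← Real.rpow_add hq0, ← Real.rpow_add hq0]
  congr 1
  have h8 : D = ∑ j, s j - (l : ℝ) ^ 2 * ∑ j, 1 / (k j : ℝ) := by
    rw [hD, Finset.sum_sub_distrib, Finset.mul_sum]
    congr 1
    refine Finset.sum_congr rfl fun j _ => ?_
    rw [mul_one_div]
  have h9 : ∑ j, (1 - 1 / (k j : ℝ)) = d - ∑ j, 1 / (k j : ℝ) := by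
    rw [Finset.sum_sub_distrib, Finset.sum_const, Finset.card_univ, Fintype.card_fin,
      nsmul_eq_mul, mul_one]
  rw [h8, h9]
  ring

theorem upb_word {l : ℕ} {F : Type} [Field F] (o : Bool) (z : F) (X : Matrix (Fin l) (Fin l) F)
    (A B : GL (Fin l) F)
    (h : (if o then X * A.1 * B.1 - z • (B.1 * A.1) else X * A.1 ^ 2 * B.1 ^ 2 - z • 1) = 0) :
    X * (wd o A B).1 = Matrix.scalar (Fin l) z := by
  have hz : Matrix.scalar (Fin l) z = z • (1 : Matrix (Fin l) (Fin l) F) := by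
    ext i j
    simp [Matrix.scalar_apply, Matrix.diagonal_apply, Matrix.one_apply]
  rw [hz]
  cases o
  · simp only [Bool.false_eq_true, if_false] at h
    have h1 : (wd false A B).1 = A.1 ^ 2 * B.1 ^ 2 := rfl
    rw [h1, ← mul_assoc]
    exact sub_eq_zero.1 h
  · simp only [if_true] at h
    have h1 : (wd true A B).1 = A.1 * B.1 * (A⁻¹).1 * (B⁻¹).1 := rfl
    have h2 : X * (A.1 * B.1 * (A⁻¹).1 * (B⁻¹).1) = X * A.1 * B.1 * (A⁻¹).1 * (B⁻¹).1 := by
      simp only [mul_assoc]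
    have h3 : A.1 * (A⁻¹).1 = 1 := A.mul_inv
    have h4 : B.1 * (B⁻¹).1 = 1 := B.mul_inv
    rw [h1, h2, sub_eq_zero.1 h, smul_mul_assoc, smul_mul_assoc, mul_assoc B.1, h3, mul_one, h4]

open FL0.UPB in
theorem t_UPB : M_UPB := by
  intro hPI hFRO hEVS hCLS m hm hσ
  classical
  obtain ⟨c, r, hc, hFRO⟩ := hFRO m hm hσ
  have hK0 : (0 : ℝ) ≤ ∑ j : Fin m.length, (m.get j : ℝ) :=
    Finset.sum_nonneg fun j _ => Nat.cast_nonneg _
  refine ⟨2 + 2 * ∑ j : Fin m.length, (m.get j : ℝ) + (m.length + 2) * (r : ℝ) ^ 2,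
    by positivity, ?_⟩
  intro F V _ _ _ _ _ hdiv z hz o β
  have hq : (2 : ℝ) ≤ (Nat.card F : ℝ) := by
    exact_mod_cast Finite.one_lt_card (α := F)
  have hq0 : (0 : ℝ) < (Nat.card F : ℝ) := by linarith
  have hq1 : (1 : ℝ) ≤ (Nat.card F : ℝ) := by linarith
  set q : ℝ := (Nat.card F : ℝ) with hqdef
  rcases isEmpty_or_nonempty {t : (Fin m.length → (V →ₗ[F] V)) × (V →ₗ[F] V) × (V →ₗ[F] V) //
        Tu o z m t.1 t.2.1 t.2.2 ∧ ∀ j ζ, ev (t.1 j) ζ = β j ζ} with hempty | hne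
  · rw [Nat.card_of_isEmpty]
    push_cast
    positivity
  obtain ⟨⟨y₀, a₀, b₀⟩, ⟨hy₀, -, -, -⟩, hyβ⟩ := hne.some
  have hk1 : ∀ j : Fin m.length, 1 ≤ m.get j := fun j =>
    (hm _ (List.get_mem m j)).trans' (by norm_num)
  have hkd : ∀ j : Fin m.length, m.get j ∣ Nat.card F - 1 := fun j =>
    hdiv _ (List.get_mem m j)
  set l : ℕ := Module.finrank F V with hl
  let b : Module.Basis (Fin l) F V := Module.finBasis F V
  -- the fixed tuple
  choose y hy1 hy2 using fun j => exists_gv (y₀ j) (hk1 j) (hy₀ j)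
  let Y : Fin m.length → GL (Fin l) F := fun j => toGL b (y j)
  have hYval : ∀ j, (Y j).1 = LinearMap.toMatrixAlgEquiv b (y₀ j) := by
    intro j
    have h := toGL_val b (y j)
    rw [hy1 j] at h
    exact h
  have hYpow : ∀ j, Y j ^ m.get j = 1 := by
    intro j
    change toGL b (y j) ^ m.get j = 1
    rw [← map_pow, hy2 j, map_one]
  have hofn : ∀ (t : Fin m.length → (V →ₗ[F] V)),
      (List.ofFn fun j => LinearMap.toMatrixAlgEquiv b (t j)).prod =
        LinearMap.toMatrixAlgEquiv b (List.ofFn t).prod := by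
    intro t
    have h1 : (List.ofFn fun j => LinearMap.toMatrixAlgEquiv b (t j)) =
        (List.ofFn t).map (LinearMap.toMatrixAlgEquiv b) := by
      rw [List.map_ofFn]
      rfl
    rw [h1, ← map_list_prod]
  have hprodM : ∀ (t : Fin m.length → (V →ₗ[F] V)) (u w : V →ₗ[F] V) (A B : GL (Fin l) F),
      Wl o z (List.ofFn t).prod u w = 0 → A.1 = LinearMap.toMatrixAlgEquiv b u →
      B.1 = LinearMap.toMatrixAlgEquiv b w →
      (List.ofFn fun j => LinearMap.toMatrixAlgEquiv b (t j)).prod * (wd o A B).1 =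
        Matrix.scalar (Fin l) z := by
    intro t u w A B h hA hB
    apply upb_word
    rw [hofn, hA, hB]
    have h1 := congrArg (LinearMap.toMatrixAlgEquiv b) h
    rw [map_zero] at h1
    rw [← h1]
    cases o
    · simp only [Wl, Bool.false_eq_true, if_false, map_sub, map_mul, map_pow, map_smul, map_one]
    · simp only [Wl, if_true, map_sub, map_mul, map_smul]
  have hsq : ∀ j, (sq (lm (Y j).1) : ℝ) = ∑ᶠ ζ : F, (β j ζ : ℝ) ^ 2 := by
    intro j
    rw [hYval j, sq_mat]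
    unfold FL0.sq
    have hyβ' : ∀ ζ, ev (y₀ j) ζ = β j ζ := fun ζ => hyβ j ζ
    simp only [hyβ']
    have : Fintype F := Fintype.ofFinite F
    rw [finsum_eq_sum_of_fintype, finsum_eq_sum_of_fintype]
    push_cast
    rfl
  -- the injection
  have hex : ∀ (A : V →ₗ[F] V) (j : Fin m.length), A ^ m.get j = 1 → (∀ ζ, ev A ζ = β j ζ) →
      ∃ g : GL (Fin l) F, g.1 = LinearMap.toMatrixAlgEquiv b A ∧ IsConj (Y j) g := by
    intro A j hA hAβ
    obtain ⟨x, hx1, hx2⟩ := exists_gv A (hk1 j) hA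
    refine ⟨toGL b x, ?_, ?_⟩
    · rw [← hx1]
      exact toGL_val b x
    · refine (toGL b).map_isConj ?_
      refine (hEVS F V (m.get j) (hk1 j) (hkd j)).1 (y j) x (hy2 j) hx2 fun ζ => ?_
      have h := hyβ j ζ
      rw [hy1 j, hx1, hAβ]
      exact h
  have hexw : ∀ w : V →ₗ[F] V, IsUnit w →
      ∃ g : GL (Fin l) F, g.1 = LinearMap.toMatrixAlgEquiv b w := by
    intro w hw
    obtain ⟨g, hg⟩ := hw.map (LinearMap.toMatrixAlgEquiv b)
    exact ⟨g, hg⟩
  have hfin : Finite (GL (Fin l) F) := by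
    have : Finite (Matrix (Fin l) (Fin l) F) := inferInstance
    exact Finite.of_injective (fun g : GL (Fin l) F => g.1) Units.val_injective
  have hN1 : Nat.card {t : (Fin m.length → (V →ₗ[F] V)) × (V →ₗ[F] V) × (V →ₗ[F] V) //
        Tu o z m t.1 t.2.1 t.2.2 ∧ ∀ j ζ, ev (t.1 j) ζ = β j ζ} ≤
      Nat.card {t : (Fin m.length → GL (Fin l) F) × GL (Fin l) F × GL (Fin l) F //
        (∀ j, IsConj (Y j) (t.1 j)) ∧
        (List.ofFn fun j => (t.1 j).1).prod * (wd o t.2.1 t.2.2).1 =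
          Matrix.scalar (Fin l) z} := by
    choose g hg1 hg2 using hex
    choose h hh using hexw
    refine Nat.card_le_card_of_injective
      (fun t => ⟨(fun j => g (t.1.1 j) j (t.2.1.1 j) (t.2.2 j), h t.1.2.1 t.2.1.2.1,
        h t.1.2.2 t.2.1.2.2.1), fun j => hg2 _ _ _ _, ?_⟩) ?_
    · have h3 := hprodM t.1.1 t.1.2.1 t.1.2.2 (h t.1.2.1 t.2.1.2.1) (h t.1.2.2 t.2.1.2.2.1)
        t.2.1.2.2.2 (hh _ _) (hh _ _)
      simp only [hg1]
      exact h3
    · intro t t' htt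
      apply Subtype.ext
      apply Prod.ext
      · funext j
        have h1 := congrArg (fun u => (u.1.1 j).1) htt
        change (g (t.1.1 j) j _ _).1 = (g (t'.1.1 j) j _ _).1 at h1
        rw [hg1, hg1] at h1
        exact (LinearMap.toMatrixAlgEquiv b).injective h1
      · apply Prod.ext
        · have h1 := congrArg (fun u => (u.1.2.1).1) htt
          change (h t.1.2.1 _).1 = (h t'.1.2.1 _).1 at h1
          rw [hh, hh] at h1
          exact (LinearMap.toMatrixAlgEquiv b).injective h1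
        · have h1 := congrArg (fun u => (u.1.2.2).1) htt
          change (h t.1.2.2 _).1 = (h t'.1.2.2 _).1 at h1
          rw [hh, hh] at h1
          exact (LinearMap.toMatrixAlgEquiv b).injective h1
  have hGL : (Nat.card (GL (Fin l) F) : ℝ) ≤ q ^ ((l : ℝ) ^ 2) := by
    have h1 : Nat.card (GL (Fin l) F) ≤ Nat.card (Fin l → Fin l → F) :=
      Nat.card_le_card_of_injective (fun g : GL (Fin l) F => (g.1 : Fin l → Fin l → F))
        fun _ _ h => Units.ext h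
    rw [Nat.card_fun, Nat.card_fun, Nat.card_eq_fintype_card (α := Fin l), Fintype.card_fin,
      ← pow_mul] at h1
    have h2 : q ^ ((l : ℝ) ^ 2) = q ^ (l * l) := by
      rw [← Real.rpow_natCast q (l * l)]
      push_cast
      ring_nf
    rw [h2, hqdef]
    exact_mod_cast h1
  have hN2 : Nat.card {t : (Fin m.length → GL (Fin l) F) × GL (Fin l) F × GL (Fin l) F //
        (∀ j, IsConj (Y j) (t.1 j)) ∧
        (List.ofFn fun j => (t.1 j).1).prod * (wd o t.2.1 t.2.2).1 = Matrix.scalar (Fin l) z} ≤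
      (∏ j, Nat.card {t : GL (Fin l) F // IsConj (Y j) t}) *
        (Nat.card (GL (Fin l) F) * Nat.card (GL (Fin l) F)) := by
    rw [← Nat.card_pi, ← Nat.card_prod, ← Nat.card_prod]
    refine Nat.card_le_card_of_injective
      (fun t => (fun j => ⟨t.1.1 j, t.2.1 j⟩, t.1.2.1, t.1.2.2)) ?_
    intro t t' h
    apply Subtype.ext
    apply Prod.ext
    · have h2 := congrArg Prod.fst h
      funext j
      exact congrArg Subtype.val (congrFun h2 j)
    · have h2 := congrArg Prod.snd h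
      exact h2
  have hcl : ∀ j, (Nat.card {t : GL (Fin l) F // IsConj (Y j) t} : ℝ) ≤
      4 ^ (m.get j) * q ^ ((l : ℝ) ^ 2 - ∑ᶠ ζ : F, (β j ζ : ℝ) ^ 2) := by
    intro j
    have h1 := hCLS F l (m.get j) (hk1 j) (hkd j) (Y j) (hYpow j)
    rw [hsq j] at h1
    exact h1
  have hP := prod_le q hq m.length m.get (fun j => ∑ᶠ ζ : F, (β j ζ : ℝ) ^ 2)
    (fun j => (Nat.card {t : GL (Fin l) F // IsConj (Y j) t} : ℝ)) l
    (fun j => Nat.cast_nonneg _) hcl
  have hs0 : ∀ j, 0 ≤ ∑ᶠ ζ : F, (β j ζ : ℝ) ^ 2 := fun j =>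
    finsum_nonneg fun ζ => by positivity
  have hS0 : 0 ≤ ∑ j, ∑ᶠ ζ : F, (β j ζ : ℝ) ^ 2 := Finset.sum_nonneg fun j _ => hs0 j
  have hexp : 0 ≤ ((m.length + sig m) / 2 : ℝ) := by
    have : (0 : ℝ) ≤ m.length := Nat.cast_nonneg _
    linarith
  refine (Nat.cast_le.mpr hN1).trans ?_
  rcases le_or_gt r l with hrl | hrl
  · -- large dimension
    have h1 := (hFRO l hrl F hdiv z hz o Y hYpow).2
    have hsum : ∑ j, del (m.get j) (Y j).1 = ∑ j : Fin m.length,
        ((∑ᶠ ζ : F, (β j ζ : ℝ) ^ 2) - (l : ℝ) ^ 2 / (m.get j : ℝ)) := by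
      refine Finset.sum_congr rfl fun j _ => ?_
      unfold del
      rw [hsq j]
    rw [hsum] at h1
    have hs : ∀ j : Fin m.length, (l : ℝ) ^ 2 / (m.get j : ℝ) ≤ ∑ᶠ ζ : F, (β j ζ : ℝ) ^ 2 := by
      intro j
      have h2 := (hEVS F V (m.get j) (hk1 j) (hkd j)).2.1 (y₀ j) (hy₀ j)
      have h3 : (sq (y₀ j) : ℝ) = ∑ᶠ ζ : F, (β j ζ : ℝ) ^ 2 := by
        rw [← hsq j, hYval j, sq_mat]
      rw [h3] at h2
      exact h2
    have h2 := upb_num q hq m.length m.get (fun j => ∑ᶠ ζ : F, (β j ζ : ℝ) ^ 2) l _ _ _ c hc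
      (Finset.prod_nonneg fun j _ => Nat.cast_nonneg _) (Nat.cast_nonneg _) hs h1 hP hGL
    refine h2.trans (Real.rpow_le_rpow_of_exponent_le hq1 ?_)
    rw [← sig_eq]
    have : 0 ≤ ((m.length : ℝ) + 2) * (r : ℝ) ^ 2 := by positivity
    linarith
  · -- small dimension
    have h1 : ((Nat.card {t : (Fin m.length → GL (Fin l) F) × GL (Fin l) F × GL (Fin l) F //
        (∀ j, IsConj (Y j) (t.1 j)) ∧
        (List.ofFn fun j => (t.1 j).1).prod * (wd o t.2.1 t.2.2).1 =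
          Matrix.scalar (Fin l) z} : ℕ) : ℝ) ≤
        (∏ j, (Nat.card {t : GL (Fin l) F // IsConj (Y j) t} : ℝ)) *
          ((Nat.card (GL (Fin l) F) : ℝ) * Nat.card (GL (Fin l) F)) := by
      exact_mod_cast hN2
    have h6 := mul_le_mul hGL hGL (Nat.cast_nonneg _) (by positivity)
    have h5 := mul_le_mul hP h6 (by positivity) (by positivity)
    rw [← Real.rpow_add hq0, ← Real.rpow_add hq0] at h5
    refine (h1.trans h5).trans (Real.rpow_le_rpow_of_exponent_le hq1 ?_)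
    have h2 : (l : ℝ) ≤ r := by exact_mod_cast hrl.le
    have h3 : ((m.length : ℝ) + 2) * (l : ℝ) ^ 2 ≤ (m.length + 2) * (r : ℝ) ^ 2 := by gcongr
    have h4 : 0 ≤ ((m.length + sig m) / 2 + 1 : ℝ) * (l : ℝ) ^ 2 := by positivity
    linarith

end

end FLW
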