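import Mathlib
import Pool.Agent.FLW.StW
import Pool.Agent.FL0.ZAN

/-!
# FLW, module ZAN: the cokernel of the product map
-/

set_option autoImplicit false

namespace FLW

open RSF FL0 Polynomial

noncomputable section

section

variable {F A B : Type} [Field F] [AddCommGroup A] [Module F A] [AddCommGroup B] [Module F B]

theorem zan_true {d : ℕ} (z : F) (a : Fin d → (A →ₗ[F] A)) (u p : A →ₗ[F] A)
    (b : Fin d → (B →ₗ[F] B)) (v r : B →ₗ[F] B) (c : Fin d → (B →ₗ[F] A)) (e f : B →ₗ[F] A) :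
    u2 true z a u p b v r c e f =
      (List.ofFn a).prod ∘ₗ u ∘ₗ f + (List.ofFn a).prod ∘ₗ e ∘ₗ r + ur a b c ∘ₗ v ∘ₗ r -
        z • (p ∘ₗ e + f ∘ₗ v) := by
  unfold u2 Wl
  rw [if_pos rfl, ZAN_aux.prod_bk, ZAN_aux.bk_mul, ZAN_aux.bk_mul, ZAN_aux.bk_mul,
    LinearMap.sub_comp, LinearMap.comp_sub, ZAN_aux.ur_bk, LinearMap.smul_comp,
    LinearMap.comp_smul, ZAN_aux.ur_bk, LinearMap.add_comp, ← add_assoc]
  rfl

theorem zan_false {d : ℕ} (z : F) (a : Fin d → (A →ₗ[F] A)) (u p : A →ₗ[F] A)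
    (b : Fin d → (B →ₗ[F] B)) (v r : B →ₗ[F] B) (c : Fin d → (B →ₗ[F] A)) (e f : B →ₗ[F] A) :
    u2 false z a u p b v r c e f =
      (List.ofFn a).prod ∘ₗ u ∘ₗ u ∘ₗ (p ∘ₗ f + f ∘ₗ r) +
        (List.ofFn a).prod ∘ₗ (u ∘ₗ e + e ∘ₗ v) ∘ₗ r ∘ₗ r +
          ur a b c ∘ₗ v ∘ₗ v ∘ₗ r ∘ₗ r := by
  have h1 : LinearMap.fst F A B ∘ₗ (z • (1 : (A × B) →ₗ[F] (A × B))) ∘ₗ LinearMap.inr F A B =
      0 := by
    refine LinearMap.ext fun x => ?_
    simp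
  unfold u2 Wl
  rw [if_neg (by simp), ZAN_aux.prod_bk, _root_.sq, _root_.sq, ZAN_aux.bk_mul, ZAN_aux.bk_mul,
    ZAN_aux.bk_mul, ZAN_aux.bk_mul, LinearMap.sub_comp, LinearMap.comp_sub, ZAN_aux.ur_bk, h1,
    sub_zero, LinearMap.add_comp, ← add_assoc]
  rfl

/-- The product map on the tuples of commutators. -/
def zan_Phi {d : ℕ} (o : Bool) (z : F) (a : Fin d → (A →ₗ[F] A)) (u p : A →ₗ[F] A)
    (b : Fin d → (B →ₗ[F] B)) (v r : B →ₗ[F] B) :
    ((Fin d → (B →ₗ[F] A)) × (B →ₗ[F] A) × (B →ₗ[F] A)) →ₗ[F] (B →ₗ[F] A) where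
  toFun h := u2 o z a u p b v r (fun j => a j ∘ₗ h.1 j - h.1 j ∘ₗ b j) h.2.1 h.2.2
  map_add' h h' := by
    have h1 : ur a b (fun j => a j ∘ₗ (h + h').1 j - (h + h').1 j ∘ₗ b j) =
        ur a b (fun j => a j ∘ₗ h.1 j - h.1 j ∘ₗ b j) +
          ur a b (fun j => a j ∘ₗ h'.1 j - h'.1 j ∘ₗ b j) :=
      (ZAN_aux.Phi a b).map_add h.1 h'.1
    cases o
    · rw [zan_false, zan_false, zan_false, h1, Prod.snd_add, Prod.fst_add, Prod.snd_add]
      simp only [LinearMap.comp_add, LinearMap.add_comp]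
      abel
    · rw [zan_true, zan_true, zan_true, h1, Prod.snd_add, Prod.fst_add, Prod.snd_add]
      simp only [LinearMap.comp_add, LinearMap.add_comp, smul_add]
      abel
  map_smul' t h := by
    have h1 : ur a b (fun j => a j ∘ₗ (t • h).1 j - (t • h).1 j ∘ₗ b j) =
        t • ur a b (fun j => a j ∘ₗ h.1 j - h.1 j ∘ₗ b j) :=
      (ZAN_aux.Phi a b).map_smul t h.1
    cases o
    · rw [zan_false, zan_false, h1, Prod.smul_snd, Prod.smul_fst, Prod.smul_snd,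
        RingHom.id_apply]
      simp only [LinearMap.comp_smul, LinearMap.smul_comp, smul_add, LinearMap.comp_add,
        LinearMap.add_comp]
    · rw [zan_true, zan_true, h1, Prod.smul_snd, Prod.smul_fst, Prod.smul_snd,
        RingHom.id_apply]
      simp only [LinearMap.comp_smul, LinearMap.smul_comp, smul_add, LinearMap.comp_add,
        LinearMap.add_comp, smul_sub]
      simp only [smul_comm z t]

/-- the trace of a cyclic permutation -/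
theorem zan_cyc [FiniteDimensional F A] [FiniteDimensional F B] (X : A →ₗ[F] B)
    (Y : B →ₗ[F] A) (w : B →ₗ[F] B) :
    LinearMap.trace F B (X ∘ₗ Y ∘ₗ w) = LinearMap.trace F B ((w ∘ₗ X) ∘ₗ Y) := by
  have h : LinearMap.trace F B (w ∘ₗ (X ∘ₗ Y)) = LinearMap.trace F B ((X ∘ₗ Y) ∘ₗ w) :=
    LinearMap.trace_comp_comm' (X ∘ₗ Y) w
  exact h.symm

/-- the maps commute with the `a j`, `b j` -/
theorem zan_comm [FiniteDimensional F A] [FiniteDimensional F B] {d : ℕ} {z : F} (hz : z ≠ 0)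
    (a : Fin d → (A →ₗ[F] A)) (b : Fin d → (B →ₗ[F] B)) (w : B →ₗ[F] B) (T T' : A →ₗ[F] B)
    (h : ∀ h : Fin d → (B →ₗ[F] A),
      LinearMap.trace F B ((w ∘ₗ T) ∘ₗ ur a b (fun j => a j ∘ₗ h j - h j ∘ₗ b j)) = 0)
    (hb : (List.ofFn b).prod ∘ₗ w ∘ₗ T = z • T') (j : Fin d) : T' ∘ₗ a j = b j ∘ₗ T' := by
  obtain ⟨Y, hY1, hY2⟩ := ZAN_aux.claim a b (w ∘ₗ T) h j
  rw [hb] at hY1 hY2
  have h1 : z • (T' ∘ₗ a j) = z • (b j ∘ₗ T') := by
    rw [← LinearMap.smul_comp, ← LinearMap.comp_smul, ← hY2, LinearMap.comp_assoc, hY1, hY2]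
  exact smul_right_injective _ hz h1

/-- the oriented case -/
theorem zan_alg_true {z : F} (hz : z ≠ 0) (P u p : A →ₗ[F] A) (v r : B →ₗ[F] B)
    (T : A →ₗ[F] B) (hP : P ∘ₗ u ∘ₗ p = z • (p ∘ₗ u)) (hE : r ∘ₗ T ∘ₗ P = z • (T ∘ₗ p))
    (hF : T ∘ₗ P ∘ₗ u = z • (v ∘ₗ T)) :
    (r ∘ₗ v ∘ₗ T) ∘ₗ u = v ∘ₗ r ∘ₗ v ∘ₗ T ∧ (r ∘ₗ v ∘ₗ T) ∘ₗ p = r ∘ₗ r ∘ₗ v ∘ₗ T := by
  have h1 : T ∘ₗ p ∘ₗ u = v ∘ₗ T ∘ₗ p := by
    have : z • (T ∘ₗ p ∘ₗ u) = z • (v ∘ₗ T ∘ₗ p) := by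
      calc z • (T ∘ₗ p ∘ₗ u) = T ∘ₗ (P ∘ₗ u ∘ₗ p) := by rw [hP, LinearMap.comp_smul]
        _ = (T ∘ₗ P ∘ₗ u) ∘ₗ p := rfl
        _ = z • (v ∘ₗ T ∘ₗ p) := by rw [hF, LinearMap.smul_comp]; rfl
    exact smul_right_injective _ hz this
  have h2 : r ∘ₗ v ∘ₗ T = T ∘ₗ p ∘ₗ u := by
    have : z • (r ∘ₗ v ∘ₗ T) = z • (T ∘ₗ p ∘ₗ u) := by
      calc z • (r ∘ₗ v ∘ₗ T) = r ∘ₗ (z • (v ∘ₗ T)) := by rw [LinearMap.comp_smul]
        _ = (r ∘ₗ T ∘ₗ P) ∘ₗ u := by rw [← hF]; rfl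
        _ = z • (T ∘ₗ p ∘ₗ u) := by rw [hE, LinearMap.smul_comp]; rfl
    exact smul_right_injective _ hz this
  constructor
  · calc (r ∘ₗ v ∘ₗ T) ∘ₗ u = (v ∘ₗ T ∘ₗ p) ∘ₗ u := by rw [h2, h1]
      _ = v ∘ₗ (T ∘ₗ p ∘ₗ u) := rfl
      _ = v ∘ₗ r ∘ₗ v ∘ₗ T := by rw [← h2]
  · calc (r ∘ₗ v ∘ₗ T) ∘ₗ p = r ∘ₗ (v ∘ₗ T ∘ₗ p) := rfl
      _ = r ∘ₗ r ∘ₗ v ∘ₗ T := by rw [← h1, ← h2]

/-- the non-oriented case -/
theorem zan_alg_false {z : F} (hz : z ≠ 0) (P u p : A →ₗ[F] A) (v r : B →ₗ[F] B)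
    (T : A →ₗ[F] B) (hP : P ∘ₗ u ∘ₗ u ∘ₗ p ∘ₗ p = z • (1 : A →ₗ[F] A))
    (hE : r ∘ₗ r ∘ₗ T ∘ₗ P ∘ₗ u = -(v ∘ₗ r ∘ₗ r ∘ₗ T ∘ₗ P))
    (hF : T ∘ₗ P ∘ₗ u ∘ₗ u ∘ₗ p = -(r ∘ₗ T ∘ₗ P ∘ₗ u ∘ₗ u)) :
    T ∘ₗ u = -(v ∘ₗ T) ∧ T ∘ₗ p = -(r ∘ₗ T) := by
  have h0 : T ∘ₗ ((z • (1 : A →ₗ[F] A)) : A →ₗ[F] A) = z • T := by
    refine LinearMap.ext fun x => ?_
    simp
  have h1 : z • T = r ∘ₗ r ∘ₗ T ∘ₗ P ∘ₗ u ∘ₗ u := by
    calc z • T = (T ∘ₗ P ∘ₗ u ∘ₗ u ∘ₗ p) ∘ₗ p := by rw [← h0, ← hP]; rfl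
      _ = -(r ∘ₗ (T ∘ₗ P ∘ₗ u ∘ₗ u ∘ₗ p)) := by
        conv_lhs => rw [hF]
        rw [LinearMap.neg_comp]
        rfl
      _ = r ∘ₗ r ∘ₗ T ∘ₗ P ∘ₗ u ∘ₗ u := by rw [hF, LinearMap.comp_neg, neg_neg]
  constructor
  · have : z • (T ∘ₗ u) = z • (-(v ∘ₗ T)) := by
      calc z • (T ∘ₗ u) = (z • T) ∘ₗ u := (LinearMap.smul_comp _ _ _).symm
        _ = (r ∘ₗ r ∘ₗ T ∘ₗ P ∘ₗ u) ∘ₗ u ∘ₗ u := by rw [h1]; rfl
        _ = -(v ∘ₗ (r ∘ₗ r ∘ₗ T ∘ₗ P ∘ₗ u ∘ₗ u)) := by rw [hE, LinearMap.neg_comp]; rfl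
        _ = z • (-(v ∘ₗ T)) := by rw [← h1, LinearMap.comp_smul, smul_neg]
    exact smul_right_injective _ hz this
  · have : z • (T ∘ₗ p) = z • (-(r ∘ₗ T)) := by
      calc z • (T ∘ₗ p) = (z • T) ∘ₗ p := (LinearMap.smul_comp _ _ _).symm
        _ = r ∘ₗ r ∘ₗ (T ∘ₗ P ∘ₗ u ∘ₗ u ∘ₗ p) := by rw [h1]; rfl
        _ = -(r ∘ₗ (r ∘ₗ r ∘ₗ T ∘ₗ P ∘ₗ u ∘ₗ u)) := by
          rw [hF, LinearMap.comp_neg, LinearMap.comp_neg]
        _ = z • (-(r ∘ₗ T)) := by rw [← h1, LinearMap.comp_smul, smul_neg]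
    exact smul_right_injective _ hz this

end

/-- ZAN. -/
theorem t_ZAN : S_ZAN := by
  intro F A B _ _ _ _ _ _ _ _ d z hz o a u p b v r hu hp hv hr ha hb
  have hfin : Finite (A →ₗ[F] B) := Module.finite_of_finite F
  have hfin' : Finite (Hs o a u p b v r) := by
    unfold Hs
    infer_instance
  have hI : Nat.card {y : B →ₗ[F] A // ∃ (h : Fin d → (B →ₗ[F] A)) (e f : B →ₗ[F] A),
      u2 o z a u p b v r (fun j => a j ∘ₗ h j - h j ∘ₗ b j) e f = y} =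
      Nat.card F ^ Module.finrank F (LinearMap.range (zan_Phi o z a u p b v r)) := by
    rw [← Module.natCard_eq_pow_finrank]
    exact Nat.card_congr (Equiv.subtypeEquivRight fun y =>
      ⟨fun ⟨h, e, f, k⟩ => ⟨(h, e, f), k⟩, fun ⟨⟨h, e, f⟩, k⟩ => ⟨h, e, f, k⟩⟩)
  have hA : Nat.card (LinearMap.range (zan_Phi o z a u p b v r)).dualAnnihilator =
      Nat.card F ^
        Module.finrank F (LinearMap.range (zan_Phi o z a u p b v r)).dualAnnihilator :=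
    Module.natCard_eq_pow_finrank (K := F)
      (V := ((LinearMap.range (zan_Phi o z a u p b v r)).dualAnnihilator :
        Submodule F (Module.Dual F (B →ₗ[F] A))))
  have hsum := Subspace.finrank_add_finrank_dualAnnihilator_eq
    (LinearMap.range (zan_Phi o z a u p b v r))
  have hle : Nat.card (LinearMap.range (zan_Phi o z a u p b v r)).dualAnnihilator ≤
      Nat.card (Hs o a u p b v r) := by
    have key : ∀ ψ : (LinearMap.range (zan_Phi o z a u p b v r)).dualAnnihilator,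
        ∃ (T : A →ₗ[F] B) (T' : Hs o a u p b v r), ZAN_aux.tau T = ψ.1 ∧
          T'.1 = if o then r ∘ₗ v ∘ₗ T else T := by
      intro ψ
      obtain ⟨T, hT⟩ := ZAN_aux.tau_surj (F := F) (A := A) (B := B) ψ.1
      have hker : ∀ (h : Fin d → (B →ₗ[F] A)) (e f : B →ₗ[F] A),
          LinearMap.trace F B
            (T ∘ₗ u2 o z a u p b v r (fun j => a j ∘ₗ h j - h j ∘ₗ b j) e f) = 0 := by
        intro h e f
        have h1 := (Submodule.mem_dualAnnihilator ψ.1).1 ψ.2 (zan_Phi o z a u p b v r (h, e, f))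
          ⟨_, rfl⟩
        rw [← hT] at h1
        exact h1
      have hur : ur a b (fun j => a j ∘ₗ (0 : Fin d → (B →ₗ[F] A)) j -
          (0 : Fin d → (B →ₗ[F] A)) j ∘ₗ b j) = 0 := (ZAN_aux.Phi a b).map_zero
      set P : A →ₗ[F] A := (List.ofFn a).prod with hP
      set R : B →ₗ[F] B := (List.ofFn b).prod with hR
      cases o
      · -- the non-oriented case
        have hPz : P ∘ₗ u ∘ₗ u ∘ₗ p ∘ₗ p = z • (1 : A →ₗ[F] A) := by
          have h1 := sub_eq_zero.1 ha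
          rw [_root_.sq, _root_.sq] at h1
          rw [← h1]
          rfl
        have hRz : R ∘ₗ v ∘ₗ v ∘ₗ r ∘ₗ r = z • (1 : B →ₗ[F] B) := by
          have h1 := sub_eq_zero.1 hb
          rw [_root_.sq, _root_.sq] at h1
          rw [← h1]
          rfl
        have hE : r ∘ₗ r ∘ₗ T ∘ₗ P ∘ₗ u = -(v ∘ₗ r ∘ₗ r ∘ₗ T ∘ₗ P) := by
          rw [← sub_eq_zero, sub_neg_eq_add]
          refine ZAN_aux.tau_inj _ fun X => ?_
          have h1 := hker 0 X 0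
          rw [zan_false, hur] at h1
          simp only [LinearMap.comp_zero, LinearMap.zero_comp, add_zero, zero_add] at h1
          have h2 : LinearMap.trace F B ((r ∘ₗ r ∘ₗ T ∘ₗ P ∘ₗ u) ∘ₗ X) =
              LinearMap.trace F B ((T ∘ₗ P ∘ₗ u) ∘ₗ X ∘ₗ (r ∘ₗ r)) :=
            (zan_cyc (T ∘ₗ P ∘ₗ u) X (r ∘ₗ r)).symm
          have h3 : LinearMap.trace F B ((v ∘ₗ r ∘ₗ r ∘ₗ T ∘ₗ P) ∘ₗ X) =
              LinearMap.trace F B ((T ∘ₗ P) ∘ₗ X ∘ₗ (v ∘ₗ r ∘ₗ r)) :=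
            (zan_cyc (T ∘ₗ P) X (v ∘ₗ r ∘ₗ r)).symm
          rw [LinearMap.add_comp, map_add, h2, h3, ← map_add, ← h1]
          congr 1
          simp only [LinearMap.comp_add, LinearMap.add_comp, LinearMap.comp_assoc, hP]
        have hF : T ∘ₗ P ∘ₗ u ∘ₗ u ∘ₗ p = -(r ∘ₗ T ∘ₗ P ∘ₗ u ∘ₗ u) := by
          rw [← sub_eq_zero, sub_neg_eq_add]
          refine ZAN_aux.tau_inj _ fun X => ?_
          have h1 := hker 0 0 X
          rw [zan_false, hur] at h1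
          simp only [LinearMap.comp_zero, LinearMap.zero_comp, add_zero, zero_add] at h1
          have h3 : LinearMap.trace F B ((r ∘ₗ T ∘ₗ P ∘ₗ u ∘ₗ u) ∘ₗ X) =
              LinearMap.trace F B ((T ∘ₗ P ∘ₗ u ∘ₗ u) ∘ₗ X ∘ₗ r) :=
            (zan_cyc (T ∘ₗ P ∘ₗ u ∘ₗ u) X r).symm
          rw [LinearMap.add_comp, map_add, h3, ← map_add, ← h1]
          congr 1
          simp only [LinearMap.comp_add, LinearMap.comp_assoc, hP]
        obtain ⟨h1, h2⟩ := zan_alg_false hz P u p v r T hPz hE hF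
        refine ⟨T, ⟨T, fun j => ?_, ?_, ?_⟩, hT, by simp⟩
        · refine zan_comm hz a b (v ∘ₗ v ∘ₗ r ∘ₗ r) T T (fun h => ?_) ?_ j
          · have h3 := hker h 0 0
            rw [zan_false] at h3
            simp only [LinearMap.comp_zero, LinearMap.zero_comp, add_zero, zero_add] at h3
            rw [← zan_cyc]
            exact h3
          · calc R ∘ₗ (v ∘ₗ v ∘ₗ r ∘ₗ r) ∘ₗ T = (R ∘ₗ v ∘ₗ v ∘ₗ r ∘ₗ r) ∘ₗ T := rfl
              _ = z • T := by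
                rw [hRz]
                refine LinearMap.ext fun x => ?_
                simp
        · rw [h1]
          simp [sg]
        · rw [h2]
          simp [sg]
      · -- the oriented case
        have hPz : P ∘ₗ u ∘ₗ p = z • (p ∘ₗ u) := sub_eq_zero.1 ha
        have hRz : R ∘ₗ v ∘ₗ r = z • (r ∘ₗ v) := sub_eq_zero.1 hb
        have hE : r ∘ₗ T ∘ₗ P = z • (T ∘ₗ p) := by
          rw [← sub_eq_zero]
          refine ZAN_aux.tau_inj _ fun X => ?_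
          have h1 := hker 0 X 0
          rw [zan_true, hur] at h1
          simp only [LinearMap.comp_zero, LinearMap.zero_comp, add_zero, zero_add] at h1
          have h2 : LinearMap.trace F B ((r ∘ₗ T ∘ₗ P) ∘ₗ X) =
              LinearMap.trace F B ((T ∘ₗ P) ∘ₗ X ∘ₗ r) := (zan_cyc (T ∘ₗ P) X r).symm
          rw [LinearMap.sub_comp, map_sub, h2, ← map_sub, ← h1]
          congr 1
          rw [LinearMap.comp_sub, LinearMap.comp_smul, LinearMap.smul_comp]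
          rfl
        have hF : T ∘ₗ P ∘ₗ u = z • (v ∘ₗ T) := by
          rw [← sub_eq_zero]
          refine ZAN_aux.tau_inj _ fun X => ?_
          have h1 := hker 0 0 X
          rw [zan_true, hur] at h1
          simp only [LinearMap.comp_zero, LinearMap.zero_comp, add_zero, zero_add] at h1
          have h2 : LinearMap.trace F B ((z • (v ∘ₗ T)) ∘ₗ X) =
              LinearMap.trace F B (z • (T ∘ₗ X ∘ₗ v)) := by
            rw [LinearMap.smul_comp, map_smul, map_smul, zan_cyc]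
          rw [LinearMap.sub_comp, map_sub, h2, ← map_sub, ← h1]
          congr 1
          rw [LinearMap.comp_sub, LinearMap.comp_smul]
          rfl
        obtain ⟨h1, h2⟩ := zan_alg_true hz P u p v r T hPz hE hF
        refine ⟨T, ⟨r ∘ₗ v ∘ₗ T, fun j => ?_, ?_, ?_⟩, hT, by simp⟩
        · refine zan_comm hz a b (v ∘ₗ r) T (r ∘ₗ v ∘ₗ T) (fun h => ?_) ?_ j
          · have h3 := hker h 0 0
            rw [zan_true] at h3
            simp only [LinearMap.comp_zero, LinearMap.zero_comp, add_zero, zero_add, smul_zero,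
              sub_zero] at h3
            rw [← zan_cyc]
            exact h3
          · calc R ∘ₗ (v ∘ₗ r) ∘ₗ T = (R ∘ₗ v ∘ₗ r) ∘ₗ T := rfl
              _ = z • (r ∘ₗ v ∘ₗ T) := by rw [hRz, LinearMap.smul_comp]; rfl
        · rw [h1]
          simp [sg]
        · rw [h2]
          simp [sg]
    choose g g' hg hg' using key
    refine Nat.card_le_card_of_injective g' fun ψ ψ' h => ?_
    have h1 : g ψ = g ψ' := by
      have h2 : (if o then r ∘ₗ v ∘ₗ g ψ else g ψ) = if o then r ∘ₗ v ∘ₗ g ψ' else g ψ' := by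
        rw [← hg', ← hg', h]
      cases o
      · simpa using h2
      · simp only [if_true] at h2
        obtain ⟨v', hv'⟩ := hv.exists_left_inv
        obtain ⟨r', hr'⟩ := hr.exists_left_inv
        refine LinearMap.ext fun x => ?_
        have h3 := LinearMap.congr_fun h2 x
        simp only [LinearMap.comp_apply] at h3
        have h4 : v (g ψ x) = v (g ψ' x) := by
          have h5 := congrArg r' h3
          have h6 : ∀ y, r' (r y) = y := fun y => LinearMap.congr_fun hr' y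
          rwa [h6, h6] at h5
        have h5 := congrArg v' h4
        have h6 : ∀ y, v' (v y) = y := fun y => LinearMap.congr_fun hv' y
        rwa [h6, h6] at h5
    exact Subtype.ext (by rw [← hg ψ, ← hg ψ', h1])
  have hfr : Module.finrank F A * Module.finrank F B = Module.finrank F (B →ₗ[F] A) := by
    rw [Module.finrank_linearMap, mul_comm]
  rw [hfr, ← hsum, pow_add, hI, ← hA]
  exact Nat.mul_le_mul_left _ hle

end

end FLW
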