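import Mathlib
import Pool.Agent.FLW.StW
import Pool.Agent.FL0.ZON

/-!
# FLW: the number of the upper right blocks

MP_5b5212_al, oriented groups of genus one and non-oriented groups of genus two, module ZON
(adaptation of `FLN/ZON.lean`).
-/

set_option autoImplicit false

namespace FLW

open RSF FL0 Polynomial Pool.Agent.Lib_helper13

noncomputable section

section Block

variable {F A B : Type} [Field F] [AddCommGroup A] [Module F A] [AddCommGroup B] [Module F B]

lemma zon_bk_sub (z : F) (a a' : A →ₗ[F] A) (c c' : B →ₗ[F] A) (b b' : B →ₗ[F] B) :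
    bk a c b - z • bk a' c' b' = bk (a - z • a') (c - z • c') (b - z • b') := by
  apply LinearMap.ext
  rintro ⟨w, y⟩
  apply Prod.ext
  · change (a w + c y) - z • (a' w + c' y) = (a w - z • a' w) + (c y - z • c' y)
    rw [smul_add]
    abel
  · rfl

/-- the upper right block, explicitly -/
def zon_B {d : ℕ} (o : Bool) (z : F) (a : Fin d → (A →ₗ[F] A)) (u p : A →ₗ[F] A)
    (b : Fin d → (B →ₗ[F] B)) (v r : B →ₗ[F] B) (c : Fin d → (B →ₗ[F] A)) (e f : B →ₗ[F] A) :
    B →ₗ[F] A :=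
  if o then ((List.ofFn a).prod * u) ∘ₗ f + ((List.ofFn a).prod ∘ₗ e + ur a b c ∘ₗ v) ∘ₗ r -
      z • (p ∘ₗ e + f ∘ₗ v)
  else ((List.ofFn a).prod * (u * u)) ∘ₗ (p ∘ₗ f + f ∘ₗ r) +
      ((List.ofFn a).prod ∘ₗ (u ∘ₗ e + e ∘ₗ v) + ur a b c ∘ₗ (v * v)) ∘ₗ (r * r) - z • 0

lemma zon_W {d : ℕ} (o : Bool) (z : F) (a : Fin d → (A →ₗ[F] A)) (u p : A →ₗ[F] A)
    (b : Fin d → (B →ₗ[F] B)) (v r : B →ₗ[F] B) (c : Fin d → (B →ₗ[F] A)) (e f : B →ₗ[F] A) :
    Wl o z (List.ofFn fun j => bk (a j) (c j) (b j)).prod (bk u e v) (bk p f r) =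
      bk (Wl o z (List.ofFn a).prod u p) (zon_B o z a u p b v r c e f)
        (Wl o z (List.ofFn b).prod v r) := by
  rw [FL0.ZON.prod_bk]
  cases o
  · simp only [Wl, zon_B, Bool.false_eq_true, if_false]
    rw [pow_two, pow_two, pow_two, pow_two, pow_two, pow_two, FL0.ZON.bk_mul, FL0.ZON.bk_mul,
      FL0.ZON.bk_mul, FL0.ZON.bk_mul, ← FL0.ZON.bk_one, zon_bk_sub]
  · simp only [Wl, zon_B, if_true]
    rw [FL0.ZON.bk_mul, FL0.ZON.bk_mul, FL0.ZON.bk_mul, zon_bk_sub]

lemma zon_u2 {d : ℕ} (o : Bool) (z : F) (a : Fin d → (A →ₗ[F] A)) (u p : A →ₗ[F] A)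
    (b : Fin d → (B →ₗ[F] B)) (v r : B →ₗ[F] B) (c : Fin d → (B →ₗ[F] A)) (e f : B →ₗ[F] A) :
    u2 o z a u p b v r c e f = zon_B o z a u p b v r c e f := by
  unfold u2
  rw [zon_W, FL0.ZON.fst_bk_inr]

lemma zon_u2_add {d : ℕ} (o : Bool) (z : F) (a : Fin d → (A →ₗ[F] A)) (u p : A →ₗ[F] A)
    (b : Fin d → (B →ₗ[F] B)) (v r : B →ₗ[F] B) (c c' : Fin d → (B →ₗ[F] A))
    (e e' f f' : B →ₗ[F] A) :
    u2 o z a u p b v r (c + c') (e + e') (f + f') =
      u2 o z a u p b v r c e f + u2 o z a u p b v r c' e' f' := by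
  rw [zon_u2, zon_u2, zon_u2]
  cases o
  · simp only [zon_B, Bool.false_eq_true, if_false]
    rw [FL0.ZON.ur_add]
    simp only [LinearMap.comp_add, LinearMap.add_comp, smul_zero, sub_zero]
    abel
  · simp only [zon_B, if_true]
    rw [FL0.ZON.ur_add]
    simp only [LinearMap.comp_add, LinearMap.add_comp, smul_add]
    abel

/-- the additive map -/
def zon_U {d : ℕ} (o : Bool) (z : F) (a : Fin d → (A →ₗ[F] A)) (u p : A →ₗ[F] A)
    (b : Fin d → (B →ₗ[F] B)) (v r : B →ₗ[F] B) :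
    ((Fin d → (B →ₗ[F] A)) × (B →ₗ[F] A) × (B →ₗ[F] A)) →+ (B →ₗ[F] A) :=
  AddMonoidHom.mk' (fun t => u2 o z a u p b v r t.1 t.2.1 t.2.2)
    (fun t t' => zon_u2_add o z a u p b v r t.1 t'.1 t.2.1 t'.2.1 t.2.2 t'.2.2)

/-- the commutators -/
def zon_L {d : ℕ} (a : Fin d → (A →ₗ[F] A)) (b : Fin d → (B →ₗ[F] B)) :
    ((Fin d → (B →ₗ[F] A)) × (B →ₗ[F] A) × (B →ₗ[F] A)) →+
      ((Fin d → (B →ₗ[F] A)) × (B →ₗ[F] A) × (B →ₗ[F] A)) :=
  AddMonoidHom.prodMap (FL0.ZON.LH a b) (AddMonoidHom.id _)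

end Block

theorem t_ZON : M_ZON := by
  classical
  intro hZRG hZCM hZAN F A B _ _ _ _ _ _ _ _ m hm2 hmq z hz o a u p b v r ha hb hu hp hv hr
  set q := Nat.card F with hq
  set S := {c : (Fin m.length → (B →ₗ[F] A)) × (B →ₗ[F] A) × (B →ₗ[F] A) //
          (∀ j, bk (a j) (c.1 j) (b j) ^ m.get j = 1) ∧
          Wl o z (List.ofFn fun j => bk (a j) (c.1 j) (b j)).prod (bk u c.2.1 v)
            (bk p c.2.2 r) = 0} with hS
  haveI : Finite A := Module.finite_of_finite F
  haveI : Finite B := Module.finite_of_finite F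
  haveI : Finite (B →ₗ[F] A) := Module.finite_of_finite F
  rcases isEmpty_or_nonempty S with hE | ⟨⟨c0, hc0⟩⟩
  · rw [Nat.card_of_isEmpty, zero_mul]
    exact Nat.zero_le _
  have hpa : Wl o z (List.ofFn a).prod u p = 0 := by
    have h1 := hc0.2
    rw [zon_W] at h1
    have h2 := congrArg (fun T => LinearMap.fst F A B ∘ₗ T ∘ₗ LinearMap.inl F A B) h1
    simp only [FL0.ZON.fst_bk_inl] at h2
    exact h2
  have hpb : Wl o z (List.ofFn b).prod v r = 0 := by
    have h1 := hc0.2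
    rw [zon_W] at h1
    have h2 := congrArg (fun T => LinearMap.snd F A B ∘ₗ T ∘ₗ LinearMap.inr F A B) h1
    simp only [FL0.ZON.snd_bk_inr] at h2
    exact h2
  -- the maps
  let L := FL0.ZON.LH a b
  let U := zon_U o z a u p b v r
  let f := U.comp (zon_L a b)
  have hI : Nat.card {y : B →ₗ[F] A // ∃ (h : Fin m.length → (B →ₗ[F] A)) (e f : B →ₗ[F] A),
      u2 o z a u p b v r (fun j => a j ∘ₗ h j - h j ∘ₗ b j) e f = y} = Nat.card f.range := by
    refine Nat.card_congr (Equiv.subtypeEquivRight fun y => ?_)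
    rw [AddMonoidHom.mem_range]
    constructor
    · rintro ⟨h, e, g, he⟩
      exact ⟨(h, e, g), he⟩
    · rintro ⟨⟨h, e, g⟩, he⟩
      exact ⟨h, e, g, he⟩
  have hker : Nat.card f.ker * Nat.card f.range =
      Nat.card ((Fin m.length → (B →ₗ[F] A)) × (B →ₗ[F] A) × (B →ₗ[F] A)) := by
    rw [← AddSubgroup.index_ker]
    exact AddSubgroup.card_mul_index _
  have hBA : Nat.card (B →ₗ[F] A) = q ^ (Module.finrank F A * Module.finrank F B) := by
    rw [Module.natCard_eq_pow_finrank (K := F), Module.finrank_linearMap, hq]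
    congr 1
    ring
  have hG : Nat.card ((Fin m.length → (B →ₗ[F] A)) × (B →ₗ[F] A) × (B →ₗ[F] A)) =
      q ^ ((m.length + 2) * (Module.finrank F A * Module.finrank F B)) := by
    rw [Nat.card_prod, Nat.card_prod, Nat.card_pi, Finset.prod_const, Finset.card_univ,
      Fintype.card_fin, hBA, ← pow_mul, ← pow_add, ← pow_add]
    congr 1
    ring
  -- the kernel of `L`
  have hkL : q ^ (pr a b) ≤ Nat.card L.ker := by
    have e1 : Nat.card L.ker =
        Nat.card {h : Fin m.length → (B →ₗ[F] A) // ∀ j, a j ∘ₗ h j = h j ∘ₗ b j} := by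
      refine Nat.card_congr (Equiv.subtypeEquivRight fun h => ?_)
      rw [AddMonoidHom.mem_ker]
      constructor
      · intro h1 j
        exact sub_eq_zero.1 (congrFun h1 j)
      · intro h1
        funext j
        exact sub_eq_zero.2 (h1 j)
    rw [e1, Nat.card_congr (Equiv.subtypePiEquivPi (p := fun j (h : B →ₗ[F] A) =>
      a j ∘ₗ h = h ∘ₗ b j)), Nat.card_pi]
    unfold pr
    rw [← Finset.prod_pow_eq_pow_sum]
    refine Finset.prod_le_prod' fun j _ => ?_
    exact hZCM F A B (m.get j) (by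
      have := hm2 _ (List.get_mem m j)
      omega) (hmq _ (List.get_mem m j)) (a j) (b j) (ha j) (hb j)
  -- `(k : F) ≠ 0`
  have hk0 : ∀ j, ((m.get j : ℕ) : F) ≠ 0 := by
    intro j h0
    obtain ⟨t, ht⟩ := hmq _ (List.get_mem m j)
    haveI : Fintype F := Fintype.ofFinite F
    have h1 : (q : F) = 0 := by
      rw [hq, Nat.card_eq_fintype_card]
      exact FiniteField.cast_card_eq_zero F
    have h2 : 1 ≤ q := Nat.card_pos
    have h3 : ((q - 1 : ℕ) : F) = -1 := by
      rw [Nat.cast_sub h2, h1]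
      simp
    rw [ht] at h3
    push_cast at h3
    rw [h0, zero_mul] at h3
    exact one_ne_zero (neg_eq_zero.1 h3.symm)
  -- the injection
  have hex : ∀ c : S, ∃ h, L h = c.1.1 := by
    intro c
    have h1 : ∀ j, ∃ h : B →ₗ[F] A, c.1.1 j = a j ∘ₗ h - h ∘ₗ b j := fun j =>
      hZRG F A B (m.get j) (by
        have := hm2 _ (List.get_mem m j)
        omega) (hk0 j) (a j) (b j) (c.1.1 j) (ha j) (hb j) (c.2.1 j)
    choose h hh using h1
    exact ⟨h, funext fun j => (hh j).symm⟩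
  choose s hs using hex
  have hU : ∀ c : S, U c.1 = 0 := by
    intro c
    change u2 o z a u p b v r c.1.1 c.1.2.1 c.1.2.2 = 0
    unfold u2
    rw [c.2.2]
    rw [LinearMap.zero_comp, LinearMap.comp_zero]
  have hinj : Nat.card S * Nat.card L.ker ≤ Nat.card f.ker := by
    rw [← Nat.card_prod]
    refine Nat.card_le_card_of_injective
      (fun t : S × L.ker => (⟨(s t.1 + t.2.1, t.1.1.2), ?_⟩ : f.ker)) ?_
    · rw [AddMonoidHom.mem_ker]
      change U (L (s t.1 + t.2.1), t.1.1.2) = 0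
      rw [map_add, hs, AddMonoidHom.mem_ker.1 t.2.2, add_zero]
      exact hU t.1
    · rintro ⟨c, h⟩ ⟨c', h'⟩ he
      have h0 : ((s c + h.1, c.1.2) :
          (Fin m.length → (B →ₗ[F] A)) × (B →ₗ[F] A) × (B →ₗ[F] A)) =
          (s c' + h'.1, c'.1.2) := congrArg Subtype.val he
      have h1 : s c + h.1 = s c' + h'.1 := (Prod.ext_iff.1 h0).1
      have h1' : c.1.2 = c'.1.2 := (Prod.ext_iff.1 h0).2
      have h2 := congrArg L h1
      rw [map_add, map_add, hs, hs, AddMonoidHom.mem_ker.1 h.2, AddMonoidHom.mem_ker.1 h'.2,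
        add_zero, add_zero] at h2
      have h3 : c = c' := Subtype.ext (Prod.ext h2 h1')
      subst h3
      have h4 : h = h' := Subtype.ext (add_left_cancel h1)
      rw [h4]
  have hAN := hZAN F A B m.length z hz o a u p b v r hu hp hv hr hpa hpb
  rw [hI] at hAN
  calc Nat.card S * q ^ (Module.finrank F A * Module.finrank F B + pr a b)
      = Nat.card S * q ^ (pr a b) * q ^ (Module.finrank F A * Module.finrank F B) := by
        rw [pow_add]
        ring
    _ ≤ Nat.card S * Nat.card L.ker * (Nat.card f.range * Nat.card (Hs o a u p b v r)) :=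
        Nat.mul_le_mul (Nat.mul_le_mul_left _ hkL) hAN
    _ ≤ Nat.card f.ker * (Nat.card f.range * Nat.card (Hs o a u p b v r)) :=
        Nat.mul_le_mul_right _ hinj
    _ = q ^ ((m.length + 2) * (Module.finrank F A * Module.finrank F B)) *
          Nat.card (Hs o a u p b v r) := by
        rw [← mul_assoc, hker, hG]

end

end FLW
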